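import Mathlib

/-! Second differences of `exp (u/2) ∫_u^∞ φ`. -/

set_option autoImplicit false

open MeasureTheory Set Complex

namespace Q260.GC

/-- `exp (u/2) ∫_u^∞ φ` -/
noncomputable def gg (φ : ℝ → ℂ) (u : ℝ) : ℂ := cexp ((u / 2 : ℝ)) * ∫ v in Ioi u, φ v

/-- the second difference with the sign of `2 - 2 cos` -/
noncomputable def dd (f : ℝ → ℂ) (h u : ℝ) : ℂ := 2 * f u - f (u + h) - f (u - h)

lemma split {φ : ℝ → ℂ} {a b : ℝ} (hab : a ≤ b) (hi : IntegrableOn φ (Ioi a)) :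
    ∫ v in Ioi a, φ v = (∫ v in a..b, φ v) + ∫ v in Ioi b, φ v := by
  rw [intervalIntegral.integral_of_le hab, ← setIntegral_union (Ioc_disjoint_Ioi le_rfl) measurableSet_Ioi
    (hi.mono_set Ioc_subset_Ioi_self) (hi.mono_set (Ioi_subset_Ioi hab)), Ioc_union_Ioi_eq_Ioi hab]

theorem kern {φ : ℝ → ℂ} {h u : ℝ} (hh : 0 ≤ h) (hi : IntegrableOn φ (Ioi (u - h))) :
    dd (gg φ) h u = -((Real.exp (h / 2) + Real.exp (-(h / 2)) - 2 : ℝ) : ℂ) * (Real.exp (-(h / 2)) : ℝ) *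
        gg φ (u + h) +
      (Real.exp (u / 2) : ℝ) * ((2 - Real.exp (-(h / 2)) : ℝ) * (∫ v in u..(u + h), φ v) -
        (Real.exp (-(h / 2)) : ℝ) * ∫ v in (u - h)..u, φ v) := by
  have h1 := split (φ := φ) (a := u - h) (b := u) (by linarith) hi
  have hi2 : IntegrableOn φ (Ioi u) := hi.mono_set (Ioi_subset_Ioi (by linarith))
  have h2 := split (φ := φ) (a := u) (b := u + h) (by linarith) hi2
  unfold dd gg
  rw [h1, h2]
  generalize (∫ v in (u - h)..u, φ v) = I2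
  generalize (∫ v in u..(u + h), φ v) = I1
  generalize (∫ v in Ioi (u + h), φ v) = I0
  have e1 : cexp (((u + h) / 2 : ℝ)) = cexp ((u / 2 : ℝ)) * cexp ((h / 2 : ℝ)) := by
    rw [← Complex.exp_add]; congr 1; push_cast; ring
  have e2 : cexp (((u - h) / 2 : ℝ)) = cexp ((u / 2 : ℝ)) * cexp ((-(h / 2) : ℝ)) := by
    rw [← Complex.exp_add]; congr 1; push_cast; ring
  have e3 : cexp ((h / 2 : ℝ)) * cexp ((-(h / 2) : ℝ)) = 1 := by
    rw [← Complex.exp_add]; simp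
  rw [e1, e2]
  simp only [ofReal_sub, ofReal_add, ofReal_exp, ofReal_ofNat]
  generalize cexp ((u / 2 : ℝ)) = U at *
  generalize cexp ((h / 2 : ℝ)) = Q at *
  generalize cexp ((-(h / 2) : ℝ)) = R at *
  linear_combination (U * I0 * Q * (1 - 1) + U * I0 * (Q - 2) + U * I0 * R) * e3

/-- the elementary inequality for step functions -/
theorem step_ineq {cp cm b e h : ℝ} (he : 0 ≤ e) (h0 : 0 ≤ h) (h1 : h ≤ 1) :
    |(2 - Real.exp (-(h / 2))) * (cp * e * (1 - Real.exp (-h)) - b * h) -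
      Real.exp (-(h / 2)) * (cm * e * (Real.exp h - 1) - b * h) - h * e * (cp - cm)| ≤
      2 * h ^ 2 * (e * (|cp| + |cm|) + |b|) := by
  have a1 : |Real.exp h - 1 - h| ≤ h ^ 2 := by
    have := Real.abs_exp_sub_one_sub_id_le (x := h) (by rw [abs_of_nonneg h0]; exact h1)
    exact this
  have a2 : |Real.exp (-h) - 1 - (-h)| ≤ (-h) ^ 2 :=
    Real.abs_exp_sub_one_sub_id_le (x := -h) (by rw [abs_neg, abs_of_nonneg h0]; exact h1)
  have a3 : |1 - Real.exp (-h) - h| ≤ h ^ 2 := by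
    rw [← abs_neg]
    calc |-(1 - Real.exp (-h) - h)| = |Real.exp (-h) - 1 - (-h)| := by congr 1; ring
      _ ≤ (-h) ^ 2 := a2
      _ = h ^ 2 := by ring
  have b1 : 0 ≤ 1 - Real.exp (-h) := by
    have : Real.exp (-h) ≤ 1 := Real.exp_le_one_iff.2 (by linarith)
    linarith
  have b2 : 1 - Real.exp (-h) ≤ h := by
    have := Real.add_one_le_exp (-h)
    linarith
  have b3 : 0 ≤ Real.exp h - 1 := by
    have := Real.one_le_exp h0
    linarith
  have b4 : Real.exp h - 1 ≤ 2 * h := by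
    have := (abs_le.1 a1).2
    nlinarith
  obtain ⟨q, hq⟩ : ∃ q, q = Real.exp (-(h / 2)) := ⟨_, rfl⟩
  have c1 : 0 ≤ 1 - q := by
    rw [hq]
    have : Real.exp (-(h / 2)) ≤ 1 := Real.exp_le_one_iff.2 (by linarith)
    linarith
  have c2 : 1 - q ≤ h / 2 := by
    rw [hq]
    have := Real.add_one_le_exp (-(h / 2))
    linarith
  rw [← hq]
  generalize Real.exp (-h) = E1 at *
  generalize Real.exp h = E2 at *
  have key : (2 - q) * (cp * e * (1 - E1) - b * h) - q * (cm * e * (E2 - 1) - b * h) - h * e * (cp - cm) =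
      e * (cp * (1 - E1 - h)) - e * (cm * (E2 - 1 - h)) +
        (1 - q) * (cp * e * (1 - E1)) + (1 - q) * (cm * e * (E2 - 1)) - (1 - q) * (2 * b * h) := by ring
  rw [key]
  have d1 : |e * (cp * (1 - E1 - h))| ≤ h ^ 2 * (e * |cp|) := by
    rw [abs_mul, abs_mul, abs_of_nonneg he]
    have := mul_le_mul_of_nonneg_left a3 (mul_nonneg he (abs_nonneg cp))
    nlinarith
  have d2 : |e * (cm * (E2 - 1 - h))| ≤ h ^ 2 * (e * |cm|) := by
    rw [abs_mul, abs_mul, abs_of_nonneg he]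
    have := mul_le_mul_of_nonneg_left a1 (mul_nonneg he (abs_nonneg cm))
    nlinarith
  have d3 : |(1 - q) * (cp * e * (1 - E1))| ≤ h ^ 2 / 2 * (e * |cp|) := by
    rw [abs_mul, abs_mul, abs_mul, abs_of_nonneg c1, abs_of_nonneg he, abs_of_nonneg b1]
    have h2 : (1 - q) * (1 - E1) ≤ h / 2 * h := mul_le_mul c2 b2 b1 (by linarith)
    have := mul_le_mul_of_nonneg_left h2 (mul_nonneg he (abs_nonneg cp))
    nlinarith
  have d4 : |(1 - q) * (cm * e * (E2 - 1))| ≤ h ^ 2 * (e * |cm|) := by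
    rw [abs_mul, abs_mul, abs_mul, abs_of_nonneg c1, abs_of_nonneg he, abs_of_nonneg b3]
    have h2 : (1 - q) * (E2 - 1) ≤ h / 2 * (2 * h) := mul_le_mul c2 b4 b3 (by linarith)
    have := mul_le_mul_of_nonneg_left h2 (mul_nonneg he (abs_nonneg cm))
    nlinarith
  have d5 : |(1 - q) * (2 * b * h)| ≤ h ^ 2 * |b| := by
    rw [abs_mul, abs_mul, abs_mul, abs_of_nonneg c1, abs_of_nonneg h0, abs_of_pos (by norm_num : (0:ℝ) < 2)]
    have h2 : (1 - q) * (2 * h) ≤ h / 2 * (2 * h) := mul_le_mul_of_nonneg_right c2 (by linarith)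
    have := mul_le_mul_of_nonneg_left h2 (abs_nonneg b)
    nlinarith
  have t1 := abs_sub (e * (cp * (1 - E1 - h)) - e * (cm * (E2 - 1 - h)) +
        (1 - q) * (cp * e * (1 - E1)) + (1 - q) * (cm * e * (E2 - 1))) ((1 - q) * (2 * b * h))
  have t2 := abs_add_le (e * (cp * (1 - E1 - h)) - e * (cm * (E2 - 1 - h)) +
        (1 - q) * (cp * e * (1 - E1))) ((1 - q) * (cm * e * (E2 - 1)))
  have t3 := abs_add_le (e * (cp * (1 - E1 - h)) - e * (cm * (E2 - 1 - h))) ((1 - q) * (cp * e * (1 - E1)))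
  have t4 := abs_sub (e * (cp * (1 - E1 - h))) (e * (cm * (E2 - 1 - h)))
  have p1 : 0 ≤ h ^ 2 * (e * |cp|) := by positivity
  have p2 : 0 ≤ h ^ 2 * (e * |cm|) := by positivity
  have p3 : 0 ≤ h ^ 2 * |b| := by positivity
  nlinarith

/-- the coefficient of the tail is small -/
theorem tail_coef {h : ℝ} (h0 : 0 ≤ h) (h1 : h ≤ 1) :
    |(Real.exp (h / 2) + Real.exp (-(h / 2)) - 2) * Real.exp (-(h / 2))| ≤ h ^ 2 := by
  have a1 : |Real.exp (h / 2) - 1 - h / 2| ≤ (h / 2) ^ 2 :=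
    Real.abs_exp_sub_one_sub_id_le (x := h / 2) (by rw [abs_of_nonneg (by linarith)]; linarith)
  have a2 : |Real.exp (-(h / 2)) - 1 - (-(h / 2))| ≤ (-(h / 2)) ^ 2 :=
    Real.abs_exp_sub_one_sub_id_le (x := -(h / 2)) (by rw [abs_neg, abs_of_nonneg (by linarith)]; linarith)
  have a3 : Real.exp (-(h / 2)) ≤ 1 := Real.exp_le_one_iff.2 (by linarith)
  have a4 := Real.exp_pos (-(h / 2))
  rw [abs_mul, abs_of_pos a4]
  have a5 : |Real.exp (h / 2) + Real.exp (-(h / 2)) - 2| ≤ h ^ 2 := by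
    obtain ⟨x1, x2⟩ := abs_le.1 a1
    obtain ⟨y1, y2⟩ := abs_le.1 a2
    rw [abs_le]
    constructor <;> nlinarith
  nlinarith [abs_nonneg (Real.exp (h / 2) + Real.exp (-(h / 2)) - 2)]

end Q260.GC
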