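import Pool.Agent.Q260.GC.A1
import Pool.Agent.Q296.NA.Ex

/-! The sum over the zeros `∑ e^{iγu} (2 - 2 cos γh) / (1/4 + γ²)`. -/

set_option autoImplicit false

open MeasureTheory Set Complex Filter Topology

namespace Q260.GC

open Pool.Agent.Y23 (Zt mu)
open Pool.Agent.Q296.NA (wt Wz Kf Ec Tn al be ga wt_summable main_eq Kf_eq Kf_le eP_le eP_ii eP_int
  al_le be_le ga_le ga_nonneg Wz_contOn)
open Q239.RN (eP eP_meas)

lemma exp_sub_one_le {x : ℝ} : Real.exp x - 1 ≤ x * Real.exp x := by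
  have h1 := Real.add_one_le_exp (-x)
  have h2 : Real.exp x * Real.exp (-x) = 1 := by rw [← Real.exp_add]; simp
  nlinarith [Real.exp_pos x]

lemma cosh_bound (x : ℝ) : |Real.exp x + Real.exp (-x) - 2| ≤ x ^ 2 * Real.exp |x| := by
  have key : ∀ y : ℝ, 0 ≤ y → |Real.exp y + Real.exp (-y) - 2| ≤ y ^ 2 * Real.exp y := by
    intro y hy
    have h2 : Real.exp y * Real.exp (-y) = 1 := by rw [← Real.exp_add]; simp
    have h3 := exp_sub_one_le (x := y)
    have h4 : 0 ≤ Real.exp y - 1 := by linarith [Real.one_le_exp hy]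
    have e1 : Real.exp y + Real.exp (-y) - 2 = Real.exp (-y) * (Real.exp y - 1) ^ 2 := by
      linear_combination (-Real.exp y + 2) * h2
    rw [e1, abs_of_nonneg (by positivity)]
    have h5 : (Real.exp y - 1) ^ 2 ≤ (y * Real.exp y) ^ 2 := pow_le_pow_left₀ h4 h3 2
    calc Real.exp (-y) * (Real.exp y - 1) ^ 2 ≤ Real.exp (-y) * (y * Real.exp y) ^ 2 :=
          mul_le_mul_of_nonneg_left h5 (Real.exp_pos _).le
      _ = y ^ 2 * Real.exp y * (Real.exp y * Real.exp (-y)) := by ring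
      _ = _ := by rw [h2, mul_one]
  rcases le_total 0 x with h | h
  · rw [abs_of_nonneg h]; exact key x h
  · have := key (-x) (by linarith)
    rw [neg_neg, add_comm (Real.exp (-x))] at this
    rw [abs_of_nonpos h]
    simpa using this

/-- real exponentials -/
noncomputable def ce (κ u : ℝ) : ℂ := cexp ((κ * u : ℝ))

lemma ce_cont (κ : ℝ) : Continuous (ce κ) := by unfold ce; fun_prop

lemma dd_ce_le (κ h u : ℝ) (hh : 0 ≤ h) : ‖dd (ce κ) h u‖ ≤ κ ^ 2 * h ^ 2 * Real.exp (κ * u + |κ| * h) := by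
  have e1 : dd (ce κ) h u = -((Real.exp (κ * u) * (Real.exp (κ * h) + Real.exp (-(κ * h)) - 2) : ℝ) : ℂ) := by
    unfold dd ce
    have a1 : cexp ((κ * (u + h) : ℝ)) = cexp ((κ * u : ℝ)) * cexp ((κ * h : ℝ)) := by
      rw [← Complex.exp_add]; congr 1; push_cast; ring
    have a2 : cexp ((κ * (u - h) : ℝ)) = cexp ((κ * u : ℝ)) * cexp ((-(κ * h) : ℝ)) := by
      rw [← Complex.exp_add]; congr 1; push_cast; ring
    rw [a1, a2]
    simp only [ofReal_mul, ofReal_sub, ofReal_add, ofReal_exp, ofReal_ofNat, ofReal_neg]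
    ring
  rw [e1, norm_neg, Complex.norm_real, Real.norm_eq_abs, abs_mul, abs_of_pos (Real.exp_pos _)]
  have h2 := cosh_bound (κ * h)
  rw [abs_mul, abs_of_nonneg hh] at h2
  calc Real.exp (κ * u) * |Real.exp (κ * h) + Real.exp (-(κ * h)) - 2|
      ≤ Real.exp (κ * u) * ((κ * h) ^ 2 * Real.exp (|κ| * h)) :=
        mul_le_mul_of_nonneg_left h2 (Real.exp_pos _).le
    _ = _ := by rw [Real.exp_add]; ring

lemma dd_add (f g : ℝ → ℂ) (h u : ℝ) : dd (fun v => f v + g v) h u = dd f h u + dd g h u := by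
  unfold dd; ring

lemma dd_sub (f g : ℝ → ℂ) (h u : ℝ) : dd (fun v => f v - g v) h u = dd f h u - dd g h u := by
  unfold dd; ring

lemma dd_mul (c : ℂ) (f : ℝ → ℂ) (h u : ℝ) : dd (fun v => c * f v) h u = c * dd f h u := by
  unfold dd; ring

/-- the exponents -/
noncomputable def kn (n : ℕ) : ℝ := 2 * n + 9 / 2

lemma kn_pos (n : ℕ) : 0 < kn n := by unfold kn; positivity

/-- the arithmetic of the coefficients -/
lemma ga_kn (n : ℕ) : ga n * kn n ≤ 1 / (n + 1) := by
  have hn : (0 : ℝ) ≤ n := Nat.cast_nonneg n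
  unfold ga kn
  rw [div_mul_eq_mul_div, div_le_div_iff₀ (by positivity) (by positivity)]
  nlinarith

lemma ga_kn2 (n : ℕ) : ga n * kn n ^ 2 ≤ 3 := by
  have hn : (0 : ℝ) ≤ n := Nat.cast_nonneg n
  unfold ga kn
  rw [div_mul_eq_mul_div, div_le_iff₀ (by positivity)]
  nlinarith

lemma ga_sum : Summable ga := Summable.of_nonneg_of_le ga_nonneg ga_le H370.DG.summable_inv_sq

/-- the singular part -/
noncomputable def Sg (u : ℝ) : ℂ := ∑' n : ℕ, (ga n : ℂ) * ce (-kn n) u

lemma ce_norm (κ u : ℝ) : ‖ce κ u‖ = Real.exp (κ * u) := by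
  unfold ce
  rw [norm_exp, Complex.ofReal_re]

lemma Sg_term {u : ℝ} (hu : 0 ≤ u) (n : ℕ) : ‖(ga n : ℂ) * ce (-kn n) u‖ ≤ ga n := by
  rw [norm_mul, ce_norm, Complex.norm_real, Real.norm_of_nonneg (ga_nonneg n)]
  refine mul_le_of_le_one_right (ga_nonneg n) ?_
  rw [Real.exp_le_one_iff]
  have := mul_nonneg (kn_pos n).le hu
  linarith

lemma Sg_summable {u : ℝ} (hu : 0 ≤ u) : Summable fun n : ℕ => (ga n : ℂ) * ce (-kn n) u :=
  Summable.of_norm_bounded ga_sum (Sg_term hu)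

lemma Sg_cont : ContinuousOn Sg (Ici 0) :=
  continuousOn_tsum (u := ga) (fun n => ((ce_cont _).const_mul _).continuousOn) ga_sum
    fun n _ hu => Sg_term hu n

lemma geo {u : ℝ} (hu : 0 < u) : Summable (fun n : ℕ => Real.exp (-kn n * (u / 2))) ∧
    ∑' n : ℕ, Real.exp (-kn n * (u / 2)) ≤ 1 / u := by
  have e1 : ∀ n : ℕ, Real.exp (-kn n * (u / 2)) = Real.exp (-(9 / 4 * u)) * Real.exp (-u) ^ n := by
    intro n
    rw [← Real.exp_nat_mul, ← Real.exp_add]
    congr 1
    unfold kn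
    ring
  have h1 : Real.exp (-u) < 1 := by rw [Real.exp_lt_one_iff]; linarith
  have h2 := summable_geometric_of_lt_one (Real.exp_pos (-u)).le h1
  refine ⟨(h2.mul_left (Real.exp (-(9 / 4 * u)))).congr fun n => (e1 n).symm, ?_⟩
  simp_rw [e1]
  rw [tsum_mul_left, tsum_geometric_of_lt_one (Real.exp_pos (-u)).le h1]
  have h3 : u * Real.exp (-u) ≤ 1 - Real.exp (-u) := by
    have h4 := Real.add_one_le_exp u
    have h5 : Real.exp u * Real.exp (-u) = 1 := by rw [← Real.exp_add]; simp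
    nlinarith [Real.exp_pos (-u)]
  have h6 : Real.exp (-(9 / 4 * u)) ≤ Real.exp (-u) := Real.exp_le_exp.2 (by linarith)
  rw [← div_eq_mul_inv, div_le_div_iff₀ (by linarith) hu]
  nlinarith [Real.exp_pos (-u)]

lemma dd_Sg {h u : ℝ} (hh : 0 < h) (hu : 2 * h ≤ u) : ‖dd Sg h u‖ ≤ 3 * h ^ 2 / u := by
  have hu0 : 0 < u := by linarith
  have e1 : dd Sg h u = ∑' n : ℕ, (ga n : ℂ) * dd (ce (-kn n)) h u := by
    have s1 := Sg_summable (u := u) hu0.le
    have s2 := Sg_summable (u := u + h) (by linarith)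
    have s3 := Sg_summable (u := u - h) (by linarith)
    unfold dd Sg
    rw [← tsum_mul_left, ← (s1.mul_left 2).tsum_sub s2, ← ((s1.mul_left 2).sub s2).tsum_sub s3]
    refine tsum_congr fun n => ?_
    ring
  obtain ⟨g1, g2⟩ := geo hu0
  rw [e1]
  have hb : ∀ n : ℕ, ‖(ga n : ℂ) * dd (ce (-kn n)) h u‖ ≤ 3 * h ^ 2 * Real.exp (-kn n * (u / 2)) := by
    intro n
    rw [norm_mul, Complex.norm_real, Real.norm_of_nonneg (ga_nonneg n)]
    have h1 := dd_ce_le (-kn n) h u hh.le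
    rw [abs_neg, abs_of_pos (kn_pos n)] at h1
    have h2 : Real.exp (-kn n * u + kn n * h) ≤ Real.exp (-kn n * (u / 2)) := by
      apply Real.exp_le_exp.2
      have := mul_nonneg (kn_pos n).le (by linarith : 0 ≤ u / 2 - h)
      nlinarith
    have h3 := ga_kn2 n
    have h4 := ga_nonneg n
    calc ga n * ‖dd (ce (-kn n)) h u‖ ≤ ga n * ((-kn n) ^ 2 * h ^ 2 * Real.exp (-kn n * (u / 2))) := by
          refine mul_le_mul_of_nonneg_left (h1.trans ?_) h4
          exact mul_le_mul_of_nonneg_left h2 (by positivity)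
      _ = (ga n * kn n ^ 2) * (h ^ 2 * Real.exp (-kn n * (u / 2))) := by ring
      _ ≤ 3 * (h ^ 2 * Real.exp (-kn n * (u / 2))) := mul_le_mul_of_nonneg_right h3 (by positivity)
      _ = _ := by ring
  refine (tsum_of_norm_bounded (g1.mul_left (3 * h ^ 2)).hasSum hb).trans ?_
  rw [tsum_mul_left]
  calc 3 * h ^ 2 * ∑' n : ℕ, Real.exp (-kn n * (u / 2)) ≤ 3 * h ^ 2 * (1 / u) :=
        mul_le_mul_of_nonneg_left g2 (by positivity)
    _ = _ := by ring

/-- the form of the explicit function -/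
theorem Ec_form2 (a b c : ℂ) : ∃ A B : ℂ, ∀ u : ℝ, 0 ≤ u → (Real.exp (u / 2) : ℂ) * Ec a b c u =
    A * ce (1 / 2) u + B * ce (-(1 / 2)) u - c * ce (-(5 / 2)) u + 1 / 2 * Sg u := by
  have sal : Summable (fun n => (al n : ℂ)) := by
    refine Summable.of_norm_bounded (H370.DG.summable_inv_sq.mul_left 2) fun n => ?_
    rw [Complex.norm_real, Real.norm_eq_abs, mul_one_div]
    exact al_le n
  have sbe : Summable (fun n => (be n : ℂ)) := by
    refine Summable.of_norm_bounded H370.DG.summable_inv_sq fun n => ?_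
    rw [Complex.norm_real, Real.norm_eq_abs]
    exact be_le n
  refine ⟨a - 1 / 2 * ∑' n, (al n : ℂ), -b + 1 / 2 * ∑' n, (be n : ℂ), fun u hu => ?_⟩
  have e0 : (Real.exp (u / 2) : ℂ) = ce (1 / 2) u := by
    unfold ce
    rw [Complex.ofReal_exp]
    congr 1
    push_cast; ring
  have e1 : ∀ k : ℝ, ce (1 / 2) u * cexp (-((k : ℂ) * u)) = ce (1 / 2 - k) u := by
    intro k
    unfold ce
    rw [← Complex.exp_add]
    congr 1
    push_cast; ring
  have hgt : Summable (fun n : ℕ => (ga n : ℂ) * cexp (-((2 * n + 5) * u))) := by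
    refine Summable.of_norm_bounded ga_sum fun n => ?_
    rw [norm_mul, Complex.norm_real, Real.norm_of_nonneg (ga_nonneg n), norm_exp]
    refine mul_le_of_le_one_right (ga_nonneg n) ?_
    rw [Real.exp_le_one_iff]
    have h1 : (-(((2 : ℂ) * n + 5) * u)).re = -((2 * n + 5) * u) := by simp
    rw [h1]
    have hn : (0 : ℝ) ≤ n := Nat.cast_nonneg n
    have := mul_nonneg (by linarith : (0 : ℝ) ≤ 2 * n + 5) hu
    linarith
  have hT : ∑' n, Tn n u = (∑' n, (al n : ℂ)) - (∑' n, (be n : ℂ)) * cexp (-(1 * u)) -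
      ∑' n : ℕ, (ga n : ℂ) * cexp (-((2 * n + 5) * u)) := by
    unfold Tn
    rw [(sal.sub (sbe.mul_right _)).tsum_sub hgt, sal.tsum_sub (sbe.mul_right _), tsum_mul_right]
  have hS : Sg u = ce (1 / 2) u * ∑' n : ℕ, (ga n : ℂ) * cexp (-((2 * n + 5) * u)) := by
    unfold Sg
    rw [← tsum_mul_left]
    refine tsum_congr fun n => ?_
    have h1 := e1 (2 * n + 5)
    have h2 : (1 / 2 - (2 * (n : ℝ) + 5)) = -kn n := by unfold kn; ring
    rw [h2] at h1
    rw [← h1]
    push_cast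
    ring
  have f1 := e1 1
  have f3 := e1 3
  rw [show (1 / 2 - 1 : ℝ) = -(1 / 2) by norm_num] at f1
  rw [show (1 / 2 - 3 : ℝ) = -(5 / 2) by norm_num] at f3
  unfold Ec
  rw [hT, e0, hS, ← f1, ← f3]
  push_cast
  ring

/-- the sum over the zeros -/
noncomputable def fz (u : ℝ) : ℂ := ∑' ρ : Zt, wt ρ * cexp (((ρ : ℂ) - 1 / 2) * u)

lemma fz_eq (u : ℝ) : fz u = (Real.exp (u / 2) : ℂ) * Wz u := by
  unfold fz Wz
  rw [← tsum_mul_left]
  refine tsum_congr fun ρ => ?_
  rw [Complex.ofReal_exp, mul_left_comm, ← Complex.exp_add]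
  congr 2
  push_cast; ring

/-- the prime side -/
noncomputable def kz (u : ℝ) : ℂ := (Real.exp (u / 2) : ℂ) * (Kf u : ℂ)

lemma kz_eq (u : ℝ) : kz u = gg (fun v => (eP v : ℂ)) u := by
  unfold kz gg Kf
  rw [integral_complex_ofReal, Complex.ofReal_exp]

/-- the explicit formula -/
theorem fz_form : ∃ A B c : ℂ, ∀ u : ℝ, 0 ≤ u →
    fz u = A * ce (1 / 2) u + B * ce (-(1 / 2)) u - c * ce (-(5 / 2)) u + 1 / 2 * Sg u - kz u := by
  obtain ⟨a, b, c, h⟩ := main_eq
  obtain ⟨A, B, hAB⟩ := Ec_form2 a b c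
  have hpos : ∀ u : ℝ, 0 < u →
      fz u = A * ce (1 / 2) u + B * ce (-(1 / 2)) u - c * ce (-(5 / 2)) u + 1 / 2 * Sg u - kz u := by
    intro u hu
    rw [← hAB u hu.le, ← h u hu, fz_eq]
    unfold kz
    ring
  refine ⟨A, B, c, fun u hu => ?_⟩
  rcases hu.eq_or_lt with h0 | h0
  · rw [← h0]
    have hc1 : ContinuousOn fz (Ici 0) := by
      have : fz = fun u => (Real.exp (u / 2) : ℂ) * Wz u := funext fz_eq
      rw [this]
      exact ContinuousOn.mul (Continuous.continuousOn (by fun_prop)) Wz_contOn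
    have hk : ContinuousOn kz (Ici 0) := by
      unfold kz
      refine ContinuousOn.mul (Continuous.continuousOn (by fun_prop)) ?_
      have h1 : Continuous (fun u : ℝ => ((Kf 0 - ∫ v in (0 : ℝ)..u, eP v : ℝ) : ℂ)) :=
        Complex.continuous_ofReal.comp
          (continuous_const.sub (intervalIntegral.continuous_primitive eP_ii 0))
      exact h1.continuousOn.congr fun u hu => by rw [Kf_eq hu]
    have hc2 : ContinuousOn (fun u => A * ce (1 / 2) u + B * ce (-(1 / 2)) u - c * ce (-(5 / 2)) u +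
        1 / 2 * Sg u - kz u) (Ici 0) := by
      refine ContinuousOn.sub (ContinuousOn.add (Continuous.continuousOn ?_) (Sg_cont.const_smul (1/2 : ℂ))) hk
      have := ce_cont
      fun_prop
    have t1 : Tendsto fz (𝓝[>] 0) (𝓝 (fz 0)) :=
      (hc1 0 self_mem_Ici).mono_left (nhdsWithin_mono 0 Ioi_subset_Ici_self)
    have t2 := (hc2 0 self_mem_Ici).mono_left (nhdsWithin_mono (0:ℝ) (Ioi_subset_Ici_self (a := (0:ℝ))))
    refine tendsto_nhds_unique t1 (t2.congr' ?_)
    filter_upwards [self_mem_nhdsWithin] with v hv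
    exact (hpos v hv).symm
  · exact hpos u h0

end Q260.GC
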