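import Pool.Agent.Q260.GC.A2

/-! The sum over the zeros: off-diagonal and diagonal values. -/

set_option autoImplicit false

open MeasureTheory Set Complex Filter Topology

namespace Q260.GC

open Pool.Agent.Y23 (Zt mu)
open Pool.Agent.Q296.NA (wt Wz Kf Ec Tn al be ga wt_summable main_eq Kf_eq Kf_le eP_le eP_ii eP_int
  al_le be_le ga_le ga_nonneg Wz_contOn)
open Q239.RN (eP eP_meas)

/-- integrals of step functions -/
lemma int_step {f : ℝ → ℝ} {a b c β : ℝ} (hab : a ≤ b) (h : ∀ v ∈ Ico a b, f v = c * Real.exp (-v) - β) :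
    ∫ v in a..b, f v = c * (Real.exp (-a) - Real.exp (-b)) - β * (b - a) := by
  have h1 : ∫ v in a..b, f v = ∫ v in a..b, (c * Real.exp (-v) - β) := by
    refine intervalIntegral.integral_congr_ae ?_
    have h2 : ∀ᵐ v : ℝ, v ≠ b := by
      rw [ae_iff]; simp
    filter_upwards [h2] with v hv hv2
    rw [uIoc_of_le hab] at hv2
    exact h v ⟨hv2.1.le, lt_of_le_of_ne hv2.2 hv⟩
  have h3 : ∫ v in a..b, Real.exp (-v) = Real.exp (-a) - Real.exp (-b) := by
    have h4 : ∀ v ∈ uIcc a b, HasDerivAt (fun v : ℝ => -Real.exp (-v)) (Real.exp (-v)) v := by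
      intro v _
      have h5 := ((hasDerivAt_id v).neg.exp).neg
      refine h5.congr_deriv ?_
      simp
    rw [intervalIntegral.integral_eq_sub_of_hasDerivAt h4
      ((Real.continuous_exp.comp continuous_neg).intervalIntegrable _ _)]
    ring
  rw [h1, intervalIntegral.integral_sub (Continuous.intervalIntegrable (by fun_prop) _ _)
    (Continuous.intervalIntegrable (by fun_prop) _ _), intervalIntegral.integral_const_mul, h3,
    intervalIntegral.integral_const]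
  simp only [smul_eq_mul]
  ring

/-- the main bound for functions `exp (-v) * step - β` -/
theorem kern_step {φ : ℝ → ℝ} {h u cp cm β M : ℝ} (hh : 0 < h) (h1 : h ≤ 1)
    (hi : IntegrableOn φ (Ioi (u - h))) (hp : ∀ v ∈ Ico u (u + h), φ v = cp * Real.exp (-v) - β)
    (hm : ∀ v ∈ Ico (u - h) u, φ v = cm * Real.exp (-v) - β)
    (hM : ‖gg (fun v => (φ v : ℂ)) (u + h)‖ ≤ M) :
    ‖dd (gg (fun v => (φ v : ℂ))) h u - ((h * Real.exp (-(u / 2)) * (cp - cm) : ℝ) : ℂ)‖ ≤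
      h ^ 2 * M + Real.exp (u / 2) * (2 * h ^ 2 * (Real.exp (-u) * (|cp| + |cm|) + |β|)) := by
  have hic : IntegrableOn (fun v => (φ v : ℂ)) (Ioi (u - h)) := hi.ofReal
  have hM0 : 0 ≤ M := (norm_nonneg _).trans hM
  rw [kern hh.le hic]
  have e1 : (∫ v in u..(u + h), (φ v : ℂ)) =
      ((cp * Real.exp (-u) * (1 - Real.exp (-h)) - β * h : ℝ) : ℂ) := by
    rw [intervalIntegral.integral_ofReal, int_step (by linarith) hp]
    congr 1
    have : Real.exp (-(u + h)) = Real.exp (-u) * Real.exp (-h) := by rw [← Real.exp_add]; congr 1; ring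
    rw [this]; ring
  have e2 : (∫ v in (u - h)..u, (φ v : ℂ)) =
      ((cm * Real.exp (-u) * (Real.exp h - 1) - β * h : ℝ) : ℂ) := by
    rw [intervalIntegral.integral_ofReal, int_step (by linarith) hm]
    congr 1
    have : Real.exp (-(u - h)) = Real.exp (-u) * Real.exp h := by rw [← Real.exp_add]; congr 1; ring
    rw [this]; ring
  rw [e1, e2]
  have e3 : Real.exp (-(u / 2)) = Real.exp (u / 2) * Real.exp (-u) := by
    rw [← Real.exp_add]; congr 1; ring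
  have s1 := step_ineq (cp := cp) (cm := cm) (b := β) (e := Real.exp (-u)) (Real.exp_pos _).le hh.le h1
  have s2 := tail_coef hh.le h1
  obtain ⟨X, hX⟩ : ∃ X : ℝ, X = (2 - Real.exp (-(h / 2))) * (cp * Real.exp (-u) * (1 - Real.exp (-h)) - β * h) -
      Real.exp (-(h / 2)) * (cm * Real.exp (-u) * (Real.exp h - 1) - β * h) - h * Real.exp (-u) * (cp - cm) :=
    ⟨_, rfl⟩
  rw [← hX] at s1
  have e4 : -((Real.exp (h / 2) + Real.exp (-(h / 2)) - 2 : ℝ) : ℂ) * (Real.exp (-(h / 2)) : ℝ) *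
        gg (fun v => (φ v : ℂ)) (u + h) +
      (Real.exp (u / 2) : ℝ) * ((2 - Real.exp (-(h / 2)) : ℝ) *
        ((cp * Real.exp (-u) * (1 - Real.exp (-h)) - β * h : ℝ) : ℂ) -
        (Real.exp (-(h / 2)) : ℝ) * ((cm * Real.exp (-u) * (Real.exp h - 1) - β * h : ℝ) : ℂ)) -
      ((h * Real.exp (-(u / 2)) * (cp - cm) : ℝ) : ℂ) =
      -(((Real.exp (h / 2) + Real.exp (-(h / 2)) - 2) * Real.exp (-(h / 2)) : ℝ) : ℂ) *
        gg (fun v => (φ v : ℂ)) (u + h) + ((Real.exp (u / 2) * X : ℝ) : ℂ) := by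
    rw [hX, e3]
    push_cast
    ring
  rw [e4]
  refine (norm_add_le _ _).trans (add_le_add ?_ ?_)
  · rw [norm_mul, norm_neg, Complex.norm_real, Real.norm_eq_abs]
    exact mul_le_mul s2 hM (norm_nonneg _) (by positivity)
  · rw [Complex.norm_real, Real.norm_eq_abs, abs_mul, abs_of_pos (Real.exp_pos _)]
    exact mul_le_mul_of_nonneg_left s1 (Real.exp_pos _).le

lemma exp_half_le {x : ℝ} (h : x ≤ 1) : Real.exp (x / 2) ≤ 2 := by
  have h1 : Real.exp (x / 2) ≤ Real.exp (1 / 2) := Real.exp_le_exp.2 (by linarith)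
  have h2 : Real.exp (1 / 2) ^ 2 ≤ 2 ^ 2 := by
    rw [← Real.exp_nat_mul]
    have := Real.exp_one_lt_d9
    norm_num
    linarith
  have h3 := (pow_le_pow_iff_left₀ (Real.exp_pos (1/2)).le (by norm_num : (0:ℝ) ≤ 2) two_ne_zero).1 h2
  linarith

theorem P_off : ∃ C : ℝ, 0 < C ∧ ∀ h u cp cm : ℝ, 0 < h → h ≤ 1 → 2 * h ≤ u →
    (∀ v ∈ Ico u (u + h), Chebyshev.psi (Real.exp v) = cp) →
    (∀ v ∈ Ico (u - h) u, Chebyshev.psi (Real.exp v) = cm) →
    ‖dd fz h u + ((h * Real.exp (-(u / 2)) * (cp - cm) : ℝ) : ℂ)‖ ≤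
      C * h ^ 2 * (Real.exp (u / 2) + 1 / u) := by
  obtain ⟨A, B, c, hf⟩ := fz_form
  obtain ⟨M1, hM1⟩ : ∃ M1 : ℝ, M1 = ∫ v in Ioi (0 : ℝ), |eP v| := ⟨_, rfl⟩
  have hM1' : 0 ≤ M1 := by rw [hM1]; exact integral_nonneg fun v => abs_nonneg _
  refine ⟨2 * ‖A‖ + 2 * ‖B‖ + 20 * ‖c‖ + 2 + 2 * M1 + 30, by positivity, ?_⟩
  intro h u cp cm h0 h1 hu hp hm
  have hu0 : 0 < u := by linarith
  have hE1 : 1 ≤ Real.exp (u / 2) := Real.one_le_exp (by linarith)
  -- decomposition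
  have e1 : dd fz h u = A * dd (ce (1 / 2)) h u + B * dd (ce (-(1 / 2))) h u - c * dd (ce (-(5 / 2))) h u +
      1 / 2 * dd Sg h u - dd kz h u := by
    unfold dd
    rw [hf u hu0.le, hf (u + h) (by linarith), hf (u - h) (by linarith)]
    ring
  have a1 : ‖dd (ce (1 / 2)) h u‖ ≤ 2 * h ^ 2 * Real.exp (u / 2) := by
    refine (dd_ce_le (1 / 2) h u h0.le).trans ?_
    have h2 : Real.exp (1 / 2 * u + |(1 / 2 : ℝ)| * h) ≤ 2 * Real.exp (u / 2) := by
      rw [abs_of_pos (by norm_num : (0:ℝ) < 1 / 2), Real.exp_add, mul_comm]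
      have h3 := exp_half_le h1
      rw [show 1 / 2 * h = h / 2 by ring, show 1 / 2 * u = u / 2 by ring]
      exact mul_le_mul_of_nonneg_right h3 (Real.exp_pos _).le
    have h4 : 0 ≤ h ^ 2 := sq_nonneg h
    have := mul_le_mul_of_nonneg_left h2 h4
    nlinarith [mul_nonneg h4 (Real.exp_pos (u / 2)).le]
  have a2 : ‖dd (ce (-(1 / 2))) h u‖ ≤ 2 * h ^ 2 * Real.exp (u / 2) := by
    refine (dd_ce_le (-(1 / 2)) h u h0.le).trans ?_
    have h2 : Real.exp (-(1 / 2) * u + |(-(1 / 2) : ℝ)| * h) ≤ 1 := by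
      rw [abs_neg, abs_of_pos (by norm_num : (0:ℝ) < 1 / 2), Real.exp_le_one_iff]
      linarith
    have h4 : 0 ≤ h ^ 2 := sq_nonneg h
    have := mul_le_mul_of_nonneg_left h2 h4
    nlinarith [mul_nonneg h4 (by linarith : 0 ≤ Real.exp (u / 2) - 1)]
  have a3 : ‖dd (ce (-(5 / 2))) h u‖ ≤ 20 * h ^ 2 * Real.exp (u / 2) := by
    refine (dd_ce_le (-(5 / 2)) h u h0.le).trans ?_
    have h2 : Real.exp (-(5 / 2) * u + |(-(5 / 2) : ℝ)| * h) ≤ 1 := by
      rw [abs_neg, abs_of_pos (by norm_num : (0:ℝ) < 5 / 2), Real.exp_le_one_iff]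
      linarith
    have h4 : 0 ≤ h ^ 2 := sq_nonneg h
    have := mul_le_mul_of_nonneg_left h2 h4
    nlinarith [mul_nonneg h4 (by linarith : 0 ≤ Real.exp (u / 2) - 1)]
  have a4 := dd_Sg h0 hu
  -- the prime part
  have hpsi : ∀ v : ℝ, Chebyshev.psi (Real.exp v) ≤ 6 * Real.exp v := by
    intro v
    have h2 := Chebyshev.psi_le_const_mul_self (x := Real.exp v) (Real.exp_pos v).le
    have h3 : Real.log 4 < 2 := by
      rw [show (4:ℝ) = 2 ^ 2 by norm_num, Real.log_pow]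
      have := Real.log_two_lt_d9
      push_cast
      linarith
    nlinarith [Real.exp_pos v]
  have hcp : 0 ≤ cp ∧ cp ≤ 6 * Real.exp u := by
    rw [← hp u ⟨le_rfl, by linarith⟩]
    exact ⟨Chebyshev.psi_nonneg _, hpsi u⟩
  have hcm : 0 ≤ cm ∧ cm ≤ 6 * Real.exp u := by
    rw [← hm (u - h) ⟨le_rfl, by linarith⟩]
    refine ⟨Chebyshev.psi_nonneg _, (hpsi _).trans ?_⟩
    have : Real.exp (u - h) ≤ Real.exp u := Real.exp_le_exp.2 (by linarith)
    linarith
  have hi : IntegrableOn eP (Ioi (u - h)) := eP_int.mono_set (Ioi_subset_Ioi (by linarith))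
  have hk := kern_step (φ := eP) (h := h) (u := u) (cp := cp) (cm := cm) (β := 1)
    (M := 2 * Real.exp (u / 2) * M1) h0 h1 hi
    (fun v hv => by unfold eP; rw [hp v hv]) (fun v hv => by unfold eP; rw [hm v hv]) (by
      rw [← kz_eq]
      unfold kz
      rw [norm_mul, Complex.norm_real, Complex.norm_real, Real.norm_eq_abs, Real.norm_eq_abs,
        abs_of_pos (Real.exp_pos _)]
      have h2 : Real.exp ((u + h) / 2) ≤ 2 * Real.exp (u / 2) := by
        rw [add_div, Real.exp_add, mul_comm]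
        exact mul_le_mul_of_nonneg_right (exp_half_le h1) (Real.exp_pos _).le
      have h3 := Kf_le (u := u + h) (by linarith)
      rw [← hM1] at h3
      exact mul_le_mul h2 h3 (abs_nonneg _) (by positivity))
  have hkz : dd (gg fun v => (eP v : ℂ)) h u = dd kz h u := by
    unfold dd
    rw [← kz_eq, ← kz_eq, ← kz_eq]
  rw [hkz, abs_of_nonneg hcp.1, abs_of_nonneg hcm.1, abs_one] at hk
  have hee : Real.exp (-u) * (cp + cm) ≤ 12 := by
    have h2 : Real.exp (-u) * Real.exp u = 1 := by rw [← Real.exp_add]; simp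
    have h3 : Real.exp (-u) * (cp + cm) ≤ Real.exp (-u) * (12 * Real.exp u) :=
      mul_le_mul_of_nonneg_left (by linarith [hcp.2, hcm.2]) (Real.exp_pos _).le
    nlinarith
  have hk2 : ‖dd kz h u - ((h * Real.exp (-(u / 2)) * (cp - cm) : ℝ) : ℂ)‖ ≤
      (2 * M1 + 26) * h ^ 2 * Real.exp (u / 2) := by
    refine hk.trans ?_
    have h4 : 0 ≤ h ^ 2 * Real.exp (u / 2) := by positivity
    have := mul_le_mul_of_nonneg_left hee h4
    nlinarith
  have e5 : dd fz h u + ((h * Real.exp (-(u / 2)) * (cp - cm) : ℝ) : ℂ) =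
      (A * dd (ce (1 / 2)) h u + B * dd (ce (-(1 / 2))) h u - c * dd (ce (-(5 / 2))) h u +
      1 / 2 * dd Sg h u) - (dd kz h u - ((h * Real.exp (-(u / 2)) * (cp - cm) : ℝ) : ℂ)) := by
    rw [e1]; ring
  rw [e5]
  have n1 := norm_sub_le (A * dd (ce (1 / 2)) h u + B * dd (ce (-(1 / 2))) h u - c * dd (ce (-(5 / 2))) h u +
      1 / 2 * dd Sg h u) (dd kz h u - ((h * Real.exp (-(u / 2)) * (cp - cm) : ℝ) : ℂ))
  have n2 := norm_add_le (A * dd (ce (1 / 2)) h u + B * dd (ce (-(1 / 2))) h u - c * dd (ce (-(5 / 2))) h u)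
      (1 / 2 * dd Sg h u)
  have n3 := norm_sub_le (A * dd (ce (1 / 2)) h u + B * dd (ce (-(1 / 2))) h u) (c * dd (ce (-(5 / 2))) h u)
  have n4 := norm_add_le (A * dd (ce (1 / 2)) h u) (B * dd (ce (-(1 / 2))) h u)
  have m1 : ‖A * dd (ce (1 / 2)) h u‖ ≤ 2 * ‖A‖ * (h ^ 2 * Real.exp (u / 2)) := by
    rw [norm_mul]
    have := mul_le_mul_of_nonneg_left a1 (norm_nonneg A)
    linarith
  have m2 : ‖B * dd (ce (-(1 / 2))) h u‖ ≤ 2 * ‖B‖ * (h ^ 2 * Real.exp (u / 2)) := by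
    rw [norm_mul]
    have := mul_le_mul_of_nonneg_left a2 (norm_nonneg B)
    linarith
  have m3 : ‖c * dd (ce (-(5 / 2))) h u‖ ≤ 20 * ‖c‖ * (h ^ 2 * Real.exp (u / 2)) := by
    rw [norm_mul]
    have := mul_le_mul_of_nonneg_left a3 (norm_nonneg c)
    linarith
  have m4 : ‖1 / 2 * dd Sg h u‖ ≤ 2 * (h ^ 2 * (1 / u)) := by
    rw [norm_mul]
    have e6 : ‖(1 / 2 : ℂ)‖ = 1 / 2 := by norm_num
    have e7 : 3 * h ^ 2 / u = 3 * (h ^ 2 * (1 / u)) := by ring
    rw [e6]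
    rw [e7] at a4
    have : 0 ≤ h ^ 2 * (1 / u) := by positivity
    linarith
  have p1 : 0 ≤ h ^ 2 * Real.exp (u / 2) := by positivity
  have p2 : 0 ≤ h ^ 2 * (1 / u) := by positivity
  have p3 := mul_nonneg (norm_nonneg A) p2
  have p4 := mul_nonneg (norm_nonneg B) p2
  have p5 := mul_nonneg (norm_nonneg c) p2
  have p6 := mul_nonneg hM1' p2
  nlinarith

lemma tele (N0 : ℕ) (K : ℕ) : ∑ n ∈ Finset.range K, ga (n + N0) ≤ 1 / (N0 + 1 : ℝ) - 1 / (N0 + K + 1) := by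
  induction K with
  | zero => simp
  | succ K ih =>
    rw [Finset.sum_range_succ]
    have h1 : ga (K + N0) ≤ 1 / (N0 + K + 1 : ℝ) - 1 / (N0 + (K + 1 : ℕ) + 1) := by
      have hn : (0 : ℝ) ≤ N0 := Nat.cast_nonneg _
      have hk : (0 : ℝ) ≤ K := Nat.cast_nonneg _
      unfold ga
      push_cast
      rw [div_sub_div _ _ (by positivity) (by positivity), div_le_div_iff₀ (by positivity) (by positivity)]
      nlinarith [mul_nonneg hn hk]
    linarith

lemma harm (N : ℕ) : ∑ n ∈ Finset.range N, 1 / ((n : ℝ) + 1) ≤ 1 + Real.log N := by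
  have h := harmonic_le_one_add_log N
  unfold harmonic at h
  push_cast at h
  refine le_trans (le_of_eq ?_) h
  refine Finset.sum_congr rfl fun n _ => ?_
  rw [one_div]

theorem Sg_diff {h : ℝ} (h0 : 0 < h) (h1 : h ≤ 1 / 2) : ‖Sg 0 - Sg h‖ ≤ h * Real.log (1 / h) + 4 * h := by
  have s1 := Sg_summable (u := 0) le_rfl
  have s2 := Sg_summable h0.le
  obtain ⟨N, hN⟩ : ∃ N : ℕ, N = ⌈1 / h⌉₊ := ⟨_, rfl⟩
  have hN1 : 1 / h ≤ N := by rw [hN]; exact Nat.le_ceil _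
  have hN2 : (N : ℝ) < 1 / h + 1 := by rw [hN]; exact Nat.ceil_lt_add_one (by positivity)
  have h1h : 2 ≤ 1 / h := by rw [le_div_iff₀ h0]; linarith
  have hterm : ∀ n : ℕ, ‖(ga n : ℂ) * ce (-kn n) 0 - (ga n : ℂ) * ce (-kn n) h‖ ≤
      min (ga n) (ga n * kn n * h) := by
    intro n
    rw [← mul_sub, norm_mul, Complex.norm_real, Real.norm_of_nonneg (ga_nonneg n)]
    have e1 : ce (-kn n) 0 - ce (-kn n) h = ((1 - Real.exp (-(kn n * h)) : ℝ) : ℂ) := by
      unfold ce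
      push_cast
      simp
    have h2 : 0 ≤ kn n * h := mul_nonneg (kn_pos n).le h0.le
    have h3 : Real.exp (-(kn n * h)) ≤ 1 := Real.exp_le_one_iff.2 (by linarith)
    rw [e1, Complex.norm_real, Real.norm_eq_abs, abs_of_nonneg (by linarith)]
    have h4 := Real.add_one_le_exp (-(kn n * h))
    have h5 := Real.exp_pos (-(kn n * h))
    have h6 := ga_nonneg n
    refine le_min ?_ ?_
    · exact mul_le_of_le_one_right h6 (by linarith)
    · rw [mul_assoc]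
      exact mul_le_mul_of_nonneg_left (by linarith) h6
  have hsm : Summable fun n : ℕ => min (ga n) (ga n * kn n * h) :=
    Summable.of_nonneg_of_le (fun n => le_min (ga_nonneg n)
      (mul_nonneg (mul_nonneg (ga_nonneg n) (kn_pos n).le) h0.le)) (fun n => min_le_left _ _) ga_sum
  have e0 : Sg 0 - Sg h = ∑' n : ℕ, ((ga n : ℂ) * ce (-kn n) 0 - (ga n : ℂ) * ce (-kn n) h) := by
    unfold Sg
    rw [s1.tsum_sub s2]
  rw [e0]
  refine (tsum_of_norm_bounded hsm.hasSum hterm).trans ?_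
  rw [← hsm.sum_add_tsum_nat_add N]
  have b1 : ∑ n ∈ Finset.range N, min (ga n) (ga n * kn n * h) ≤ h * (1 + Real.log N) := by
    calc ∑ n ∈ Finset.range N, min (ga n) (ga n * kn n * h) ≤ ∑ n ∈ Finset.range N, h * (1 / ((n : ℝ) + 1)) := by
          refine Finset.sum_le_sum fun n _ => (min_le_right _ _).trans ?_
          have := mul_le_mul_of_nonneg_right (ga_kn n) h0.le
          linarith
      _ = h * ∑ n ∈ Finset.range N, 1 / ((n : ℝ) + 1) := by rw [Finset.mul_sum]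
      _ ≤ _ := mul_le_mul_of_nonneg_left (harm N) h0.le
  have b2 : ∑' n : ℕ, min (ga (n + N)) (ga (n + N) * kn (n + N) * h) ≤ h := by
    have h5 : 1 / (N + 1 : ℝ) ≤ h := by
      rw [div_le_iff₀ (by positivity)]
      rw [div_le_iff₀ h0] at hN1
      nlinarith
    refine Real.tsum_le_of_sum_range_le (fun n => le_min (ga_nonneg _)
      (mul_nonneg (mul_nonneg (ga_nonneg _) (kn_pos _).le) h0.le)) fun K => ?_
    refine (Finset.sum_le_sum fun n _ => min_le_left _ _).trans ((tele N K).trans ?_)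
    have : 0 ≤ 1 / (N + K + 1 : ℝ) := by positivity
    linarith
  have b3 : Real.log N ≤ Real.log (1 / h) + 1 := by
    have hNpos : (0 : ℝ) < N := lt_of_lt_of_le (by positivity) hN1
    have h6 : (N : ℝ) ≤ 2 * (1 / h) := by linarith
    have h7 := Real.log_le_log hNpos h6
    rw [Real.log_mul (by norm_num) (by positivity)] at h7
    have := Real.log_two_lt_d9
    linarith
  nlinarith

theorem P_diag : ∃ C : ℝ, 0 < C ∧ ∀ h : ℝ, 0 < h → h ≤ 1 / 2 →
    ‖2 * (fz 0 - fz h)‖ ≤ h * Real.log (1 / h) + C * h := by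
  obtain ⟨A, B, c, hf⟩ := fz_form
  obtain ⟨M1, hM1⟩ : ∃ M1 : ℝ, M1 = ∫ v in Ioi (0 : ℝ), |eP v| := ⟨_, rfl⟩
  have hM1' : 0 ≤ M1 := by rw [hM1]; exact integral_nonneg fun v => abs_nonneg _
  refine ⟨2 * ‖A‖ + 2 * ‖B‖ + 10 * ‖c‖ + 4 + 16 + 2 * M1, by positivity, ?_⟩
  intro h h0 h1
  have hce : ∀ κ : ℝ, ce κ 0 = 1 := by intro κ; unfold ce; simp
  have hd : ∀ κ : ℝ, |κ * h| ≤ 2 → ‖ce κ 0 - ce κ h‖ ≤ 2 * (|κ| * h) ∨ True := fun _ _ => Or.inr trivial
  have hdn : ∀ κ : ℝ, 0 ≤ κ → ‖ce (-κ) 0 - ce (-κ) h‖ ≤ κ * h := by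
    intro κ hκ
    have e1 : ce (-κ) 0 - ce (-κ) h = ((1 - Real.exp (-(κ * h)) : ℝ) : ℂ) := by
      rw [hce]; unfold ce; push_cast; simp
    have h2 : 0 ≤ κ * h := mul_nonneg hκ h0.le
    have h3 : Real.exp (-(κ * h)) ≤ 1 := Real.exp_le_one_iff.2 (by linarith)
    rw [e1, Complex.norm_real, Real.norm_eq_abs, abs_of_nonneg (by linarith)]
    have h4 := Real.add_one_le_exp (-(κ * h))
    linarith
  have hdp : ‖ce (1 / 2) 0 - ce (1 / 2) h‖ ≤ h := by
    have e1 : ce (1 / 2) 0 - ce (1 / 2) h = -((Real.exp (h / 2) - 1 : ℝ) : ℂ) := by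
      rw [hce]; unfold ce
      rw [show (1 / 2 * h : ℝ) = h / 2 by ring]
      push_cast; ring
    have h3 : 1 ≤ Real.exp (h / 2) := Real.one_le_exp (by linarith)
    rw [e1, norm_neg, Complex.norm_real, Real.norm_eq_abs, abs_of_nonneg (by linarith)]
    have h4 := exp_sub_one_le (x := h / 2)
    have h5 := exp_half_le (x := h) (by linarith)
    nlinarith
  have a2 := hdn (1 / 2) (by norm_num)
  have a3 := hdn (5 / 2) (by norm_num)
  have a4 := Sg_diff h0 h1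
  have a5 : ‖kz 0 - kz h‖ ≤ 8 * h + M1 * h := by
    have e1 : kz 0 - kz h = ((∫ v in (0:ℝ)..h, eP v : ℝ) : ℂ) - (((Real.exp (h / 2) - 1) * Kf h : ℝ) : ℂ) := by
      unfold kz
      rw [Kf_eq h0.le]
      push_cast
      simp
      ring
    rw [e1]
    refine (norm_sub_le _ _).trans (add_le_add ?_ ?_)
    · rw [Complex.norm_real]
      have h3 : Real.log 4 < 2 := by
        rw [show (4:ℝ) = 2 ^ 2 by norm_num, Real.log_pow]
        have := Real.log_two_lt_d9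
        push_cast
        linarith
      have h4 := intervalIntegral.norm_integral_le_of_norm_le_const (a := (0:ℝ)) (b := h) (f := eP)
        (C := 8) (fun v _ => by rw [Real.norm_eq_abs]; linarith [eP_le v])
      rwa [sub_zero, abs_of_pos h0] at h4
    · rw [Complex.norm_real, Real.norm_eq_abs, abs_mul]
      have h3 : 1 ≤ Real.exp (h / 2) := Real.one_le_exp (by linarith)
      have h4 := exp_sub_one_le (x := h / 2)
      have h5 := exp_half_le (x := h) (by linarith)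
      have h6 : |Real.exp (h / 2) - 1| ≤ h := by
        rw [abs_of_nonneg (by linarith)]
        nlinarith
      have h7 := Kf_le h0.le
      rw [← hM1] at h7
      rw [mul_comm M1]
      exact mul_le_mul h6 h7 (abs_nonneg _) h0.le
  have e1 : 2 * (fz 0 - fz h) = 2 * A * (ce (1 / 2) 0 - ce (1 / 2) h) + 2 * B * (ce (-(1 / 2)) 0 - ce (-(1 / 2)) h)
      - 2 * c * (ce (-(5 / 2)) 0 - ce (-(5 / 2)) h) + (Sg 0 - Sg h) - 2 * (kz 0 - kz h) := by
    rw [hf 0 le_rfl, hf h h0.le]; ring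
  rw [e1]
  have n1 := norm_sub_le (2 * A * (ce (1 / 2) 0 - ce (1 / 2) h) + 2 * B * (ce (-(1 / 2)) 0 - ce (-(1 / 2)) h)
      - 2 * c * (ce (-(5 / 2)) 0 - ce (-(5 / 2)) h) + (Sg 0 - Sg h)) (2 * (kz 0 - kz h))
  have n2 := norm_add_le (2 * A * (ce (1 / 2) 0 - ce (1 / 2) h) + 2 * B * (ce (-(1 / 2)) 0 - ce (-(1 / 2)) h)
      - 2 * c * (ce (-(5 / 2)) 0 - ce (-(5 / 2)) h)) (Sg 0 - Sg h)
  have n3 := norm_sub_le (2 * A * (ce (1 / 2) 0 - ce (1 / 2) h) + 2 * B * (ce (-(1 / 2)) 0 - ce (-(1 / 2)) h))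
      (2 * c * (ce (-(5 / 2)) 0 - ce (-(5 / 2)) h))
  have n4 := norm_add_le (2 * A * (ce (1 / 2) 0 - ce (1 / 2) h)) (2 * B * (ce (-(1 / 2)) 0 - ce (-(1 / 2)) h))
  have m1 : ‖2 * A * (ce (1 / 2) 0 - ce (1 / 2) h)‖ ≤ 2 * ‖A‖ * h := by
    rw [norm_mul, norm_mul]
    have e : ‖(2:ℂ)‖ = 2 := by norm_num
    rw [e]
    exact mul_le_mul_of_nonneg_left hdp (by positivity)
  have m2 : ‖2 * B * (ce (-(1 / 2)) 0 - ce (-(1 / 2)) h)‖ ≤ 2 * ‖B‖ * h := by
    rw [norm_mul, norm_mul]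
    have e : ‖(2:ℂ)‖ = 2 := by norm_num
    rw [e]
    exact mul_le_mul_of_nonneg_left (a2.trans (by linarith)) (by positivity)
  have m3 : ‖2 * c * (ce (-(5 / 2)) 0 - ce (-(5 / 2)) h)‖ ≤ 10 * ‖c‖ * h := by
    rw [norm_mul, norm_mul]
    have e : ‖(2:ℂ)‖ = 2 := by norm_num
    rw [e]
    have h2 := mul_le_mul_of_nonneg_left a3 (by positivity : 0 ≤ 2 * ‖c‖)
    nlinarith [mul_nonneg (norm_nonneg c) h0.le]
  have m5 : ‖2 * (kz 0 - kz h)‖ ≤ 2 * (8 * h + M1 * h) := by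
    rw [norm_mul]
    have e : ‖(2:ℂ)‖ = 2 := by norm_num
    rw [e]
    linarith
  linarith

end Q260.GC
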