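import Pool.Agent.Q260.GC.A3
import Pool.Agent.Q276.MW.C2

/-! The explicit formula for the smoothed Mertens function as a sum over all zeros. -/

set_option autoImplicit false

open MeasureTheory Filter Topology Set Complex

namespace Q260.GC

open Pool.Agent.W120.WM Pool.Agent.W280.WM

/-- the explicit formula, with partial sums over all zeros up to a height -/
theorem ef2 (hINV : T_INV) (hRES : T_RES) (hHOR : T_HOR) (hLB : T_LB)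
    (hsimple : ∀ ρ ∈ NT, deriv riemannZeta ρ ≠ 0) : ∃ U : ℕ → ℝ, (∀ k : ℕ, (k : ℝ) ≤ U k) ∧
    ∀ h v : ℝ, 0 < h → h ≤ 1 →
    Tendsto (fun k => ∑ ρ ∈ (fin_NT (U k)).toFinset, EE h v ρ / (ρ * deriv riemannZeta ρ)) atTop
      (𝓝 (((Sm h v : ℝ) : ℂ) + 2 -
        ((2 * Real.pi : ℝ) : ℂ)⁻¹ * ∫ t : ℝ, GG h v (⟨-1 / 2, t⟩ : ℂ))) := by
  obtain ⟨C, hC, hgood⟩ := hHOR
  have hk : ∀ k : ℕ, ∃ U ∈ Icc ((k : ℝ) + 3) ((k : ℝ) + 3 + 1),
      ∀ σ ∈ Icc (-1 / 2 : ℝ) (3 / 2), ∀ t : ℝ, |t| = U →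
        riemannZeta (⟨σ, t⟩ : ℂ) ≠ 0 ∧
          ‖(riemannZeta (⟨σ, t⟩ : ℂ))⁻¹‖ ≤ Real.exp (C * Real.log ((k : ℝ) + 3) ^ 2) := by
    intro k
    apply hgood
    have : (0 : ℝ) ≤ k := Nat.cast_nonneg k
    linarith
  choose U hUI hUz using hk
  have hU1 : ∀ k, 1 ≤ U k := by
    intro k
    have h1 : (0 : ℝ) ≤ k := Nat.cast_nonneg k
    have h2 := (hUI k).1
    linarith
  have hU0 : ∀ k, 0 ≤ U k := fun k => le_trans zero_le_one (hU1 k)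
  have hZmem : ∀ k ρ, ρ ∈ (fin_NT (U k)).toFinset ↔ ρ ∈ NT ∧ |ρ.im| ≤ U k := by
    intro k ρ
    rw [Set.Finite.mem_toFinset]
    exact Iff.rfl
  refine ⟨U, fun k => by linarith [(hUI k).1], ?_⟩
  intro h v hh hh1
  have hrect := fun k => rect hRES hsimple (U k) (hU1 k) (fun σ hσ t ht => (hUz k σ hσ t ht).1)
    (fin_NT (U k)).toFinset (hZmem k) h v
  have hUtop : Tendsto U atTop atTop := by
    apply tendsto_atTop_mono (fun k => (hUI k).1)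
    exact tendsto_atTop_add_const_right atTop 3 tendsto_natCast_atTop_atTop
  have hUbot : Tendsto (fun k => -U k) atTop atBot := tendsto_neg_atTop_atBot.comp hUtop
  -- horizontal integrals
  have hexp : Tendsto (fun k : ℕ => Real.exp (h ^ 2 / 2 * (9 / 4 - U k ^ 2) + 3 / 2 * |v| +
      C * Real.log ((k : ℝ) + 3) ^ 2) * 2) atTop (𝓝 0) := by
    have h1 : Tendsto (fun k : ℕ => h ^ 2 / 2 * (9 / 4 - U k ^ 2) + 3 / 2 * |v| +
      C * Real.log ((k : ℝ) + 3) ^ 2) atTop atBot := by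
      have h2 := (lim_bot (h ^ 2 / 2 * (9 / 4) + 3 / 2 * |v|) C (h ^ 2 / 2) hC (by positivity)).comp
        (tendsto_atTop_add_const_right atTop (3 : ℝ) tendsto_natCast_atTop_atTop)
      refine tendsto_atBot_mono (fun k => ?_) h2
      have h3 : (0 : ℝ) ≤ k := Nat.cast_nonneg k
      have h4 : ((k : ℝ) + 3) ^ 2 ≤ U k ^ 2 := by
        have := (hUI k).1
        exact pow_le_pow_left₀ (by linarith) this 2
      have h5 := mul_le_mul_of_nonneg_left h4 (by positivity : (0 : ℝ) ≤ h ^ 2 / 2)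
      show h ^ 2 / 2 * (9 / 4 - U k ^ 2) + 3 / 2 * |v| + C * Real.log ((k : ℝ) + 3) ^ 2 ≤
        h ^ 2 / 2 * (9 / 4) + 3 / 2 * |v| + C * Real.log ((k : ℝ) + 3) ^ 2 - h ^ 2 / 2 * ((k : ℝ) + 3) ^ 2
      linarith
    have h2 := (Real.tendsto_exp_atBot.comp h1).mul_const 2
    rw [zero_mul] at h2
    exact h2
  have hB1 : Tendsto (fun k => ∫ x in (-1 / 2 : ℝ)..(3 / 2), GG h v (⟨x, -U k⟩ : ℂ)) atTop (𝓝 0) := by
    apply squeeze_zero_norm _ hexp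
    intro k
    have ht : |-U k| = U k := by rw [abs_neg, abs_of_nonneg (hU0 k)]
    exact hor_bound h v (U k) _ (-U k) ht (hU1 k) (fun σ hσ => (hUz k σ hσ _ ht).2)
  have hB2 : Tendsto (fun k => ∫ x in (-1 / 2 : ℝ)..(3 / 2), GG h v (⟨x, U k⟩ : ℂ)) atTop (𝓝 0) := by
    apply squeeze_zero_norm _ hexp
    intro k
    have ht : |U k| = U k := abs_of_nonneg (hU0 k)
    exact hor_bound h v (U k) _ (U k) ht (hU1 k) (fun σ hσ => (hUz k σ hσ _ ht).2)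
  have hR : Tendsto (fun k => ∫ y in (-U k)..(U k), GG h v (⟨3 / 2, y⟩ : ℂ)) atTop
      (𝓝 (∫ t : ℝ, GG h v (⟨3 / 2, t⟩ : ℂ))) :=
    intervalIntegral_tendsto_integral (hINV h v hh).1 hUbot hUtop
  obtain ⟨B, _, hLB⟩ := hLB
  have hL : Tendsto (fun k => ∫ y in (-U k)..(U k), GG h v (⟨-1 / 2, y⟩ : ℂ)) atTop
      (𝓝 (∫ t : ℝ, GG h v (⟨-1 / 2, t⟩ : ℂ))) :=
    intervalIntegral_tendsto_integral (hLB h v hh hh1).1 hUbot hUtop
  have hlim := ((hB1.sub hB2).const_mul ((2 * Real.pi * Complex.I)⁻¹)).const_add 2 |>.add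
    ((hR.sub hL).const_mul (((2 * Real.pi : ℝ) : ℂ)⁻¹))
  have hfin : (2 : ℂ) + (2 * Real.pi * Complex.I)⁻¹ * (0 - 0) + ((2 * Real.pi : ℝ) : ℂ)⁻¹ *
      ((∫ t : ℝ, GG h v (⟨3 / 2, t⟩ : ℂ)) - ∫ t : ℝ, GG h v (⟨-1 / 2, t⟩ : ℂ)) =
      ((Sm h v : ℝ) : ℂ) + 2 -
        ((2 * Real.pi : ℝ) : ℂ)⁻¹ * ∫ t : ℝ, GG h v (⟨-1 / 2, t⟩ : ℂ) := by
    rw [(hINV h v hh).2]
    ring
  rw [hfin] at hlim
  refine hlim.congr (fun k => ?_)
  exact (hrect k).symm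


end Q260.GC
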