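import Pool.Agent.Q260.GC.A4

/-! Sums over the zeros and integrals. -/

set_option autoImplicit false

open MeasureTheory Filter Topology Set Complex

namespace Q260.GC

open Pool.Agent.W120.WM Pool.Agent.W280.WM
open Pool.Agent.Y23 (Zt mu)

/-- `1 / |ρ ζ'(ρ)|` -/
noncomputable def wr (ρ : NT) : ℝ := 1 / ‖(ρ : ℂ) * deriv riemannZeta ρ‖

lemma wr_nonneg (ρ : NT) : 0 ≤ wr ρ := by unfold wr; positivity

lemma wr_sq (hZ : ZC) : Summable fun ρ : NT => wr ρ ^ 2 :=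
  hZ.2.congr fun ρ => by unfold wr; rw [div_pow, one_pow]

lemma inv_sq : Summable fun ρ : NT => 1 / (1 + (ρ : ℂ).im ^ 2) := by
  have h := Pool.Agent.Y23.zsummable 0
  refine Summable.of_nonneg_of_le (fun ρ => by positivity) (fun ρ => ?_) h
  have h1 : (1 : ℝ) ≤ mu (ρ : ℂ) := by exact_mod_cast Pool.Agent.Y23.mu_pos (s := (ρ : ℂ)) ρ.2
  rw [sub_zero]
  exact le_mul_of_one_le_left (by positivity) h1

/-- `exp ((ρ - 1/2) u)` -/
noncomputable def ez (ρ : ℂ) (u : ℝ) : ℂ := cexp ((ρ - 1 / 2) * u)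

lemma ez_norm {ρ : ℂ} (h : ρ.re = 1 / 2) (u : ℝ) : ‖ez ρ u‖ = 1 := by
  unfold ez
  rw [norm_exp]
  have : ((ρ - 1 / 2) * (u : ℂ)).re = 0 := by
    simp [h]
  rw [this, Real.exp_zero]

lemma ez_cont (ρ : ℂ) : Continuous (ez ρ) := by unfold ez; fun_prop

lemma ez_add (ρ : ℂ) (u v : ℝ) : ez ρ (u + v) = ez ρ u * ez ρ v := by
  unfold ez; rw [← Complex.exp_add]; congr 1; push_cast; ring

/-- the sum -/
noncomputable def sz (c : NT → ℂ) (u : ℝ) : ℂ := ∑' ρ : NT, c ρ * ez ρ u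

variable (hR : ∀ ρ ∈ NT, ρ.re = 1 / 2)

include hR in
lemma sz_term (c : NT → ℂ) (u : ℝ) (ρ : NT) : ‖c ρ * ez ρ u‖ = ‖c ρ‖ := by
  rw [norm_mul, ez_norm (hR ρ ρ.2), mul_one]

include hR in
lemma sz_sm {c : NT → ℂ} (hc : Summable fun ρ => ‖c ρ‖) (u : ℝ) : Summable fun ρ : NT => c ρ * ez ρ u :=
  Summable.of_norm_bounded hc fun ρ => (sz_term hR c u ρ).le

include hR in
lemma sz_le {c : NT → ℂ} (hc : Summable fun ρ => ‖c ρ‖) (u : ℝ) : ‖sz c u‖ ≤ ∑' ρ, ‖c ρ‖ :=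
  tsum_of_norm_bounded hc.hasSum fun ρ => (sz_term hR c u ρ).le

include hR in
lemma sz_cont {c : NT → ℂ} (hc : Summable fun ρ => ‖c ρ‖) : Continuous (sz c) :=
  continuous_tsum (fun ρ => (ez_cont (ρ : ℂ)).const_mul (c ρ)) hc fun ρ u => (sz_term hR c u ρ).le

/-- `exp (-v/2) * sum` -/
noncomputable def ph (c : NT → ℂ) (v : ℝ) : ℂ := cexp ((-(v / 2) : ℝ)) * sz c v

include hR in
lemma ph_int {c : NT → ℂ} (hc : Summable fun ρ => ‖c ρ‖) (a : ℝ) : IntegrableOn (ph c) (Ioi a) := by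
  have h1 : IntegrableOn (fun v : ℝ => (∑' ρ, ‖c ρ‖) * Real.exp (-(1 / 2) * v)) (Ioi a) :=
    (exp_neg_integrableOn_Ioi a (by norm_num : (0:ℝ) < 1 / 2)).const_mul _
  have h2 : Continuous (ph c) := by
    unfold ph
    exact Continuous.mul (by fun_prop) (sz_cont hR hc)
  refine Integrable.mono' h1 h2.aestronglyMeasurable (Eventually.of_forall fun v => ?_)
  unfold ph
  rw [norm_mul, norm_exp, Complex.ofReal_re, mul_comm]
  have h3 : Real.exp (-(v / 2)) = Real.exp (-(1 / 2) * v) := by congr 1; ring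
  rw [h3]
  exact mul_le_mul_of_nonneg_right (sz_le hR hc v) (Real.exp_pos _).le

include hR in
lemma ph_gg {c : NT → ℂ} (hc : Summable fun ρ => ‖c ρ‖) (u : ℝ) :
    gg (ph c) u = sz (fun ρ => c ρ / (1 - (ρ : ℂ))) u := by
  have hne : ∀ ρ : NT, (1 - (ρ : ℂ)) ≠ 0 := by
    intro ρ h0
    have := congrArg Complex.re h0
    rw [Complex.sub_re, hR ρ ρ.2, Complex.one_re, Complex.zero_re] at this
    norm_num at this
  have e1 : ∀ v : ℝ, ph c v = ∑' ρ : NT, c ρ * cexp (((ρ : ℂ) - 1) * v) := by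
    intro v
    unfold ph sz
    rw [← tsum_mul_left]
    refine tsum_congr fun ρ => ?_
    unfold ez
    rw [mul_left_comm, ← Complex.exp_add]
    congr 2
    push_cast; ring
  have hre : ∀ ρ : NT, ((ρ : ℂ) - 1).re = -(1 / 2) := by
    intro ρ
    rw [Complex.sub_re, hR ρ ρ.2, Complex.one_re]; norm_num
  have hI : ∀ ρ : NT, Integrable (fun v : ℝ => c ρ * cexp (((ρ : ℂ) - 1) * v)) (volume.restrict (Ioi u)) :=
    fun ρ => (integrableOn_exp_mul_complex_Ioi (by rw [hre]; norm_num) u).const_mul _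
  have hN : ∀ ρ : NT, ∫ v in Ioi u, ‖c ρ * cexp (((ρ : ℂ) - 1) * v)‖ = ‖c ρ‖ * (2 * Real.exp (-(u / 2))) := by
    intro ρ
    have h1 : ∀ v : ℝ, ‖c ρ * cexp (((ρ : ℂ) - 1) * v)‖ = ‖c ρ‖ * Real.exp (-(1 / 2) * v) := by
      intro v
      rw [norm_mul, norm_exp, Complex.re_mul_ofReal, hre]
    simp_rw [h1]
    rw [integral_const_mul, integral_exp_mul_Ioi (by norm_num)]
    have h2 : Real.exp (-(1 / 2) * u) = Real.exp (-(u / 2)) := by congr 1; ring
    rw [h2]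
    ring
  have hS : Summable fun ρ : NT => ∫ v in Ioi u, ‖c ρ * cexp (((ρ : ℂ) - 1) * v)‖ := by
    simp_rw [hN]
    exact hc.mul_right _
  have key := hasSum_integral_of_summable_integral_norm hI hS
  unfold gg
  have e2 : (∫ v in Ioi u, ph c v) = ∑' ρ : NT, ∫ v in Ioi u, c ρ * cexp (((ρ : ℂ) - 1) * v) := by
    simp_rw [e1]
    exact key.tsum_eq.symm
  rw [e2, ← tsum_mul_left]
  unfold sz
  refine tsum_congr fun ρ => ?_
  rw [integral_const_mul, integral_exp_mul_complex_Ioi (by rw [hre]; norm_num)]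
  have h3 : (ρ : ℂ) - 1 ≠ 0 := by
    intro h0; exact hne ρ (by linear_combination -h0)
  have h4 : cexp ((u / 2 : ℝ)) * cexp (((ρ : ℂ) - 1) * u) = ez ρ u := by
    unfold ez
    rw [← Complex.exp_add]; congr 1; push_cast; ring
  rw [← h4]
  have h5 := hne ρ
  field_simp
  ring

include hR in
/-- the second difference of a sum over the zeros -/
lemma dd_sz {c : NT → ℂ} (hc : Summable fun ρ => ‖c ρ‖) (h u : ℝ) :
    dd (sz c) h u = sz (fun ρ => c ρ * ((2 - 2 * Real.cos ((ρ : ℂ).im * h) : ℝ) : ℂ)) u := by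
  have s1 := sz_sm hR hc u
  have s2 := sz_sm hR hc (u + h)
  have s3 := sz_sm hR hc (u - h)
  unfold dd sz
  rw [← tsum_mul_left, ← (s1.mul_left 2).tsum_sub s2, ← ((s1.mul_left 2).sub s2).tsum_sub s3]
  refine tsum_congr fun ρ => ?_
  have e1 : ez ρ (u + h) = ez ρ u * ez ρ h := ez_add _ _ _
  have e2 : ez ρ (u - h) = ez ρ u * ez ρ (-h) := by rw [sub_eq_add_neg, ez_add]
  have e3 : ez ρ h + ez ρ (-h) = ((2 * Real.cos ((ρ : ℂ).im * h) : ℝ) : ℂ) := by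
    have h1 : (ρ : ℂ) - 1 / 2 = ((ρ : ℂ).im : ℂ) * I := by
      apply Complex.ext
      · simp [hR ρ ρ.2]
      · simp
    unfold ez
    rw [h1]
    push_cast
    rw [Complex.two_cos]
    congr 2 <;> ring
  rw [e1, e2]
  push_cast at e3 ⊢
  linear_combination (-(c ρ * ez ρ u)) * e3

end Q260.GC
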