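import Pool.Agent.Q260.GC.A5
import Pool.Agent.H295R2.WM7

/-! The smoothed Mertens function as the smoothing parameter tends to zero. -/

set_option autoImplicit false

open MeasureTheory Filter Topology Set Complex

namespace Q260.GC

open Pool.Agent.W120.WM Pool.Agent.W280.WM
open Pool.Agent.Y23 (Zt mu)

lemma Mx_same (y : ℝ) : Mx y = Pool.Agent.H295R2.Mx y := rfl

lemma Mx_abs {y : ℝ} (hy : 0 ≤ y) : |Mx y| ≤ y := Pool.Agent.H295R2.abs_Mx_le hy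

lemma Mx_measurable : Measurable Mx := Pool.Agent.H295R2.Mx_meas

/-- rescaled form of the smoothing -/
lemma Sm_eq {h : ℝ} (hh : 0 < h) (v : ℝ) : Sm h v = ∫ z : ℝ, Mx (Real.exp (v - h * z)) * gk 1 z := by
  unfold Sm
  have h1 := Measure.integral_comp_mul_left (fun w : ℝ => Mx (Real.exp (v - w)) * gk h w) h
  rw [abs_of_pos (inv_pos.2 hh), smul_eq_mul] at h1
  have h2 : ∀ z : ℝ, gk h (h * z) = h⁻¹ * gk 1 z := by
    intro z
    unfold gk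
    have e1 : (h * z) ^ 2 / (2 * h ^ 2) = z ^ 2 / (2 * 1 ^ 2) := by field_simp
    rw [e1, mul_inv, one_mul]
    ring
  have h3 : ∫ z : ℝ, Mx (Real.exp (v - h * z)) * gk h (h * z) =
      h⁻¹ * ∫ z : ℝ, Mx (Real.exp (v - h * z)) * gk 1 z := by
    rw [← integral_const_mul]
    refine integral_congr_ae (Eventually.of_forall fun z => ?_)
    simp only
    rw [h2]; ring
  rw [h3] at h1
  have h4 : h⁻¹ ≠ 0 := (inv_pos.2 hh).ne'
  exact (mul_left_cancel₀ h4 h1).symm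

lemma gk_nonneg (z : ℝ) : 0 ≤ gk 1 z := by unfold gk; positivity

lemma gk_meas : Measurable (gk 1) := by unfold gk; fun_prop

lemma G_int : Integrable fun z : ℝ => Real.exp |z| * gk 1 z := by
  have hi := (integrable_exp_neg_mul_sq (show (0:ℝ) < 1 / 4 by norm_num)).const_mul
    (Real.exp 1 * (1 * Real.sqrt (2 * Real.pi))⁻¹)
  refine hi.mono' (by
    have := gk_meas
    exact (Measurable.mul (by fun_prop) gk_meas).aestronglyMeasurable) (Eventually.of_forall fun z => ?_)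
  rw [Real.norm_eq_abs, abs_of_nonneg (mul_nonneg (Real.exp_pos _).le (gk_nonneg z))]
  unfold gk
  have h1 : Real.exp |z| * Real.exp (-(z ^ 2 / (2 * 1 ^ 2))) ≤ Real.exp 1 * Real.exp (-(1 / 4) * z ^ 2) := by
    rw [← Real.exp_add, ← Real.exp_add]
    apply Real.exp_le_exp.2
    have : z ^ 2 = |z| ^ 2 := (sq_abs z).symm
    rw [this]
    nlinarith [sq_nonneg (|z| / 2 - 1)]
  have h2 : 0 ≤ (1 * Real.sqrt (2 * Real.pi))⁻¹ := by positivity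
  have := mul_le_mul_of_nonneg_left h1 h2
  calc _ = (1 * Real.sqrt (2 * Real.pi))⁻¹ * (Real.exp |z| * Real.exp (-(z ^ 2 / (2 * 1 ^ 2)))) := by ring
    _ ≤ _ := this
    _ = _ := by ring

lemma term_bound {h v z : ℝ} (h0 : 0 ≤ h) (h1 : h ≤ 1) :
    ‖Mx (Real.exp (v - h * z)) * gk 1 z‖ ≤ Real.exp v * (Real.exp |z| * gk 1 z) := by
  rw [Real.norm_eq_abs, abs_mul, abs_of_nonneg (gk_nonneg z), ← mul_assoc]
  apply mul_le_mul_of_nonneg_right _ (gk_nonneg z)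
  refine (Mx_abs (Real.exp_pos _).le).trans ?_
  rw [← Real.exp_add]
  apply Real.exp_le_exp.2
  have h2 : -(h * z) ≤ |z| := by
    have h3 : |h * z| ≤ |z| := by
      rw [abs_mul, abs_of_nonneg h0]
      exact mul_le_of_le_one_left (abs_nonneg z) h1
    exact (neg_le_abs _).trans h3
  linarith

lemma Sm_bound {h : ℝ} (hh : 0 < h) (h1 : h ≤ 1) (v : ℝ) :
    |Sm h v| ≤ Real.exp v * ∫ z : ℝ, Real.exp |z| * gk 1 z := by
  rw [Sm_eq hh, ← Real.norm_eq_abs, ← integral_const_mul]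
  exact norm_integral_le_of_norm_le (G_int.const_mul _) (Eventually.of_forall fun z => term_bound hh.le h1)

lemma Sm_meas {h : ℝ} (hh : 0 < h) : Measurable (Sm h) := by
  have e1 : Sm h = fun v => ∫ z : ℝ, Mx (Real.exp (v - h * z)) * gk 1 z := funext fun v => Sm_eq hh v
  rw [e1]
  have h1 : Measurable (Function.uncurry fun v z : ℝ => Mx (Real.exp (v - h * z)) * gk 1 z) :=
    (Mx_measurable.comp (by fun_prop)).mul (gk_meas.comp measurable_snd)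
  exact (h1.stronglyMeasurable.integral_prod_right).measurable

lemma Mx_loc {x : ℝ} (hx : 0 < x) (hne : ∀ n : ℕ, (n : ℝ) ≠ x) : ∀ᶠ y in 𝓝 x, Mx y = Mx x := by
  have h1 : ((⌊x⌋₊ : ℕ) : ℝ) < x := lt_of_le_of_ne (Nat.floor_le hx.le) (hne _)
  have h2 : x < (⌊x⌋₊ : ℕ) + 1 := Nat.lt_floor_add_one x
  filter_upwards [Ioo_mem_nhds h1 h2] with y hy
  have h3 : ⌊y⌋₊ = ⌊x⌋₊ := by
    rw [Nat.floor_eq_iff ((Nat.cast_nonneg _).trans hy.1.le)]
    exact ⟨hy.1.le, hy.2⟩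
  unfold Mx
  rw [h3]

lemma Sm_lim {v : ℝ} (hv : ∀ n : ℕ, (n : ℝ) ≠ Real.exp v) {s : ℕ → ℝ} (hs0 : ∀ k, 0 < s k)
    (hs1 : ∀ k, s k ≤ 1) (hs : Tendsto s atTop (𝓝 0)) :
    Tendsto (fun k => Sm (s k) v) atTop (𝓝 (Mx (Real.exp v))) := by
  have h1 : ∫ z : ℝ, Mx (Real.exp v) * gk 1 z = Mx (Real.exp v) := by
    rw [integral_const_mul, (Pool.Agent.W143.WM.int_gk 1 one_pos).2, mul_one]
  rw [← h1]
  simp_rw [fun k => Sm_eq (hs0 k) v]
  refine tendsto_integral_of_dominated_convergence (fun z => Real.exp v * (Real.exp |z| * gk 1 z))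
    (fun k => ?_) (G_int.const_mul _) (fun k => Eventually.of_forall fun z => term_bound (hs0 k).le (hs1 k)) ?_
  · exact ((Mx_measurable.comp (by fun_prop)).mul gk_meas).aestronglyMeasurable
  · refine Eventually.of_forall fun z => ?_
    refine Tendsto.mul_const _ ?_
    have h2 : Tendsto (fun k => Real.exp (v - s k * z)) atTop (𝓝 (Real.exp v)) := by
      have h3 : Tendsto (fun k => v - s k * z) atTop (𝓝 (v - 0 * z)) :=
        tendsto_const_nhds.sub (hs.mul_const z)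
      rw [zero_mul, sub_zero] at h3
      exact (Real.continuous_exp.tendsto v).comp h3
    have h4 := h2.eventually (Mx_loc (Real.exp_pos v) hv)
    exact tendsto_const_nhds.congr' (h4.mono fun k hk => hk.symm)

/-- the real part of the integrand -/
noncomputable def rr (η v : ℝ) : ℝ := Real.exp (-v) * (Sm η v + 2)

/-- its limit -/
noncomputable def r0 (v : ℝ) : ℝ := Real.exp (-v) * (Mx (Real.exp v) + 2)

lemma rr_bound {η : ℝ} (hη : 0 < η) (h1 : η ≤ 1) {a v : ℝ} (hv : a ≤ v) :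
    ‖rr η v‖ ≤ (∫ z : ℝ, Real.exp |z| * gk 1 z) + 2 * Real.exp (-a) := by
  unfold rr
  rw [Real.norm_eq_abs, abs_mul, abs_of_pos (Real.exp_pos _)]
  have h2 := Sm_bound hη h1 v
  have h3 : |Sm η v + 2| ≤ Real.exp v * (∫ z : ℝ, Real.exp |z| * gk 1 z) + 2 := by
    refine (abs_add_le _ _).trans ?_
    rw [abs_of_pos (by norm_num : (0:ℝ) < 2)]
    linarith
  have h4 : Real.exp (-v) ≤ Real.exp (-a) := Real.exp_le_exp.2 (by linarith)
  have h5 : Real.exp (-v) * Real.exp v = 1 := by rw [← Real.exp_add]; simp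
  calc Real.exp (-v) * |Sm η v + 2|
      ≤ Real.exp (-v) * (Real.exp v * (∫ z : ℝ, Real.exp |z| * gk 1 z) + 2) :=
        mul_le_mul_of_nonneg_left h3 (Real.exp_pos _).le
    _ = (Real.exp (-v) * Real.exp v) * (∫ z : ℝ, Real.exp |z| * gk 1 z) + 2 * Real.exp (-v) := by ring
    _ ≤ _ := by rw [h5, one_mul]; linarith

lemma rr_ii {η : ℝ} (hη : 0 < η) (h1 : η ≤ 1) {a b : ℝ} (hab : a ≤ b) :
    IntervalIntegrable (rr η) volume a b := by
  rw [intervalIntegrable_iff_integrableOn_Ioc_of_le hab]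
  refine Measure.integrableOn_of_bounded (M := (∫ z : ℝ, Real.exp |z| * gk 1 z) + 2 * Real.exp (-a))
    (by simp) ?_ ?_
  · have : Measurable (rr η) := by
      unfold rr
      exact Measurable.mul (by fun_prop) ((Sm_meas hη).add_const 2)
    exact this.aestronglyMeasurable
  · refine (ae_restrict_mem measurableSet_Ioc).mono fun v hv => ?_
    exact rr_bound hη h1 hv.1.le

lemma rr_lim {a b : ℝ} (hab : a ≤ b) {s : ℕ → ℝ} (hs0 : ∀ k, 0 < s k)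
    (hs1 : ∀ k, s k ≤ 1) (hs : Tendsto s atTop (𝓝 0)) :
    Tendsto (fun k => ∫ v in a..b, rr (s k) v) atTop (𝓝 (∫ v in a..b, r0 v)) := by
  refine intervalIntegral.tendsto_integral_filter_of_dominated_convergence
    (fun _ => (∫ z : ℝ, Real.exp |z| * gk 1 z) + 2 * Real.exp (-a)) (Eventually.of_forall fun k => ?_)
    (Eventually.of_forall fun k => ?_) (by simp) ?_
  · have : Measurable (rr (s k)) := by
      unfold rr
      exact Measurable.mul (by fun_prop) ((Sm_meas (hs0 k)).add_const 2)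
    exact this.aestronglyMeasurable
  · refine Eventually.of_forall fun v hv => ?_
    rw [uIoc_of_le hab] at hv
    exact rr_bound (hs0 k) (hs1 k) hv.1.le
  · have hc : (range fun n : ℕ => Real.log n).Countable := countable_range _
    have h2 : ∀ᵐ v : ℝ, v ∉ range fun n : ℕ => Real.log n := by
      rw [ae_iff]
      simp only [not_not]
      exact hc.measure_zero _
    filter_upwards [h2] with v hv _
    unfold rr r0
    refine Tendsto.const_mul _ (Tendsto.add_const 2 (Sm_lim (fun n hn => ?_) hs0 hs1 hs))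
    apply hv
    exact ⟨n, by simp only; rw [hn, Real.log_exp]⟩

/-! ### the coefficients -/

/-- the smoothed coefficients -/
noncomputable def cg (η : ℝ) (ρ : NT) : ℂ :=
  cexp ((η : ℂ) ^ 2 / 2 * (ρ : ℂ) ^ 2) / ((ρ : ℂ) * deriv riemannZeta ρ)

/-- the coefficients `1 / (ρ (1 - ρ) ζ'(ρ))` -/
noncomputable def b0 (ρ : NT) : ℂ := 1 / ((ρ : ℂ) * deriv riemannZeta ρ) / (1 - (ρ : ℂ))

lemma nsq {ρ : ℂ} (h : ρ.re = 1 / 2) : ‖ρ‖ ^ 2 = 1 / 4 + ρ.im ^ 2 := by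
  rw [← Complex.normSq_eq_norm_sq, Complex.normSq_apply, h]; ring

lemma n1sq {ρ : ℂ} (h : ρ.re = 1 / 2) : ‖1 - ρ‖ ^ 2 = 1 / 4 + ρ.im ^ 2 := by
  rw [← Complex.normSq_eq_norm_sq, Complex.normSq_apply, Complex.sub_re, Complex.sub_im, h,
    Complex.one_re, Complex.one_im]
  ring

lemma b0_norm (ρ : NT) : ‖b0 ρ‖ = wr ρ * (1 / ‖1 - (ρ : ℂ)‖) := by
  unfold b0 wr
  rw [norm_div, norm_div, norm_one]
  ring

lemma b0_sm (hZ : ZC) : Summable fun ρ : NT => ‖b0 ρ‖ := by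
  have hR := fun ρ hρ => (hZ.1 ρ hρ).1
  refine Summable.of_nonneg_of_le (fun ρ => norm_nonneg _) (fun ρ => ?_)
    ((wr_sq hZ).add (inv_sq.mul_left 4))
  rw [b0_norm]
  have h1 := n1sq (hR ρ ρ.2)
  have h2 : 0 < ‖1 - (ρ : ℂ)‖ ^ 2 := by rw [h1]; positivity
  have h3 : (1 / ‖1 - (ρ : ℂ)‖) ^ 2 ≤ 4 * (1 / (1 + (ρ : ℂ).im ^ 2)) := by
    rw [div_pow, one_pow, h1, mul_one_div, div_le_div_iff₀ (by positivity) (by positivity)]
    nlinarith [sq_nonneg (ρ : ℂ).im]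
  nlinarith [sq_nonneg (wr ρ - 1 / ‖1 - (ρ : ℂ)‖), wr_nonneg ρ, sq_nonneg (wr ρ),
    sq_nonneg (1 / ‖1 - (ρ : ℂ)‖)]

lemma ge_norm (hR : ∀ ρ ∈ NT, ρ.re = 1 / 2) (η : ℝ) (ρ : NT) :
    ‖cexp ((η : ℂ) ^ 2 / 2 * (ρ : ℂ) ^ 2)‖ = Real.exp (η ^ 2 / 2 * (1 / 4 - (ρ : ℂ).im ^ 2)) := by
  rw [norm_exp]
  congr 1
  have h1 : (ρ : ℂ) = ((1 / 2 : ℝ) : ℂ) + ((ρ : ℂ).im : ℂ) * I := by
    apply Complex.ext
    · simp [hR ρ ρ.2]
    · simp
  have h2 : (η : ℂ) ^ 2 / 2 * (ρ : ℂ) ^ 2 =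
      ((η ^ 2 / 2 * (1 / 4 - (ρ : ℂ).im ^ 2) : ℝ) : ℂ) + ((η ^ 2 / 2 * (ρ : ℂ).im : ℝ) : ℂ) * I := by
    conv_lhs => rw [h1]
    push_cast
    linear_combination ((η : ℂ) ^ 2 / 2 * ((ρ : ℂ).im : ℂ) ^ 2) * Complex.I_sq
  rw [h2, Complex.add_re, Complex.ofReal_re, Complex.re_ofReal_mul, Complex.I_re, mul_zero, add_zero]

lemma ge_le (hR : ∀ ρ ∈ NT, ρ.re = 1 / 2) {η : ℝ} (h0 : 0 ≤ η) (h1 : η ≤ 1) (ρ : NT) :
    ‖cexp ((η : ℂ) ^ 2 / 2 * (ρ : ℂ) ^ 2)‖ ≤ 2 := by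
  rw [ge_norm hR]
  have h2 : η ^ 2 / 2 * (1 / 4 - (ρ : ℂ).im ^ 2) ≤ 1 / 2 := by
    have h3 : η ^ 2 ≤ 1 := by nlinarith
    have h4 : 0 ≤ η ^ 2 * (ρ : ℂ).im ^ 2 := by positivity
    nlinarith
  exact (Real.exp_le_exp.2 h2).trans (exp_half_le (x := 1) le_rfl)

lemma cg_sm (hZ : ZC) {η : ℝ} (h0 : 0 < η) (h1 : η ≤ 1) : Summable fun ρ : NT => ‖cg η ρ‖ := by
  have hR := fun ρ hρ => (hZ.1 ρ hρ).1
  refine Summable.of_nonneg_of_le (fun ρ => norm_nonneg _) (fun ρ => ?_)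
    (((wr_sq hZ).mul_left 2).add (inv_sq.mul_left (8 / η ^ 4)))
  have e1 : ‖cg η ρ‖ = ‖cexp ((η : ℂ) ^ 2 / 2 * (ρ : ℂ) ^ 2)‖ * wr ρ := by
    unfold cg wr
    rw [norm_div]; ring
  rw [e1, ge_norm hR]
  obtain ⟨t, ht⟩ : ∃ t, t = (ρ : ℂ).im := ⟨_, rfl⟩
  rw [← ht]
  have h2 : Real.exp (η ^ 2 / 2 * (1 / 4 - t ^ 2)) ≤ 2 * Real.exp (-(η ^ 2 * t ^ 2 / 2)) := by
    have h3 : η ^ 2 / 2 * (1 / 4 - t ^ 2) = (η ^ 2 / 4) / 2 + -(η ^ 2 * t ^ 2 / 2) := by ring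
    rw [h3, Real.exp_add]
    exact mul_le_mul_of_nonneg_right (exp_half_le (by nlinarith)) (Real.exp_pos _).le
  have h4 : Real.exp (-(η ^ 2 * t ^ 2 / 2)) ≤ 2 / η ^ 2 * (1 / (1 + t ^ 2)) := by
    have h5 := Real.add_one_le_exp (η ^ 2 * t ^ 2 / 2)
    have h6 : Real.exp (η ^ 2 * t ^ 2 / 2) * Real.exp (-(η ^ 2 * t ^ 2 / 2)) = 1 := by
      rw [← Real.exp_add]; simp
    have h7 : 0 < η ^ 2 := by positivity
    rw [div_mul_div_comm, mul_one, le_div_iff₀ (by positivity)]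
    have h8 : η ^ 2 * (1 + t ^ 2) ≤ 2 * Real.exp (η ^ 2 * t ^ 2 / 2) := by nlinarith
    nlinarith [Real.exp_pos (-(η ^ 2 * t ^ 2 / 2))]
  have h9 : Real.exp (-(η ^ 2 * t ^ 2 / 2)) ^ 2 ≤ 4 / η ^ 4 * (1 / (1 + t ^ 2)) := by
    have h10 := pow_le_pow_left₀ (Real.exp_pos _).le h4 2
    refine h10.trans ?_
    rw [mul_pow, div_pow, div_pow, one_pow]
    have h11 : 1 / (1 + t ^ 2) ^ 2 ≤ 1 / (1 + t ^ 2) := by
      apply one_div_le_one_div_of_le (by positivity)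
      nlinarith [sq_nonneg t]
    have e2 : (2:ℝ) ^ 2 / (η ^ 2) ^ 2 = 4 / η ^ 4 := by ring
    rw [e2]
    exact mul_le_mul_of_nonneg_left h11 (by positivity)
  have hw := wr_nonneg ρ
  calc Real.exp (η ^ 2 / 2 * (1 / 4 - t ^ 2)) * wr ρ ≤ 2 * Real.exp (-(η ^ 2 * t ^ 2 / 2)) * wr ρ :=
        mul_le_mul_of_nonneg_right h2 hw
    _ ≤ 2 * wr ρ ^ 2 + 2 * Real.exp (-(η ^ 2 * t ^ 2 / 2)) ^ 2 := by
        nlinarith [sq_nonneg (Real.exp (-(η ^ 2 * t ^ 2 / 2)) - wr ρ), sq_nonneg (wr ρ),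
          sq_nonneg (Real.exp (-(η ^ 2 * t ^ 2 / 2)))]
    _ ≤ 2 * wr ρ ^ 2 + 8 / η ^ 4 * (1 / (1 + t ^ 2)) := by
        have e3 : 8 / η ^ 4 * (1 / (1 + t ^ 2)) = 2 * (4 / η ^ 4 * (1 / (1 + t ^ 2))) := by ring
        rw [e3]; linarith

lemma cg_b0 (η : ℝ) (ρ : NT) : cg η ρ / (1 - (ρ : ℂ)) = cexp ((η : ℂ) ^ 2 / 2 * (ρ : ℂ) ^ 2) * b0 ρ := by
  unfold cg b0
  ring

/-- the contribution of the left line -/
noncomputable def LI (η v : ℝ) : ℂ := ((2 * Real.pi : ℝ) : ℂ)⁻¹ * ∫ t : ℝ, GG η v (⟨-1 / 2, t⟩ : ℂ)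

lemma LI_le : ∃ B : ℝ, 0 < B ∧ ∀ η v : ℝ, 0 < η → η ≤ 1 → ‖LI η v‖ ≤ B * Real.exp (-v / 2) := by
  obtain ⟨B, hB, h⟩ := Pool.Agent.W191.WM.lb
  refine ⟨B, hB, fun η v h0 h1 => ?_⟩
  unfold LI
  rw [norm_mul, norm_inv, Complex.norm_real, Real.norm_eq_abs, abs_of_pos (by positivity)]
  have h2 := (h η v h0 h1).2
  have h3 : (2 * Real.pi)⁻¹ ≤ 1 := by
    rw [inv_le_one₀ (by positivity)]
    linarith [Real.pi_gt_three]
  calc (2 * Real.pi)⁻¹ * ‖∫ t : ℝ, GG η v (⟨-1 / 2, t⟩ : ℂ)‖ ≤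
      1 * (B * Real.exp (-v / 2)) := mul_le_mul h3 h2 (norm_nonneg _) zero_le_one
    _ = _ := one_mul _

/-- the explicit formula -/
theorem ph_eq (hZ : ZC) {η : ℝ} (h0 : 0 < η) (h1 : η ≤ 1) (v : ℝ) :
    ph (cg η) v = (rr η v : ℂ) - (Real.exp (-v) : ℂ) * LI η v := by
  classical
  have hR := fun ρ hρ => (hZ.1 ρ hρ).1
  obtain ⟨U, hU, hef⟩ := ef2 Pool.Agent.W150.WM.inv Pool.Agent.W565.WM.t_res Pool.Agent.W915.WM.hor
    Pool.Agent.W191.WM.lb (fun ρ hρ => (hZ.1 ρ hρ).2)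
  have h2 := hef η v h0 h1
  have hs := (sz_sm hR (cg_sm hZ h0 h1) v).hasSum
  have ht : Tendsto (fun k => (fin_NT (U k)).toFinset.subtype (fun s => s ∈ NT)) atTop atTop := by
    rw [tendsto_atTop]
    intro s
    have h3 : ∀ ρ ∈ s, ∀ᶠ k in atTop, ρ ∈ (fin_NT (U k)).toFinset.subtype (fun s => s ∈ NT) := by
      intro ρ _
      obtain ⟨K, hK⟩ := exists_nat_ge |(ρ : ℂ).im|
      filter_upwards [eventually_ge_atTop K] with k hk
      rw [Finset.mem_subtype, Set.Finite.mem_toFinset]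
      refine ⟨ρ.2, hK.trans (le_trans ?_ (hU k))⟩
      exact_mod_cast hk
    have h4 := (Filter.eventually_all_finset s).2 h3
    filter_upwards [h4] with k hk
    intro ρ hρ
    exact hk ρ hρ
  have h5 := hs.comp ht
  have h6 : ∀ k, ∑ ρ ∈ (fin_NT (U k)).toFinset.subtype (fun s => s ∈ NT), cg η ρ * ez ρ v =
      cexp (-((v / 2 : ℝ) : ℂ)) * ∑ ρ ∈ (fin_NT (U k)).toFinset, EE η v ρ / (ρ * deriv riemannZeta ρ) := by
    intro k
    rw [Finset.mul_sum]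
    have h7 : ∀ x ∈ (fin_NT (U k)).toFinset, x ∈ NT := by
      intro x hx
      rw [Set.Finite.mem_toFinset] at hx
      exact hx.1
    rw [← Finset.sum_subtype_of_mem (fun ρ : ℂ => cexp (-((v / 2 : ℝ) : ℂ)) *
      (EE η v ρ / (ρ * deriv riemannZeta ρ))) h7]
    refine Finset.sum_congr rfl fun ρ _ => ?_
    unfold cg ez EE
    rw [div_mul_eq_mul_div, ← Complex.exp_add, mul_div_assoc', ← Complex.exp_add]
    congr 2
    push_cast
    ring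
  have h8 : (fun k => ∑ ρ ∈ (fin_NT (U k)).toFinset.subtype (fun s => s ∈ NT), cg η ρ * ez ρ v) =
      fun k => cexp (-((v / 2 : ℝ) : ℂ)) * ∑ ρ ∈ (fin_NT (U k)).toFinset, EE η v ρ / (ρ * deriv riemannZeta ρ) :=
    funext h6
  have h9 : Tendsto (fun k => ∑ ρ ∈ (fin_NT (U k)).toFinset.subtype (fun s => s ∈ NT), cg η ρ * ez ρ v)
      atTop (𝓝 (∑' ρ : NT, cg η ρ * ez ρ v)) := h5
  rw [h8] at h9
  have h10 := tendsto_nhds_unique h9 (h2.const_mul (cexp (-((v / 2 : ℝ) : ℂ))))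
  unfold ph sz
  rw [h10]
  unfold rr LI
  have e1 : cexp ((-(v / 2) : ℝ)) * cexp (-((v / 2 : ℝ) : ℂ)) = (Real.exp (-v) : ℂ) := by
    rw [← Complex.exp_add, Complex.ofReal_exp]; congr 1; push_cast; ring
  rw [← mul_assoc, e1]
  push_cast
  ring

end Q260.GC
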