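import Pool.Agent.Q260.GC.A6

/-! The value of the sum over the zeros with the coefficients `1/ζ'(ρ)` at `log n`. -/

set_option autoImplicit false

open MeasureTheory Filter Topology Set Complex

namespace Q260.GC

open Pool.Agent.W120.WM Pool.Agent.W280.WM
open Pool.Agent.Y23 (Zt mu)

lemma ph_cont {c : NT → ℂ} (hR : ∀ ρ ∈ NT, ρ.re = 1 / 2) (hc : Summable fun ρ => ‖c ρ‖) :
    Continuous (ph c) := by
  unfold ph
  exact Continuous.mul (by fun_prop) (sz_cont hR hc)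

/-- the values of `M` around an integer -/
lemma Mx_right {n : ℕ} (hn : 1 ≤ n) {h v : ℝ} (hh : h * n ≤ 1 / 2) (h0 : 0 < h)
    (hv : v ∈ Ico (Real.log n) (Real.log n + h)) : Mx (Real.exp v) = Mx n := by
  have hn0 : (0 : ℝ) < n := by exact_mod_cast hn
  have hn1 : (1 : ℝ) ≤ n := by exact_mod_cast hn
  have h1 : (n : ℝ) ≤ Real.exp v := by
    rw [← Real.log_le_iff_le_exp hn0]; exact hv.1
  have hh1 : h ≤ 1 / 2 := by nlinarith
  have h2 : Real.exp v < n + 1 := by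
    have h3 : Real.exp v < Real.exp (Real.log n + h) := Real.exp_lt_exp.2 hv.2
    rw [Real.exp_add, Real.exp_log hn0] at h3
    have h4 := exp_sub_one_le (x := h)
    have h5 : Real.exp h ≤ 2 := by
      have := exp_half_le (x := 2 * h) (by linarith)
      rwa [show 2 * h / 2 = h by ring] at this
    have h6 : n * Real.exp h ≤ n + 1 := by nlinarith
    linarith
  have h7 : ⌊Real.exp v⌋₊ = n := by
    rw [Nat.floor_eq_iff (Real.exp_pos v).le]
    exact ⟨h1, h2⟩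
  unfold Mx
  rw [h7, Nat.floor_natCast]

lemma Mx_left {n : ℕ} (hn : 1 ≤ n) {h v : ℝ} (hh : h * n ≤ 1 / 2) (h0 : 0 < h)
    (hv : v ∈ Ico (Real.log n - h) (Real.log n)) : Mx (Real.exp v) = Mx ((n - 1 : ℕ) : ℝ) := by
  have hn0 : (0 : ℝ) < n := by exact_mod_cast hn
  have h1 : Real.exp v < n := by
    rw [← Real.lt_log_iff_exp_lt hn0]; exact hv.2
  have h2 : (n : ℝ) - 1 ≤ Real.exp v := by
    have h3 : Real.exp (Real.log n - h) ≤ Real.exp v := Real.exp_le_exp.2 hv.1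
    rw [sub_eq_add_neg, Real.exp_add, Real.exp_log hn0] at h3
    have h4 := Real.add_one_le_exp (-h)
    have h6 : (n : ℝ) - 1 ≤ n * Real.exp (-h) := by nlinarith
    linarith
  have h7 : ⌊Real.exp v⌋₊ = n - 1 := by
    rw [Nat.floor_eq_iff (Real.exp_pos v).le]
    rw [Nat.cast_sub hn]
    constructor
    · push_cast; linarith
    · push_cast; linarith
  unfold Mx
  rw [h7, Nat.floor_natCast]

lemma Mx_jump {n : ℕ} (hn : 1 ≤ n) : Mx n - Mx ((n - 1 : ℕ) : ℝ) = ((ArithmeticFunction.moebius n : ℤ) : ℝ) := by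
  unfold Mx
  rw [Nat.floor_natCast, Nat.floor_natCast]
  obtain ⟨m, rfl⟩ : ∃ m, n = m + 1 := ⟨n - 1, by omega⟩
  rw [Nat.add_sub_cancel, Finset.sum_Icc_succ_top (by omega)]
  ring

theorem M_val (hZ : ZC) : ∃ C : ℝ, 0 < C ∧ ∀ (h : ℝ) (n : ℕ), 0 < h → 1 ≤ n → h * n ≤ 1 / 2 →
    ‖dd (sz b0) h (Real.log n) -
      ((h * Real.exp (-(Real.log n / 2)) * ((ArithmeticFunction.moebius n : ℤ) : ℝ) : ℝ) : ℂ)‖ ≤
      C * (h * Real.exp (-Real.log n) + h ^ 2 * Real.exp (Real.log n / 2)) := by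
  have hR := fun ρ hρ => (hZ.1 ρ hρ).1
  obtain ⟨B, hB, hL⟩ := LI_le
  obtain ⟨B1, hB1⟩ : ∃ B1 : ℝ, B1 = ∑' ρ, ‖b0 ρ‖ := ⟨_, rfl⟩
  have hB10 : 0 ≤ B1 := by rw [hB1]; exact tsum_nonneg fun _ => norm_nonneg _
  refine ⟨2 * B1 + 7 * B + 12, by positivity, fun h n h0 hn hhn => ?_⟩
  have hn0 : (0 : ℝ) < n := by exact_mod_cast hn
  have hn1 : (1 : ℝ) ≤ n := by exact_mod_cast hn
  have hh1 : h ≤ 1 / 2 := by nlinarith
  obtain ⟨u, hu⟩ : ∃ u, u = Real.log n := ⟨_, rfl⟩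
  have hu0 : 0 ≤ u := by rw [hu]; exact Real.log_nonneg hn1
  rw [← hu]
  obtain ⟨q, hq⟩ : ∃ q, q = Real.exp (-(h / 2)) := ⟨_, rfl⟩
  have hq0 : 0 < q := by rw [hq]; exact Real.exp_pos _
  have hq1 : q ≤ 1 := by rw [hq]; exact Real.exp_le_one_iff.2 (by linarith)
  -- the sequence
  obtain ⟨s, hs⟩ : ∃ s : ℕ → ℝ, s = fun k : ℕ => 1 / ((k : ℝ) + 1) := ⟨_, rfl⟩
  have hs0 : ∀ k, 0 < s k := fun k => by rw [hs]; positivity
  have hs1 : ∀ k, s k ≤ 1 := fun k => by
    rw [hs]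
    simp only
    rw [div_le_one (by positivity)]
    have : (0 : ℝ) ≤ k := Nat.cast_nonneg k
    linarith
  have hsl : Tendsto s atTop (𝓝 0) := by rw [hs]; exact tendsto_one_div_add_atTop_nhds_zero_nat
  have hbs := b0_sm hZ
  -- the limit of the left side
  have hcs : ∀ k, Summable fun ρ : NT => ‖cg (s k) ρ / (1 - (ρ : ℂ))‖ := by
    intro k
    refine Summable.of_nonneg_of_le (fun ρ => norm_nonneg _) (fun ρ => ?_) (hbs.mul_left 2)
    rw [cg_b0, norm_mul]
    exact mul_le_mul_of_nonneg_right (ge_le hR (hs0 k).le (hs1 k) ρ) (norm_nonneg _)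
  have hlim : ∀ w : ℝ, Tendsto (fun k => sz (fun ρ => cg (s k) ρ / (1 - (ρ : ℂ))) w) atTop (𝓝 (sz b0 w)) := by
    intro w
    unfold sz
    refine tendsto_tsum_of_dominated_convergence (bound := fun ρ => 2 * ‖b0 ρ‖) (hbs.mul_left 2)
      (fun ρ => ?_) (Eventually.of_forall fun k ρ => ?_)
    · refine Tendsto.mul_const _ ?_
      have e1 : (fun k => cg (s k) ρ / (1 - (ρ : ℂ))) =
          fun k => cexp (((s k : ℝ) : ℂ) ^ 2 / 2 * (ρ : ℂ) ^ 2) * b0 ρ := funext fun k => cg_b0 _ _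
      rw [e1]
      have h3 : Tendsto (fun k => ((s k : ℝ) : ℂ)) atTop (𝓝 ((0 : ℝ) : ℂ)) :=
        (Complex.continuous_ofReal.tendsto 0).comp hsl
      have h4 : Continuous fun z : ℂ => cexp (z ^ 2 / 2 * (ρ : ℂ) ^ 2) * b0 ρ := by fun_prop
      have h5 := (h4.tendsto ((0 : ℝ) : ℂ)).comp h3
      have h6 : cexp (((0 : ℝ) : ℂ) ^ 2 / 2 * (ρ : ℂ) ^ 2) * b0 ρ = b0 ρ := by simp
      rw [h6] at h5
      exact h5
    · rw [norm_mul, ez_norm (hR ρ ρ.2), mul_one]
      show ‖cg (s k) ρ / (1 - (ρ : ℂ))‖ ≤ 2 * ‖b0 ρ‖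
      rw [cg_b0, norm_mul]
      exact mul_le_mul_of_nonneg_right (ge_le hR (hs0 k).le (hs1 k) ρ) (norm_nonneg _)
  have hX : Tendsto (fun k => dd (sz (fun ρ => cg (s k) ρ / (1 - (ρ : ℂ)))) h u) atTop
      (𝓝 (dd (sz b0) h u)) := by
    unfold dd
    exact (((hlim u).const_mul 2).sub (hlim (u + h))).sub (hlim (u - h))
  -- the limit of the right side
  have hR1 := rr_lim (a := u) (b := u + h) (by linarith) hs0 hs1 hsl
  have hR2 := rr_lim (a := u - h) (b := u) (by linarith) hs0 hs1 hsl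
  have hY : Tendsto (fun k => ((Real.exp (u / 2) * ((2 - q) * (∫ v in u..(u + h), rr (s k) v) -
      q * ∫ v in (u - h)..u, rr (s k) v) : ℝ) : ℂ)) atTop
      (𝓝 ((Real.exp (u / 2) * ((2 - q) * (∫ v in u..(u + h), r0 v) - q * ∫ v in (u - h)..u, r0 v) : ℝ) : ℂ)) :=
    (Complex.continuous_ofReal.tendsto _).comp (((hR1.const_mul (2 - q)).sub (hR2.const_mul q)).const_mul _)
  -- the bound for each k
  have hbound : ∀ k, ‖dd (sz (fun ρ => cg (s k) ρ / (1 - (ρ : ℂ)))) h u -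
      ((Real.exp (u / 2) * ((2 - q) * (∫ v in u..(u + h), rr (s k) v) -
      q * ∫ v in (u - h)..u, rr (s k) v) : ℝ) : ℂ)‖ ≤ 2 * B1 * h ^ 2 + 7 * B * h * Real.exp (-u) := by
    intro k
    have hk0 := hs0 k
    have hk1 := hs1 k
    have hcg := cg_sm hZ hk0 hk1
    have hpi := ph_int hR hcg (u - h)
    have e1 : dd (sz (fun ρ => cg (s k) ρ / (1 - (ρ : ℂ)))) h u = dd (gg (ph (cg (s k)))) h u := by
      unfold dd
      rw [ph_gg hR hcg, ph_gg hR hcg, ph_gg hR hcg]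
    have hcont := ph_cont hR hcg
    have hint : ∀ a b : ℝ, a ≤ b → IntervalIntegrable (fun v => (Real.exp (-v) : ℂ) * LI (s k) v) volume a b ∧
        (∫ v in a..b, ph (cg (s k)) v) = ((∫ v in a..b, rr (s k) v : ℝ) : ℂ) -
          ∫ v in a..b, (Real.exp (-v) : ℂ) * LI (s k) v := by
      intro a b hab
      have hr0 := rr_ii hk0 hk1 hab
      have hr : IntervalIntegrable (fun v => (rr (s k) v : ℂ)) volume a b := ⟨hr0.1.ofReal, hr0.2.ofReal⟩
      have hl : IntervalIntegrable (fun v => (Real.exp (-v) : ℂ) * LI (s k) v) volume a b := by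
        have h3 := hr.sub (hcont.intervalIntegrable a b)
        refine h3.congr fun v _ => ?_
        rw [ph_eq hZ hk0 hk1 v]; ring
      refine ⟨hl, ?_⟩
      have e2 : (∫ v in a..b, ph (cg (s k)) v) =
          ∫ v in a..b, ((rr (s k) v : ℂ) - (Real.exp (-v) : ℂ) * LI (s k) v) :=
        intervalIntegral.integral_congr fun v _ => ph_eq hZ hk0 hk1 v
      rw [e2, intervalIntegral.integral_sub hr hl, intervalIntegral.integral_ofReal]
    have hLb : ∀ a b : ℝ, a ≤ b → ‖∫ v in a..b, (Real.exp (-v) : ℂ) * LI (s k) v‖ ≤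
        B * Real.exp (-(3 / 2 * a)) * (b - a) := by
      intro a b hab
      have h3 := intervalIntegral.norm_integral_le_of_norm_le_const (a := a) (b := b)
        (f := fun v => (Real.exp (-v) : ℂ) * LI (s k) v) (C := B * Real.exp (-(3 / 2 * a))) (fun v hv => by
          rw [uIoc_of_le hab] at hv
          rw [norm_mul, Complex.norm_real, Real.norm_eq_abs, abs_of_pos (Real.exp_pos _)]
          have h4 := hL (s k) v hk0 hk1
          calc Real.exp (-v) * ‖LI (s k) v‖ ≤ Real.exp (-v) * (B * Real.exp (-v / 2)) :=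
                mul_le_mul_of_nonneg_left h4 (Real.exp_pos _).le
            _ = B * Real.exp (-(3 / 2 * v)) := by
                rw [mul_left_comm, ← Real.exp_add]; congr 2; ring
            _ ≤ _ := mul_le_mul_of_nonneg_left (Real.exp_le_exp.2 (by linarith [hv.1])) hB.le)
      rwa [abs_of_nonneg (by linarith : 0 ≤ b - a)] at h3
    obtain ⟨-, i1⟩ := hint u (u + h) (by linarith)
    obtain ⟨-, i2⟩ := hint (u - h) u (by linarith)
    have l1 := hLb u (u + h) (by linarith)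
    have l2 := hLb (u - h) u (by linarith)
    rw [e1, kern h0.le hpi, i1, i2]
    generalize (∫ v in u..(u + h), (Real.exp (-v) : ℂ) * LI (s k) v) = L1 at *
    generalize (∫ v in (u - h)..u, (Real.exp (-v) : ℂ) * LI (s k) v) = L2 at *
    generalize (∫ v in u..(u + h), rr (s k) v) = R1 at *
    generalize (∫ v in (u - h)..u, rr (s k) v) = R2 at *
    have e3 : -((Real.exp (h / 2) + Real.exp (-(h / 2)) - 2 : ℝ) : ℂ) * (Real.exp (-(h / 2)) : ℝ) *
        gg (ph (cg (s k))) (u + h) +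
      (Real.exp (u / 2) : ℝ) * ((2 - Real.exp (-(h / 2)) : ℝ) * (((R1 : ℝ) : ℂ) - L1) -
        (Real.exp (-(h / 2)) : ℝ) * (((R2 : ℝ) : ℂ) - L2)) -
      ((Real.exp (u / 2) * ((2 - q) * R1 - q * R2) : ℝ) : ℂ) =
      -(((Real.exp (h / 2) + Real.exp (-(h / 2)) - 2) * Real.exp (-(h / 2)) : ℝ) : ℂ) *
        gg (ph (cg (s k))) (u + h) - (Real.exp (u / 2) : ℝ) * ((2 - q : ℝ) * L1 - (q : ℝ) * L2) := by
      rw [hq]
      push_cast
      ring
    rw [e3]
    have t1 : ‖-(((Real.exp (h / 2) + Real.exp (-(h / 2)) - 2) * Real.exp (-(h / 2)) : ℝ) : ℂ) *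
        gg (ph (cg (s k))) (u + h)‖ ≤ h ^ 2 * (2 * B1) := by
      rw [norm_mul, norm_neg, Complex.norm_real, Real.norm_eq_abs]
      refine mul_le_mul (tail_coef h0.le (by linarith)) ?_ (norm_nonneg _) (by positivity)
      rw [ph_gg hR hcg]
      refine (sz_le hR (hcs k) _).trans ?_
      rw [hB1, ← tsum_mul_left]
      refine (hcs k).tsum_le_tsum (fun ρ => ?_) (hbs.mul_left 2)
      rw [cg_b0, norm_mul]
      exact mul_le_mul_of_nonneg_right (ge_le hR hk0.le hk1 ρ) (norm_nonneg _)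
    have t2 : ‖((Real.exp (u / 2) : ℝ) : ℂ) * ((2 - q : ℝ) * L1 - (q : ℝ) * L2)‖ ≤ 7 * B * h * Real.exp (-u) := by
      rw [norm_mul, Complex.norm_real, Real.norm_eq_abs, abs_of_pos (Real.exp_pos _)]
      have t3 : ‖((2 - q : ℝ) : ℂ) * L1 - (q : ℝ) * L2‖ ≤ 2 * ‖L1‖ + ‖L2‖ := by
        refine (norm_sub_le _ _).trans (add_le_add ?_ ?_)
        · rw [norm_mul, Complex.norm_real, Real.norm_eq_abs, abs_of_nonneg (by linarith)]
          exact mul_le_mul_of_nonneg_right (by linarith) (norm_nonneg _)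
        · rw [norm_mul, Complex.norm_real, Real.norm_eq_abs, abs_of_pos hq0]
          exact mul_le_of_le_one_left (norm_nonneg _) hq1
      have t4 : Real.exp (-(3 / 2 * (u - h))) ≤ 5 * Real.exp (-(3 / 2 * u)) := by
        have e4 : -(3 / 2 * (u - h)) = 3 / 2 * h + -(3 / 2 * u) := by ring
        rw [e4, Real.exp_add]
        apply mul_le_mul_of_nonneg_right _ (Real.exp_pos _).le
        have h6 : Real.exp (3 / 2 * h) ≤ Real.exp 1 := Real.exp_le_exp.2 (by linarith)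
        have := Real.exp_one_lt_d9
        linarith
      have t5 : Real.exp (u / 2) * Real.exp (-(3 / 2 * u)) = Real.exp (-u) := by
        rw [← Real.exp_add]; congr 1; ring
      have e5 : u + h - u = h := by ring
      have e6 : u - (u - h) = h := by ring
      rw [e5] at l1
      rw [e6] at l2
      have l3 : ‖L2‖ ≤ B * (5 * Real.exp (-(3 / 2 * u))) * h :=
        l2.trans (mul_le_mul_of_nonneg_right (mul_le_mul_of_nonneg_left t4 hB.le) h0.le)
      calc Real.exp (u / 2) * ‖((2 - q : ℝ) : ℂ) * L1 - (q : ℝ) * L2‖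
          ≤ Real.exp (u / 2) * (7 * B * h * Real.exp (-(3 / 2 * u))) := by
            refine mul_le_mul_of_nonneg_left ?_ (Real.exp_pos _).le
            linarith
        _ = 7 * B * h * (Real.exp (u / 2) * Real.exp (-(3 / 2 * u))) := by ring
        _ = _ := by rw [t5]
    refine (norm_sub_le _ _).trans ?_
    linarith
  have hmain := le_of_tendsto ((hX.sub hY).norm) (Eventually.of_forall hbound)
  -- the step functions
  have hp : ∀ v ∈ Ico u (u + h), r0 v = (Mx n + 2) * Real.exp (-v) - 0 := by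
    intro v hv
    unfold r0
    rw [hu] at hv
    rw [Mx_right hn hhn h0 hv]; ring
  have hm : ∀ v ∈ Ico (u - h) u, r0 v = (Mx ((n - 1 : ℕ) : ℝ) + 2) * Real.exp (-v) - 0 := by
    intro v hv
    unfold r0
    rw [hu] at hv
    rw [Mx_left hn hhn h0 hv]; ring
  have j1 := int_step (f := r0) (a := u) (b := u + h) (by linarith) hp
  have j2 := int_step (f := r0) (a := u - h) (b := u) (by linarith) hm
  have x1 : Real.exp (-(u + h)) = Real.exp (-u) * Real.exp (-h) := by rw [← Real.exp_add]; congr 1; ring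
  have x2 : Real.exp (-(u - h)) = Real.exp (-u) * Real.exp h := by rw [← Real.exp_add]; congr 1; ring
  rw [x1] at j1
  rw [x2] at j2
  have hstep := step_ineq (cp := Mx n + 2) (cm := Mx ((n - 1 : ℕ) : ℝ) + 2) (b := 0) (e := Real.exp (-u))
    (Real.exp_pos _).le h0.le (by linarith : h ≤ 1)
  rw [← hq] at hstep
  have a1 := Mx_abs (y := (n : ℝ)) hn0.le
  have a2 := Mx_abs (y := ((n - 1 : ℕ) : ℝ)) (Nat.cast_nonneg _)
  have a3 : (((n - 1 : ℕ) : ℝ)) ≤ n := by exact_mod_cast Nat.sub_le n 1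
  have a4 : |Mx n + 2| + |Mx ((n - 1 : ℕ) : ℝ) + 2| ≤ 6 * n := by
    have b1 := abs_add_le (Mx n) 2
    have b2 := abs_add_le (Mx ((n - 1 : ℕ) : ℝ)) 2
    rw [abs_of_pos (by norm_num : (0:ℝ) < 2)] at b1 b2
    linarith
  have eu : Real.exp u = n := by rw [hu, Real.exp_log hn0]
  have x3 : Real.exp (-u) * n = 1 := by rw [← eu, ← Real.exp_add]; simp
  have x4 : Real.exp (u / 2) * Real.exp (-u) = Real.exp (-(u / 2)) := by
    rw [← Real.exp_add]; congr 1; ring
  have hfin : |Real.exp (u / 2) * ((2 - q) * (∫ v in u..(u + h), r0 v) - q * ∫ v in (u - h)..u, r0 v) -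
      h * Real.exp (-(u / 2)) * ((ArithmeticFunction.moebius n : ℤ) : ℝ)| ≤
      12 * h ^ 2 * Real.exp (u / 2) := by
    rw [← Mx_jump hn, j1, j2]
    have e7 : Real.exp (u / 2) * ((2 - q) * ((Mx ↑n + 2) * (Real.exp (-u) - Real.exp (-u) * Real.exp (-h)) -
        0 * (u + h - u)) - q * ((Mx ((n - 1 : ℕ) : ℝ) + 2) * (Real.exp (-u) * Real.exp h - Real.exp (-u)) -
        0 * (u - (u - h)))) - h * Real.exp (-(u / 2)) * (Mx ↑n - Mx ((n - 1 : ℕ) : ℝ)) =
        Real.exp (u / 2) * ((2 - q) * ((Mx ↑n + 2) * Real.exp (-u) * (1 - Real.exp (-h)) - 0 * h) -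
        q * ((Mx ((n - 1 : ℕ) : ℝ) + 2) * Real.exp (-u) * (Real.exp h - 1) - 0 * h) -
        h * Real.exp (-u) * ((Mx ↑n + 2) - (Mx ((n - 1 : ℕ) : ℝ) + 2))) := by
      rw [← x4]; ring
    rw [e7, abs_mul, abs_of_pos (Real.exp_pos _)]
    have e8 : 2 * h ^ 2 * (Real.exp (-u) * (|Mx ↑n + 2| + |Mx ((n - 1 : ℕ) : ℝ) + 2|) + |(0:ℝ)|) ≤
        12 * h ^ 2 := by
      rw [abs_zero, add_zero]
      have h9 : Real.exp (-u) * (|Mx ↑n + 2| + |Mx ((n - 1 : ℕ) : ℝ) + 2|) ≤ 6 := by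
        have := mul_le_mul_of_nonneg_left a4 (Real.exp_pos (-u)).le
        nlinarith
      nlinarith [sq_nonneg h]
    calc _ ≤ Real.exp (u / 2) * (12 * h ^ 2) :=
          mul_le_mul_of_nonneg_left (hstep.trans e8) (Real.exp_pos _).le
      _ = _ := by ring
  -- conclusion
  have e9 : dd (sz b0) h u - ((h * Real.exp (-(u / 2)) * ((ArithmeticFunction.moebius n : ℤ) : ℝ) : ℝ) : ℂ) =
      (dd (sz b0) h u - ((Real.exp (u / 2) * ((2 - q) * (∫ v in u..(u + h), r0 v) -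
        q * ∫ v in (u - h)..u, r0 v) : ℝ) : ℂ)) +
      ((Real.exp (u / 2) * ((2 - q) * (∫ v in u..(u + h), r0 v) - q * ∫ v in (u - h)..u, r0 v) -
      h * Real.exp (-(u / 2)) * ((ArithmeticFunction.moebius n : ℤ) : ℝ) : ℝ) : ℂ) := by
    push_cast; ring
  rw [e9]
  refine (norm_add_le _ _).trans ?_
  rw [Complex.norm_real, Real.norm_eq_abs]
  have hE : 1 ≤ Real.exp (u / 2) := Real.one_le_exp (by linarith)
  have p1 : 0 ≤ B1 * h ^ 2 * (Real.exp (u / 2) - 1) :=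
    mul_nonneg (mul_nonneg hB10 (sq_nonneg h)) (by linarith)
  have p2 : 0 ≤ B1 * (h * Real.exp (-u)) := by positivity
  have p3 : 0 ≤ B * (h ^ 2 * Real.exp (u / 2)) := by positivity
  have p4 : 0 ≤ h * Real.exp (-u) := by positivity
  nlinarith

end Q260.GC
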