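import Mathlib

/-! Sums over squarefree numbers. -/

set_option autoImplicit false

open Finset

namespace Q260.GC

/-- the indicator of the squarefree numbers -/
noncomputable def m2 (n : ℕ) : ℝ := if Squarefree n then 1 else 0

lemma m2_nonneg (n : ℕ) : 0 ≤ m2 n := by unfold m2; split_ifs <;> norm_num

lemma m2_le (n : ℕ) : m2 n ≤ 1 := by unfold m2; split_ifs <;> norm_num

/-- the sum of `1 / n` over squarefree `n ≤ N` -/
noncomputable def SS (N : ℕ) : ℝ := ∑ n ∈ Icc 1 N, m2 n / n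

/-- the harmonic sum -/
noncomputable def HH (N : ℕ) : ℝ := ∑ n ∈ Icc 1 N, 1 / (n : ℝ)

lemma HH_eq (N : ℕ) : HH N = (harmonic N : ℝ) := by
  rw [harmonic_eq_sum_Icc]
  push_cast
  unfold HH
  exact sum_congr rfl fun n _ => by rw [one_div]

lemma HH_le (N : ℕ) : HH N ≤ 1 + Real.log N := by rw [HH_eq]; exact harmonic_le_one_add_log N

lemma le_HH {N : ℕ} (hN : 1 ≤ N) : Real.log N ≤ HH N := by
  rw [HH_eq]
  refine le_trans ?_ (log_add_one_le_harmonic N)
  have : (0 : ℝ) < N := by exact_mod_cast hN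
  exact Real.log_le_log this (by push_cast; linarith)

lemma SS_mono {M N : ℕ} (h : M ≤ N) : SS M ≤ SS N :=
  sum_le_sum_of_subset_of_nonneg (Icc_subset_Icc_right h) fun n _ _ => div_nonneg (m2_nonneg n) (by positivity)

lemma SS_nonneg (N : ℕ) : 0 ≤ SS N := sum_nonneg fun n _ => div_nonneg (m2_nonneg n) (by positivity)

lemma SS_le_HH (N : ℕ) : SS N ≤ HH N :=
  sum_le_sum fun n _ => div_le_div_of_nonneg_right (m2_le n) (by positivity)

lemma sq_uniq {d e s t : ℕ} (hd : 0 < d) (he : 0 < e) (hs : Squarefree s) (ht : Squarefree t)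
    (h : d ^ 2 * s = e ^ 2 * t) : d = e ∧ s = t := by
  have hs0 := hs.ne_zero
  have ht0 := ht.ne_zero
  have hst : s = t := by
    refine Nat.eq_of_factorization_eq hs0 ht0 fun p => ?_
    have h1 : (d ^ 2 * s).factorization p = 2 * d.factorization p + s.factorization p := by
      rw [Nat.factorization_mul (by positivity) hs0, Nat.factorization_pow]
      simp
    have h2 : (e ^ 2 * t).factorization p = 2 * e.factorization p + t.factorization p := by
      rw [Nat.factorization_mul (by positivity) ht0, Nat.factorization_pow]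
      simp
    have h3 := hs.natFactorization_le_one p
    have h4 := ht.natFactorization_le_one p
    rw [h, h2] at h1
    omega
  subst hst
  refine ⟨?_, rfl⟩
  have h1 : d ^ 2 = e ^ 2 := Nat.eq_of_mul_eq_mul_right (Nat.pos_of_ne_zero hs0) h
  exact Nat.pow_left_injective (by norm_num : (2:ℕ) ≠ 0) h1

theorem HH_split (N : ℕ) : HH N = ∑ d ∈ Icc 1 (Nat.sqrt N), 1 / (d : ℝ) ^ 2 * SS (N / d ^ 2) := by
  have e1 : ∀ d ∈ Icc 1 (Nat.sqrt N), 1 / (d : ℝ) ^ 2 * SS (N / d ^ 2) =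
      ∑ s ∈ (Icc 1 (N / d ^ 2)).filter Squarefree, 1 / ((d ^ 2 * s : ℕ) : ℝ) := by
    intro d _
    unfold SS
    rw [mul_sum, sum_filter]
    refine sum_congr rfl fun s _ => ?_
    unfold m2
    split_ifs
    · push_cast; rw [div_mul_div_comm, one_mul]
    · simp
  rw [sum_congr rfl e1, ← sum_sigma (Icc 1 (Nat.sqrt N)) (fun d => (Icc 1 (N / d ^ 2)).filter Squarefree)
    (fun x => 1 / ((x.1 ^ 2 * x.2 : ℕ) : ℝ))]
  unfold HH
  symm
  refine sum_nbij (fun x => x.1 ^ 2 * x.2) ?_ ?_ ?_ ?_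
  · rintro ⟨d, s⟩ hx
    simp only [mem_sigma, mem_Icc, mem_filter] at hx
    obtain ⟨⟨h1, h2⟩, ⟨h3, h4⟩, _⟩ := hx
    simp only [mem_Icc]
    refine ⟨Nat.one_le_iff_ne_zero.mpr (by positivity), ?_⟩
    calc d ^ 2 * s ≤ d ^ 2 * (N / d ^ 2) := Nat.mul_le_mul_left _ h4
      _ ≤ N := Nat.mul_div_le N _
  · rintro ⟨d, s⟩ hx ⟨e, t⟩ hy hxy
    simp only [coe_sigma, Set.mem_sigma_iff, mem_coe, mem_Icc, mem_filter] at hx hy
    have h := sq_uniq (by omega : 0 < d) (by omega : 0 < e) hx.2.2 hy.2.2 hxy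
    obtain ⟨rfl, rfl⟩ := h
    rfl
  · intro n hn
    simp only [mem_coe, mem_Icc] at hn
    obtain ⟨a, b, ha, hb, hab, hsq⟩ := Nat.sq_mul_squarefree_of_pos (by omega : 0 < n)
    refine ⟨⟨b, a⟩, ?_, hab⟩
    simp only [coe_sigma, Set.mem_sigma_iff, mem_coe, mem_Icc, mem_filter]
    have hb2 : b ^ 2 ≤ N := by
      calc b ^ 2 ≤ b ^ 2 * a := Nat.le_mul_of_pos_right _ ha
        _ ≤ N := by rw [hab]; exact hn.2
    refine ⟨⟨hb, ?_⟩, ⟨ha, ?_⟩, hsq⟩
    · rw [Nat.le_sqrt]; nlinarith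
    · rw [Nat.le_div_iff_mul_le (by positivity)]
      nlinarith
  · rintro ⟨d, s⟩ _
    rfl

/-- lower bound -/
theorem SS_ge {N : ℕ} (hN : 1 ≤ N) : 6 / Real.pi ^ 2 * Real.log N ≤ SS N := by
  have h1 := HH_split N
  have h2 : HH N ≤ (∑ d ∈ Icc 1 (Nat.sqrt N), 1 / (d : ℝ) ^ 2) * SS N := by
    rw [h1, sum_mul]
    exact sum_le_sum fun d _ => mul_le_mul_of_nonneg_left (SS_mono (Nat.div_le_self _ _)) (by positivity)
  have h3 : ∑ d ∈ Icc 1 (Nat.sqrt N), 1 / (d : ℝ) ^ 2 ≤ Real.pi ^ 2 / 6 :=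
    sum_le_hasSum _ (fun _ _ => by positivity) hasSum_zeta_two
  have h4 := le_HH hN
  have h5 := mul_le_mul_of_nonneg_right h3 (SS_nonneg N)
  have hp : 0 < Real.pi ^ 2 := by positivity
  have h6 : Real.log N ≤ Real.pi ^ 2 / 6 * SS N := by linarith
  calc 6 / Real.pi ^ 2 * Real.log N ≤ 6 / Real.pi ^ 2 * (Real.pi ^ 2 / 6 * SS N) :=
        mul_le_mul_of_nonneg_left h6 (by positivity)
    _ = SS N := by field_simp

lemma SS_succ (N : ℕ) : SS (N + 1) = SS N + m2 (N + 1) / (N + 1 : ℝ) := by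
  unfold SS
  rw [Finset.sum_Icc_succ_top (by omega)]
  push_cast
  rfl

lemma inv_le_log {N : ℕ} (hN : 1 ≤ N) : 1 / (N + 1 : ℝ) ≤ Real.log (N + 1) - Real.log N := by
  have h0 : (0 : ℝ) < N := by exact_mod_cast hN
  have h1 := Real.one_sub_inv_le_log_of_pos (show (0 : ℝ) < (N + 1) / N by positivity)
  rw [Real.log_div (by positivity) h0.ne'] at h1
  have h2 : 1 - ((N + 1 : ℝ) / N)⁻¹ = 1 / (N + 1) := by field_simp; ring
  rwa [h2] at h1

lemma SS_incr {M N : ℕ} (hM : 1 ≤ M) (h : M ≤ N) : SS N - Real.log N ≤ SS M - Real.log M := by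
  induction N, h using Nat.le_induction with
  | base => exact le_rfl
  | succ n hn ih =>
    have h1 := inv_le_log (le_trans hM hn)
    have h2 : m2 (n + 1) / (n + 1 : ℝ) ≤ 1 / (n + 1 : ℝ) :=
      div_le_div_of_nonneg_right (m2_le _) (by positivity)
    rw [SS_succ]
    push_cast
    linarith

/-- upper bound -/
theorem SS_le : ∃ C : ℝ, 0 < C ∧ ∀ N : ℕ, 1 ≤ N → SS N ≤ 6 / Real.pi ^ 2 * Real.log N + C := by
  have hsum : Summable fun d : ℕ => 1 / (d : ℝ) ^ 2 * (Real.log 2 + 2 * Real.log d) := by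
    have h1 : Summable fun d : ℕ => 5 * (1 / (d : ℝ) ^ (3 / 2 : ℝ)) :=
      (Real.summable_one_div_nat_rpow.mpr (by norm_num)).mul_left 5
    refine Summable.of_nonneg_of_le (fun d => ?_) (fun d => ?_) h1
    · rcases Nat.eq_zero_or_pos d with rfl | hd
      · simp
      · have : (1 : ℝ) ≤ d := by exact_mod_cast hd
        have h2 := Real.log_nonneg this
        have h3 := Real.log_nonneg (show (1:ℝ) ≤ 2 by norm_num)
        positivity
    · rcases Nat.eq_zero_or_pos d with rfl | hd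
      · simp
      · have h1 : (1 : ℝ) ≤ d := by exact_mod_cast hd
        have h0 : (0 : ℝ) < d := by linarith
        have h2 : Real.log d ≤ 2 * (Real.sqrt d - 1) := by
          have := Real.log_le_sub_one_of_pos (Real.sqrt_pos.mpr h0)
          rw [Real.log_sqrt h0.le] at this
          linarith
        have h3 : Real.log 2 ≤ 1 := by linarith [Real.log_two_lt_d9]
        have h4 : (d : ℝ) ^ 2 = (d : ℝ) ^ (3 / 2 : ℝ) * Real.sqrt d := by
          rw [Real.sqrt_eq_rpow, ← Real.rpow_add h0, ← Real.rpow_natCast]; norm_num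
        have h5 : 1 ≤ Real.sqrt d := Real.one_le_sqrt.mpr h1
        have h6 : 0 < (d : ℝ) ^ (3 / 2 : ℝ) := Real.rpow_pos_of_pos h0 _
        rw [h4, one_div, mul_inv, mul_comm, ← mul_assoc, one_div]
        rw [show (5:ℝ) * ((d : ℝ) ^ (3 / 2 : ℝ))⁻¹ = (5 * Real.sqrt d) * ((d : ℝ) ^ (3 / 2 : ℝ))⁻¹ * (Real.sqrt d)⁻¹ by
          field_simp]
        refine mul_le_mul_of_nonneg_right (mul_le_mul_of_nonneg_right ?_ (by positivity)) (by positivity)
        linarith
  obtain ⟨B, hB⟩ : ∃ B, B = ∑' d : ℕ, 1 / (d : ℝ) ^ 2 * (Real.log 2 + 2 * Real.log d) := ⟨_, rfl⟩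
  have hnn : ∀ d : ℕ, 0 ≤ 1 / (d : ℝ) ^ 2 * (Real.log 2 + 2 * Real.log d) := by
    intro d
    rcases Nat.eq_zero_or_pos d with rfl | hd
    · simp
    · have : (1 : ℝ) ≤ d := by exact_mod_cast hd
      have h2 := Real.log_nonneg this
      have h3 := Real.log_nonneg (show (1:ℝ) ≤ 2 by norm_num)
      positivity
  have hB0 : 0 ≤ B := by rw [hB]; exact tsum_nonneg hnn
  refine ⟨6 / Real.pi ^ 2 * (B + 7), by positivity, fun N hN => ?_⟩
  obtain ⟨K, hK⟩ : ∃ K, K = Nat.sqrt N := ⟨_, rfl⟩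
  have hK1 : 1 ≤ K := by rw [hK, Nat.le_sqrt]; omega
  have hKr : (1 : ℝ) ≤ K := by exact_mod_cast hK1
  have hN0 : (0 : ℝ) < N := by exact_mod_cast hN
  have h1 := HH_split N
  rw [← hK] at h1
  have h2 : (∑ d ∈ Icc 1 K, 1 / (d : ℝ) ^ 2) * SS N ≤ HH N + B := by
    have e1 : ∀ d ∈ Icc 1 K, 1 / (d : ℝ) ^ 2 * SS N ≤
        1 / (d : ℝ) ^ 2 * SS (N / d ^ 2) + 1 / (d : ℝ) ^ 2 * (Real.log 2 + 2 * Real.log d) := by
      intro d hd
      rw [mem_Icc] at hd
      have hd0 : (0 : ℝ) < d := by exact_mod_cast hd.1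
      have hdN : d ^ 2 ≤ N := by
        have := Nat.sqrt_le N
        rw [← hK] at this
        nlinarith [hd.2]
      have hM : 1 ≤ N / d ^ 2 := (Nat.le_div_iff_mul_le (by have := hd.1; positivity)).mpr (by omega)
      have h3 := SS_incr hM (Nat.div_le_self N (d ^ 2))
      have hMr : (0 : ℝ) < ((N / d ^ 2 : ℕ) : ℝ) := by exact_mod_cast hM
      have h4 : N ≤ 2 * d ^ 2 * (N / d ^ 2) := by
        have h5 := Nat.lt_mul_div_succ N (show 0 < d ^ 2 by have := hd.1; positivity)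
        nlinarith
      have h5 : Real.log N ≤ Real.log 2 + 2 * Real.log d + Real.log ((N / d ^ 2 : ℕ) : ℝ) := by
        have h6 : (N : ℝ) ≤ 2 * (d : ℝ) ^ 2 * ((N / d ^ 2 : ℕ) : ℝ) := by exact_mod_cast h4
        have h7 := Real.log_le_log hN0 h6
        rw [Real.log_mul (by positivity) hMr.ne', Real.log_mul (by norm_num) (by positivity), Real.log_pow] at h7
        push_cast at h7
        linarith
      rw [← mul_add]
      exact mul_le_mul_of_nonneg_left (by linarith) (by positivity)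
    calc (∑ d ∈ Icc 1 K, 1 / (d : ℝ) ^ 2) * SS N = ∑ d ∈ Icc 1 K, 1 / (d : ℝ) ^ 2 * SS N := sum_mul _ _ _
      _ ≤ ∑ d ∈ Icc 1 K, (1 / (d : ℝ) ^ 2 * SS (N / d ^ 2) + 1 / (d : ℝ) ^ 2 * (Real.log 2 + 2 * Real.log d)) :=
          sum_le_sum e1
      _ = HH N + ∑ d ∈ Icc 1 K, 1 / (d : ℝ) ^ 2 * (Real.log 2 + 2 * Real.log d) := by
          rw [sum_add_distrib, ← h1]
      _ ≤ HH N + B := by
          rw [hB]
          have := hsum.sum_le_tsum (Icc 1 K) fun d _ => hnn d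
          linarith
  have h3 : Real.pi ^ 2 / 6 - 1 / (K : ℝ) ≤ ∑ d ∈ Icc 1 K, 1 / (d : ℝ) ^ 2 := by
    have hs := hasSum_zeta_two.tendsto_sum_nat
    have h4 : ∀ᶠ M : ℕ in Filter.atTop, (∑ d ∈ range M, 1 / (d : ℝ) ^ 2) ≤
        (∑ d ∈ Icc 1 K, 1 / (d : ℝ) ^ 2) + 1 / (K : ℝ) := by
      filter_upwards [Filter.eventually_ge_atTop (K + 1)] with M hM
      obtain ⟨L, rfl⟩ : ∃ L, M = L + 1 := ⟨M - 1, by omega⟩
      have hL : K ≤ L := by omega
      have e1 : ∑ d ∈ range (L + 1), 1 / (d : ℝ) ^ 2 = ∑ d ∈ Icc 1 L, 1 / (d : ℝ) ^ 2 := by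
        rw [Finset.range_eq_Ico, Finset.sum_eq_sum_Ico_succ_bot (by omega)]
        simp only [Nat.cast_zero, ne_eq, OfNat.ofNat_ne_zero, not_false_eq_true, zero_pow, div_zero, zero_add]
        rfl
      have e2 : (∑ d ∈ Icc 1 L, 1 / (d : ℝ) ^ 2) =
          (∑ d ∈ Icc 1 K, 1 / (d : ℝ) ^ 2) + ∑ d ∈ Ioc K L, 1 / (d : ℝ) ^ 2 := by
        have h5 : Icc 1 L = Icc 1 K ∪ Ioc K L := by
          ext x; simp only [mem_Icc, mem_union, mem_Ioc]; omega
        rw [h5, sum_union]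
        rw [Finset.disjoint_left]
        intro x hx hy
        simp only [mem_Icc, mem_Ioc] at hx hy
        omega
      have e3 : (∑ d ∈ Ioc K L, 1 / (d : ℝ) ^ 2) ≤ 1 / (K : ℝ) := by
        have := sum_Ioc_inv_sq_le_sub (α := ℝ) (by omega : K ≠ 0) hL
        simp_rw [one_div]
        refine this.trans ?_
        have : (0 : ℝ) ≤ (L : ℝ)⁻¹ := by positivity
        linarith
      rw [e1, e2]
      linarith
    have h5 := le_of_tendsto hs h4
    linarith
  have h4 : SS N / K ≤ 6 := by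
    rw [div_le_iff₀ (by linarith)]
    have h5 : N ≤ 4 * K ^ 2 := by
      have h6 := Nat.lt_succ_sqrt N
      rw [← hK] at h6
      have : (K + 1) ≤ 2 * K := by omega
      calc N ≤ (K + 1) * (K + 1) := h6.le
        _ ≤ (2 * K) * (2 * K) := Nat.mul_le_mul this this
        _ = 4 * K ^ 2 := by ring
    have h6 : Real.log N ≤ Real.log 4 + 2 * Real.log K := by
      have h7 : (N : ℝ) ≤ 4 * (K : ℝ) ^ 2 := by exact_mod_cast h5
      have h8 := Real.log_le_log hN0 h7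
      rw [Real.log_mul (by norm_num) (by positivity), Real.log_pow] at h8
      push_cast at h8
      exact h8
    have h7 : Real.log 4 ≤ 2 := by
      have : Real.log 4 = 2 * Real.log 2 := by
        rw [show (4 : ℝ) = 2 ^ 2 by norm_num, Real.log_pow]; push_cast; ring
      rw [this]; linarith [Real.log_two_lt_d9]
    have h8 := Real.log_le_sub_one_of_pos (show (0 : ℝ) < K by linarith)
    have h9 := (SS_le_HH N).trans (HH_le N)
    nlinarith
  have h5 := HH_le N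
  have h6 : (Real.pi ^ 2 / 6 - 1 / K) * SS N ≤ 1 + Real.log N + B := by
    refine (mul_le_mul_of_nonneg_right h3 (SS_nonneg N)).trans ?_
    linarith
  have h7 : Real.pi ^ 2 / 6 * SS N ≤ Real.log N + (B + 7) := by
    have : (Real.pi ^ 2 / 6 - 1 / K) * SS N = Real.pi ^ 2 / 6 * SS N - SS N / K := by ring
    linarith
  have hp : 0 < Real.pi ^ 2 := by positivity
  calc SS N = 6 / Real.pi ^ 2 * (Real.pi ^ 2 / 6 * SS N) := by field_simp
    _ ≤ 6 / Real.pi ^ 2 * (Real.log N + (B + 7)) := mul_le_mul_of_nonneg_left h7 (by positivity)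
    _ = _ := by ring

/-- the sum of `log (N / m) / m` over squarefree `m ≤ N` -/
noncomputable def TT (N : ℕ) : ℝ := ∑ m ∈ Icc 1 N, m2 m / m * (Real.log N - Real.log m)

lemma TT_succ (N : ℕ) : TT (N + 1) = TT N + SS N * (Real.log (N + 1) - Real.log N) := by
  unfold TT SS
  rw [Finset.sum_Icc_succ_top (by omega), sum_mul, ← sum_add_distrib]
  push_cast
  rw [sub_self, mul_zero, add_zero]
  refine sum_congr rfl fun m _ => ?_
  ring

theorem TT_le : ∃ C : ℝ, 0 < C ∧ ∀ N : ℕ, 1 ≤ N →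
    TT N ≤ 3 / Real.pi ^ 2 * Real.log N ^ 2 + C * Real.log N := by
  obtain ⟨C, hC, h⟩ := SS_le
  refine ⟨C, hC, fun N hN => ?_⟩
  induction N, hN using Nat.le_induction with
  | base => simp [TT]
  | succ n hn ih =>
    have h1 := h n hn
    have hn0 : (0 : ℝ) < n := by exact_mod_cast hn
    have h2 : Real.log n ≤ Real.log (n + 1) := Real.log_le_log hn0 (by linarith)
    have h3 : 0 ≤ Real.log n := Real.log_nonneg (by exact_mod_cast hn)
    rw [TT_succ]
    push_cast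
    have h4 := mul_le_mul_of_nonneg_right h1 (sub_nonneg.mpr h2)
    have hp : 0 < 3 / Real.pi ^ 2 := by positivity
    have h5 : 6 / Real.pi ^ 2 = 2 * (3 / Real.pi ^ 2) := by ring
    rw [h5] at h4
    have h6 : 0 ≤ 3 / Real.pi ^ 2 * (Real.log (n + 1) - Real.log n) ^ 2 := by positivity
    nlinarith

end Q260.GC
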