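import Pool.Agent.Q260.GC.B1
import Pool.Agent.Erdos456.Mertens

/-! The off diagonal sum. -/

set_option autoImplicit false

open Finset ArithmeticFunction

namespace Q260.GC

/-- the Moebius function -/
noncomputable def mo (n : ℕ) : ℝ := ((moebius n : ℤ) : ℝ)

lemma mo_sq (n : ℕ) : mo n * mo n = m2 n := by
  unfold mo m2
  rw [← sq, ← Int.cast_pow, moebius_sq]
  split_ifs <;> simp

lemma mo_abs (n : ℕ) : |mo n| ≤ 1 := by
  have h1 := mo_sq n
  have h2 := m2_le n
  rw [abs_le_one_iff_mul_self_le_one]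
  linarith

/-- the jump of `psi` -/
noncomputable def jj (m n : ℕ) : ℝ := if m ∣ n then vonMangoldt (n / m) else 0

lemma exp_le_two {h : ℝ} (h0 : 0 ≤ h) (h1 : h ≤ 1 / 2) : Real.exp h ≤ 1 + 2 * h := by
  have h2 := Real.add_one_le_exp (-h)
  have h3 : Real.exp h * Real.exp (-h) = 1 := by rw [← Real.exp_add]; simp
  have h4 := Real.exp_pos h
  have h5 : Real.exp h * (1 - h) ≤ 1 := by nlinarith
  nlinarith

lemma psi_right {m n N : ℕ} {h v : ℝ} (hm : 1 ≤ m) (hn : 1 ≤ n) (hnN : n ≤ N) (hh : h * N ≤ 1 / 4) (h0 : 0 < h)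
    (hv : v ∈ Set.Ico (Real.log n - Real.log m) (Real.log n - Real.log m + h)) :
    Chebyshev.psi (Real.exp v) = Chebyshev.psi ((n / m : ℕ) : ℝ) := by
  have hm0 : (0 : ℝ) < m := by exact_mod_cast hm
  have hn0 : (0 : ℝ) < n := by exact_mod_cast hn
  have hN : (n : ℝ) ≤ N := by exact_mod_cast hnN
  have hn1 : (1 : ℝ) ≤ n := by exact_mod_cast hn
  have hhn : h * n ≤ 1 / 4 := (mul_le_mul_of_nonneg_left hN h0.le).trans hh
  have hh1 : h ≤ 1 / 4 := by nlinarith
  rw [Chebyshev.psi_eq_psi_coe_floor (Real.exp v)]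
  have e0 : Real.exp (Real.log n - Real.log m) = n / m := by
    rw [Real.exp_sub, Real.exp_log hn0, Real.exp_log hm0]
  have e1 : (n : ℝ) / m ≤ Real.exp v := by rw [← e0]; exact Real.exp_le_exp.mpr hv.1
  have e2 : Real.exp v < ((n / m : ℕ) : ℝ) + 1 := by
    have h2 : Real.exp v < n / m * Real.exp h := by
      rw [← e0, ← Real.exp_add]; exact Real.exp_lt_exp.mpr hv.2
    have h3 := exp_le_two h0.le (by linarith)
    have h4 : (n : ℝ) + 1 ≤ m * (((n / m : ℕ) : ℝ) + 1) := by
      have := Nat.lt_mul_div_succ n (show 0 < m by omega)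
      have h5 : n + 1 ≤ m * (n / m + 1) := this
      exact_mod_cast h5
    refine h2.trans_le ?_
    calc (n : ℝ) / m * Real.exp h ≤ n / m * (1 + 2 * h) := mul_le_mul_of_nonneg_left h3 (by positivity)
      _ = (n + 2 * (h * n)) / m := by ring
      _ ≤ (m * (((n / m : ℕ) : ℝ) + 1)) / m := div_le_div_of_nonneg_right (by linarith) hm0.le
      _ = _ := by field_simp
  have e3 : ⌊Real.exp v⌋₊ = n / m := by
    rw [Nat.floor_eq_iff (Real.exp_pos v).le]
    exact ⟨Nat.cast_div_le.trans e1, e2⟩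
  rw [e3]

lemma psi_left {m n N : ℕ} {h v : ℝ} (hm : 1 ≤ m) (hn : 1 ≤ n) (hnN : n ≤ N) (hh : h * N ≤ 1 / 4) (h0 : 0 < h)
    (hv : v ∈ Set.Ico (Real.log n - Real.log m - h) (Real.log n - Real.log m)) :
    Chebyshev.psi (Real.exp v) = Chebyshev.psi (((n - 1) / m : ℕ) : ℝ) := by
  have hm0 : (0 : ℝ) < m := by exact_mod_cast hm
  have hn0 : (0 : ℝ) < n := by exact_mod_cast hn
  have hN : (n : ℝ) ≤ N := by exact_mod_cast hnN
  have hhn : h * n ≤ 1 / 4 := (mul_le_mul_of_nonneg_left hN h0.le).trans hh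
  rw [Chebyshev.psi_eq_psi_coe_floor (Real.exp v)]
  have e0 : Real.exp (Real.log n - Real.log m) = n / m := by
    rw [Real.exp_sub, Real.exp_log hn0, Real.exp_log hm0]
  have e1 : Real.exp v < n / m := by rw [← e0]; exact Real.exp_lt_exp.mpr hv.2
  obtain ⟨k, rfl⟩ : ∃ k, n = k + 1 := ⟨n - 1, by omega⟩
  simp only [Nat.add_sub_cancel]
  have e2 : ((k / m : ℕ) : ℝ) ≤ Real.exp v := by
    have h2 : ((k + 1 : ℕ) : ℝ) / m * Real.exp (-h) ≤ Real.exp v := by
      rw [← e0, ← Real.exp_add]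
      refine Real.exp_le_exp.mpr ?_
      have := hv.1
      linarith
    have h3 := Real.add_one_le_exp (-h)
    refine Nat.cast_div_le.trans (le_trans ?_ h2)
    rw [div_mul_eq_mul_div]
    refine div_le_div_of_nonneg_right ?_ hm0.le
    have h4 := mul_le_mul_of_nonneg_left h3 hn0.le
    push_cast at *
    nlinarith
  have e3 : Real.exp v < ((k / m : ℕ) : ℝ) + 1 := by
    refine e1.trans_le ?_
    rw [div_le_iff₀ hm0]
    have h5 : k + 1 ≤ (k / m + 1) * m := by
      have := Nat.lt_mul_div_succ k (show 0 < m by omega)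
      have h6 : k + 1 ≤ m * (k / m + 1) := this
      rw [mul_comm]; exact h6
    exact_mod_cast h5
  have e4 : ⌊Real.exp v⌋₊ = k / m := by
    rw [Nat.floor_eq_iff (Real.exp_pos v).le]
    exact ⟨e2, e3⟩
  rw [e4]

lemma psi_jump {m n : ℕ} (hn : 1 ≤ n) :
    Chebyshev.psi ((n / m : ℕ) : ℝ) - Chebyshev.psi (((n - 1) / m : ℕ) : ℝ) = jj m n := by
  obtain ⟨k, rfl⟩ : ∃ k, n = k + 1 := ⟨n - 1, by omega⟩
  simp only [Nat.add_sub_cancel]
  unfold jj
  rw [Nat.succ_div]
  split_ifs with h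
  · unfold Chebyshev.psi
    rw [Nat.floor_natCast, Nat.floor_natCast, Finset.sum_Ioc_succ_top (Nat.zero_le _)]
    ring
  · simp

lemma jj_le {m n : ℕ} (hm : 1 ≤ m) (hmn : m < n) : -(mo m * mo n) * jj m n ≤
    if m ∣ n ∧ (n / m).Prime then m2 m * Real.log ((n / m : ℕ) : ℝ) else 0 := by
  by_cases h : m ∣ n
  · obtain ⟨k, rfl⟩ := h
    have e1 : m * k / m = k := Nat.mul_div_cancel_left k (by omega)
    have hk : 0 < k := Nat.pos_of_ne_zero (by rintro rfl; omega)
    unfold jj
    rw [if_pos (Dvd.intro k rfl), e1]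
    by_cases h2 : k.Prime
    · rw [if_pos ⟨Dvd.intro k rfl, h2⟩, vonMangoldt_apply_prime h2]
      by_cases h3 : Squarefree (m * k)
      · have h4 : mo (m * k) = -mo m := by
          have h5 : Nat.Coprime m k := Nat.coprime_of_squarefree_mul h3
          unfold mo
          rw [isMultiplicative_moebius.map_mul_of_coprime h5, moebius_apply_prime h2]
          push_cast; ring
        rw [h4]
        have h6 := mo_sq m
        have : -(mo m * -mo m) = m2 m := by linarith
        rw [this]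
      · have h4 : mo (m * k) = 0 := by
          unfold mo
          rw [moebius_eq_zero_of_not_squarefree h3]; simp
        rw [h4]
        simp only [mul_zero, neg_zero, zero_mul]
        exact mul_nonneg (m2_nonneg m) (Real.log_natCast_nonneg k)
    · rw [if_neg (fun h => h2 h.2)]
      by_cases h3 : Squarefree (m * k)
      · have h4 : vonMangoldt k = 0 := by
          by_contra h5
          exact h2 (Nat.squarefree_and_prime_pow_iff_prime.mp
            ⟨(Nat.squarefree_mul_iff.mp h3).2.2, vonMangoldt_ne_zero_iff.mp h5⟩)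
        rw [h4, mul_zero]
      · have h4 : mo (m * k) = 0 := by
          unfold mo
          rw [moebius_eq_zero_of_not_squarefree h3]; simp
        rw [h4]
        simp
  · unfold jj
    rw [if_neg h, if_neg (fun h2 => h h2.1), mul_zero]

/-- the off diagonal terms -/
noncomputable def OD (N : ℕ) : ℝ := ∑ n ∈ Icc 1 N, ∑ m ∈ Ico 1 n, -(mo m * mo n) * jj m n / n

theorem OD_le : ∃ C : ℝ, 0 < C ∧ ∀ N : ℕ, OD N ≤ TT N + C * SS N := by
  obtain ⟨C, hC⟩ := Pool.Agent.Erdos456.Mert.mertens_log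
  refine ⟨|C| + 1, by positivity, fun N => ?_⟩
  have h1 : OD N ≤ ∑ n ∈ Icc 1 N, ∑ m ∈ Icc 1 N,
      if m ∣ n ∧ (n / m).Prime then m2 m * Real.log ((n / m : ℕ) : ℝ) / n else 0 := by
    unfold OD
    refine sum_le_sum fun n hn => ?_
    rw [mem_Icc] at hn
    have h2 : ∀ m ∈ Ico 1 n, -(mo m * mo n) * jj m n / n ≤
        if m ∣ n ∧ (n / m).Prime then m2 m * Real.log ((n / m : ℕ) : ℝ) / n else 0 := by
      intro m hm
      rw [mem_Ico] at hm
      have h3 := div_le_div_of_nonneg_right (jj_le hm.1 hm.2) (Nat.cast_nonneg (α := ℝ) n)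
      refine h3.trans (le_of_eq ?_)
      split_ifs <;> simp
    refine (sum_le_sum h2).trans ?_
    refine sum_le_sum_of_subset_of_nonneg ?_ ?_
    · intro m hm
      rw [mem_Ico] at hm
      rw [mem_Icc]; omega
    · intro m _ _
      split_ifs
      · exact div_nonneg (mul_nonneg (m2_nonneg m) (Real.log_natCast_nonneg _)) (Nat.cast_nonneg n)
      · exact le_rfl
  refine h1.trans ?_
  rw [sum_comm]
  have h2 : TT N + (|C| + 1) * SS N = ∑ m ∈ Icc 1 N, m2 m / m * (Real.log N - Real.log m + (|C| + 1)) := by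
    unfold TT SS
    rw [mul_sum, ← sum_add_distrib]
    exact sum_congr rfl fun m _ => by ring
  rw [h2]
  refine sum_le_sum fun m hm => ?_
  rw [mem_Icc] at hm
  have hm0 : (0 : ℝ) < m := by exact_mod_cast hm.1
  have hN0 : (0 : ℝ) < N := by exact_mod_cast (by omega : 0 < N)
  have h3 : (∑ n ∈ Icc 1 N, if m ∣ n ∧ (n / m).Prime then m2 m * Real.log ((n / m : ℕ) : ℝ) / n else 0) =
      m2 m / m * ∑ p ∈ (Icc 1 (N / m)).filter Nat.Prime, Real.log p / p := by
    rw [← sum_filter, mul_sum]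
    refine sum_nbij' (fun n => n / m) (fun p => m * p) ?_ ?_ ?_ ?_ ?_
    · intro n hn
      simp only [mem_filter, mem_Icc] at hn ⊢
      refine ⟨⟨hn.2.2.one_lt.le, Nat.div_le_div_right hn.1.2⟩, hn.2.2⟩
    · intro p hp
      simp only [mem_filter, mem_Icc] at hp ⊢
      have e1 : m * p / m = p := Nat.mul_div_cancel_left p (by omega)
      refine ⟨⟨?_, ?_⟩, Dvd.intro p rfl, by rw [e1]; exact hp.2⟩
      · exact Nat.mul_pos (by omega) (by omega)
      · calc m * p ≤ m * (N / m) := Nat.mul_le_mul_left m hp.1.2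
          _ ≤ N := Nat.mul_div_le N m
    · intro n hn
      simp only [mem_filter, mem_Icc] at hn
      exact Nat.mul_div_cancel' hn.2.1
    · intro p _
      exact Nat.mul_div_cancel_left p (by omega)
    · intro n hn
      simp only [mem_filter, mem_Icc] at hn
      obtain ⟨k, rfl⟩ := hn.2.1
      have e1 : m * k / m = k := Nat.mul_div_cancel_left k (by omega)
      rw [e1]
      push_cast
      field_simp
  rw [h3]
  refine mul_le_mul_of_nonneg_left ?_ (div_nonneg (m2_nonneg m) hm0.le)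
  have hNm : 1 ≤ N / m := (Nat.le_div_iff_mul_le (by omega)).mpr (by omega)
  have h4 := (abs_le.mp (hC (N / m) hNm)).2
  have h5 : Real.log ((N / m : ℕ) : ℝ) ≤ Real.log N - Real.log m := by
    rw [← Real.log_div hN0.ne' hm0.ne']
    exact Real.log_le_log (by exact_mod_cast hNm) Nat.cast_div_le
  linarith [le_abs_self C]

/-- the error terms -/
theorem err_sum (N : ℕ) : ∑ n ∈ Icc 1 N, ∑ m ∈ Ico 1 n, (2 / (m : ℝ) + 1 / ((n : ℝ) - m)) ≤
    3 * N * (1 + Real.log N) := by
  have h1 : ∀ n ∈ Icc 1 N, ∑ m ∈ Ico 1 n, (2 / (m : ℝ) + 1 / ((n : ℝ) - m)) ≤ 3 * (1 + Real.log N) := by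
    intro n hn
    rw [mem_Icc] at hn
    have e1 : ∑ m ∈ Ico 1 n, 1 / ((n : ℝ) - m) = ∑ m ∈ Ico 1 n, 1 / (m : ℝ) := by
      refine sum_nbij' (fun m => n - m) (fun m => n - m) ?_ ?_ ?_ ?_ ?_
      · intro m hm; rw [mem_Ico] at hm ⊢; omega
      · intro m hm; rw [mem_Ico] at hm ⊢; omega
      · intro m hm; rw [mem_Ico] at hm; omega
      · intro m hm; rw [mem_Ico] at hm; omega
      · intro m hm
        rw [mem_Ico] at hm
        rw [Nat.cast_sub hm.2.le]
    have e2 : ∑ m ∈ Ico 1 n, 1 / (m : ℝ) ≤ 1 + Real.log N := by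
      refine le_trans ?_ (HH_le N)
      refine sum_le_sum_of_subset_of_nonneg ?_ fun _ _ _ => by positivity
      intro m hm
      rw [mem_Ico] at hm
      rw [mem_Icc]; omega
    rw [sum_add_distrib, e1]
    have e3 : ∑ m ∈ Ico 1 n, 2 / (m : ℝ) = 2 * ∑ m ∈ Ico 1 n, 1 / (m : ℝ) := by
      rw [mul_sum]; exact sum_congr rfl fun m _ => by ring
    rw [e3]
    linarith
  refine (sum_le_sum h1).trans ?_
  rw [sum_const, Nat.card_Icc, nsmul_eq_mul]
  simp only [Nat.add_sub_cancel]
  exact le_of_eq (by ring)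

/-- one error term -/
lemma err_one {m n : ℕ} (hm : 1 ≤ m) (hmn : m < n) :
    1 / (Real.sqrt m * Real.sqrt n) * (Real.exp ((Real.log n - Real.log m) / 2) + 1 / (Real.log n - Real.log m)) ≤
      2 / (m : ℝ) + 1 / ((n : ℝ) - m) := by
  have hm0 : (0 : ℝ) < m := by exact_mod_cast hm
  have hn0 : (0 : ℝ) < n := by exact_mod_cast (by omega : 0 < n)
  have hlt : (m : ℝ) < n := by exact_mod_cast hmn
  have hd : (0 : ℝ) < n - m := by linarith
  have e1 : Real.exp ((Real.log n - Real.log m) / 2) = Real.sqrt n / Real.sqrt m := by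
    rw [← Real.log_div hn0.ne' hm0.ne', Real.exp_half, Real.exp_log (by positivity), Real.sqrt_div hn0.le]
  have hsm := Real.sqrt_pos.mpr hm0
  have hsn := Real.sqrt_pos.mpr hn0
  have hm2 := Real.sq_sqrt hm0.le
  have hn2 := Real.sq_sqrt hn0.le
  have e2 : (n - m : ℝ) / n ≤ Real.log n - Real.log m := by
    rw [← Real.log_div hn0.ne' hm0.ne']
    have := Real.one_sub_inv_le_log_of_pos (show (0 : ℝ) < n / m by positivity)
    refine le_trans (le_of_eq ?_) this
    field_simp
  have e3 : 1 / (Real.log n - Real.log m) ≤ n / (n - m : ℝ) := by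
    have h1 := one_div_le_one_div_of_le (show (0 : ℝ) < (n - m : ℝ) / n by positivity) e2
    rwa [one_div_div] at h1
  have e4 : 1 / (Real.sqrt m * Real.sqrt n) * (Real.sqrt n / Real.sqrt m) = 1 / m := by
    rw [← hm2, Real.sqrt_sq hsm.le]
    field_simp
  have e5 : 1 / (Real.sqrt m * Real.sqrt n) * (n / (n - m : ℝ)) ≤ 1 / m + 1 / (n - m) := by
    have h1 : 1 / (Real.sqrt m * Real.sqrt n) * (n / (n - m : ℝ)) = Real.sqrt n / Real.sqrt m / (n - m) := by
      have : (n : ℝ) = Real.sqrt n * Real.sqrt n := (Real.mul_self_sqrt hn0.le).symm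
      rw [div_div, div_mul_div_comm, one_mul, div_eq_div_iff (by positivity) (by positivity)]
      nth_rewrite 1 [this]
      ring
    have h2 : Real.sqrt n / Real.sqrt m ≤ n / m := by
      have h3 : 1 ≤ Real.sqrt n / Real.sqrt m := by
        rw [one_le_div hsm]; exact Real.sqrt_le_sqrt hlt.le
      calc Real.sqrt n / Real.sqrt m ≤ (Real.sqrt n / Real.sqrt m) * (Real.sqrt n / Real.sqrt m) :=
            le_mul_of_one_le_left (by positivity) h3
        _ = n / m := by rw [div_mul_div_comm, Real.mul_self_sqrt hn0.le, Real.mul_self_sqrt hm0.le]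
    rw [h1]
    refine (div_le_div_of_nonneg_right h2 hd.le).trans (le_of_eq ?_)
    field_simp
    ring
  rw [mul_add, e1, e4]
  have h6 := mul_le_mul_of_nonneg_left e3 (show 0 ≤ 1 / (Real.sqrt m * Real.sqrt n) by positivity)
  have h7 : (2 : ℝ) / m = 1 / m + 1 / m := by ring
  rw [h7]
  linarith

end Q260.GC
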