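import Pool.Agent.Q260.GC.A7
import Pool.Agent.Q260.GC.B2
import Pool.Agent.Q276.MW.C2

/-! The inequality of Cauchy and Schwarz over the zeros. -/

set_option autoImplicit false

open MeasureTheory Filter Topology Set Complex ComplexConjugate

namespace Q260.GC

open Pool.Agent.W120.WM Pool.Agent.W280.WM
open Pool.Agent.Y23 (Zt mu)
open Pool.Agent.Q296.NA (wt wt_summable)

lemma mu_simple {ρ : ℂ} (h0 : riemannZeta ρ = 0) (h1 : ρ ≠ 1) (h2 : deriv riemannZeta ρ ≠ 0) : mu ρ = 1 := by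
  have ha : AnalyticAt ℂ riemannZeta ρ := by
    have : DifferentiableOn ℂ riemannZeta {1}ᶜ := fun s hs =>
      (differentiableAt_riemannZeta hs).differentiableWithinAt
    exact this.analyticAt (isOpen_compl_singleton.mem_nhds h1)
  have h3 := ha.analyticOrderAt_eq_one_of_zero_deriv_ne_zero h0 h2
  unfold mu analyticOrderNatAt
  rw [h3]; rfl

/-- the weight -/
noncomputable def q0 (ρ : NT) : ℝ := 1 / (1 / 4 + (ρ : ℂ).im ^ 2)

lemma q0_pos (ρ : NT) : 0 < q0 ρ := by unfold q0; positivity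

/-- the weight of the second difference -/
noncomputable def vz (h : ℝ) (ρ : NT) : ℝ := q0 ρ * (2 - 2 * Real.cos ((ρ : ℂ).im * h))

lemma vz_nonneg (h : ℝ) (ρ : NT) : 0 ≤ vz h ρ := by
  unfold vz
  have h1 := Real.cos_le_one ((ρ : ℂ).im * h)
  exact mul_nonneg (q0_pos ρ).le (by linarith)

lemma vz_le (h : ℝ) (ρ : NT) : vz h ρ ≤ 4 * q0 ρ := by
  unfold vz
  have h1 := Real.neg_one_le_cos ((ρ : ℂ).im * h)
  nlinarith [q0_pos ρ]

lemma prod_eq {ρ : ℂ} (h : ρ.re = 1 / 2) : ρ * (1 - ρ) = ((1 / 4 + ρ.im ^ 2 : ℝ) : ℂ) := by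
  apply Complex.ext
  · rw [Complex.mul_re, Complex.sub_re, Complex.sub_im, h, Complex.one_re, Complex.one_im, Complex.ofReal_re]
    ring
  · rw [Complex.mul_im, Complex.sub_re, Complex.sub_im, h, Complex.one_re, Complex.one_im, Complex.ofReal_im]
    ring

lemma wt_eq (hZ : ZC) (ρ : NT) : wt ρ = ((q0 ρ : ℝ) : ℂ) := by
  have h1 := hZ.1 ρ ρ.2
  have hne : (ρ : ℂ) ≠ 1 := by
    intro h; have := congrArg Complex.re h; rw [h1.1, Complex.one_re] at this; norm_num at this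
  have h2 : mu (ρ : ℂ) = 1 := mu_simple ρ.2.1 hne h1.2
  unfold wt
  rw [show mu ((ρ : Zt) : ℂ) = 1 from h2, prod_eq h1.1]
  unfold q0
  push_cast
  ring

lemma q0_sm : Summable q0 := by
  refine Summable.of_nonneg_of_le (fun ρ => (q0_pos ρ).le) (fun ρ => ?_) (inv_sq.mul_left 4)
  unfold q0
  rw [mul_one_div, div_le_div_iff₀ (by positivity) (by positivity)]
  nlinarith [sq_nonneg (ρ : ℂ).im]

lemma q0c_sm : Summable fun ρ : NT => ‖((q0 ρ : ℝ) : ℂ)‖ := by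
  refine q0_sm.congr fun ρ => ?_
  rw [Complex.norm_real, Real.norm_eq_abs, abs_of_pos (q0_pos ρ)]

lemma vz_sm (h : ℝ) : Summable (vz h) :=
  Summable.of_nonneg_of_le (vz_nonneg h) (vz_le h) (q0_sm.mul_left 4)

lemma vzc_sm (h : ℝ) : Summable fun ρ : NT => ‖((vz h ρ : ℝ) : ℂ)‖ := by
  refine (vz_sm h).congr fun ρ => ?_
  rw [Complex.norm_real, Real.norm_eq_abs, abs_of_nonneg (vz_nonneg h ρ)]

lemma fz_sz (hZ : ZC) (u : ℝ) : fz u = sz (fun ρ => ((q0 ρ : ℝ) : ℂ)) u := by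
  have h1 : fz u = ∑' ρ : NT, wt ρ * cexp (((ρ : ℂ) - 1 / 2) * u) := rfl
  rw [h1]
  unfold sz
  refine tsum_congr fun ρ => ?_
  rw [wt_eq hZ ρ]
  rfl

lemma ddfz (hZ : ZC) (h u : ℝ) : dd fz h u = sz (fun ρ => ((vz h ρ : ℝ) : ℂ)) u := by
  have hR := fun ρ hρ => (hZ.1 ρ hρ).1
  have h1 : fz = sz (fun ρ => ((q0 ρ : ℝ) : ℂ)) := funext (fz_sz hZ)
  rw [h1, dd_sz hR q0c_sm]
  unfold vz
  push_cast
  rfl

lemma ez_neg {ρ : ℂ} (h : ρ.re = 1 / 2) (u : ℝ) : ez ρ (-u) = conj (ez ρ u) := by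
  unfold ez
  rw [← Complex.exp_conj]
  congr 1
  apply Complex.ext
  · simp [h]
  · simp [h]

lemma sz_neg (hR : ∀ ρ ∈ NT, ρ.re = 1 / 2) (c : NT → ℝ) (u : ℝ) :
    sz (fun ρ => ((c ρ : ℝ) : ℂ)) (-u) = conj (sz (fun ρ => ((c ρ : ℝ) : ℂ)) u) := by
  unfold sz
  rw [Complex.conj_tsum]
  refine tsum_congr fun ρ => ?_
  rw [map_mul, Complex.conj_ofReal, ez_neg (hR ρ ρ.2)]

/-- the real part of the second difference -/
noncomputable def Pr (h u : ℝ) : ℝ := (dd fz h u).re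

lemma Pr_neg (hZ : ZC) (h u : ℝ) : Pr h (-u) = Pr h u := by
  have hR := fun ρ hρ => (hZ.1 ρ hρ).1
  unfold Pr
  rw [ddfz hZ, ddfz hZ, sz_neg hR, Complex.conj_re]

lemma Pr_zero (hZ : ZC) (h : ℝ) : Pr h 0 = (2 * (fz 0 - fz h)).re := by
  have hR := fun ρ hρ => (hZ.1 ρ hρ).1
  have h1 : fz (0 - h) = conj (fz h) := by
    rw [zero_sub, fz_sz hZ, fz_sz hZ, sz_neg hR]
  unfold Pr dd
  rw [zero_add, h1]
  simp only [Complex.sub_re, Complex.conj_re, Complex.mul_re, Complex.re_ofNat, Complex.im_ofNat, Complex.sub_im]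
  ring

/-- the coefficients -/
noncomputable def aa (n : ℕ) : ℝ := mo n / Real.sqrt n

/-- the Dirichlet polynomial -/
noncomputable def AA (N : ℕ) (ρ : ℂ) : ℂ := ∑ n ∈ Finset.Icc 1 N, (aa n : ℂ) * ez ρ (Real.log n)

lemma AA_sq {ρ : ℂ} (h : ρ.re = 1 / 2) (N : ℕ) : ((‖AA N ρ‖ ^ 2 : ℝ) : ℂ) =
    ∑ n ∈ Finset.Icc 1 N, ∑ m ∈ Finset.Icc 1 N, ((aa n * aa m : ℝ) : ℂ) * ez ρ (Real.log n - Real.log m) := by
  rw [← Complex.normSq_eq_norm_sq, ← Complex.mul_conj]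
  unfold AA
  rw [map_sum, Finset.sum_mul]
  refine Finset.sum_congr rfl fun n _ => ?_
  rw [Finset.mul_sum]
  refine Finset.sum_congr rfl fun m _ => ?_
  rw [map_mul, Complex.conj_ofReal, ← ez_neg h, sub_eq_add_neg, ez_add]
  push_cast
  ring

lemma AA_le {ρ : ℂ} (h : ρ.re = 1 / 2) (N : ℕ) : ‖AA N ρ‖ ≤ ∑ n ∈ Finset.Icc 1 N, |aa n| := by
  unfold AA
  refine (norm_sum_le _ _).trans (Finset.sum_le_sum fun n _ => ?_)
  rw [norm_mul, ez_norm h, mul_one, Complex.norm_real, Real.norm_eq_abs]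

/-- the second moment -/
noncomputable def Den (h : ℝ) (N : ℕ) : ℝ := ∑' ρ : NT, vz h ρ * ‖AA N ρ‖ ^ 2

lemma Den_sm (hR : ∀ ρ ∈ NT, ρ.re = 1 / 2) (h : ℝ) (N : ℕ) : Summable fun ρ : NT => vz h ρ * ‖AA N ρ‖ ^ 2 := by
  refine Summable.of_nonneg_of_le (fun ρ => mul_nonneg (vz_nonneg h ρ) (by positivity)) (fun ρ => ?_)
    ((vz_sm h).mul_right ((∑ n ∈ Finset.Icc 1 N, |aa n|) ^ 2))
  exact mul_le_mul_of_nonneg_left (pow_le_pow_left₀ (norm_nonneg _) (AA_le (hR ρ ρ.2) N) 2) (vz_nonneg h ρ)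

lemma Den_eq (hZ : ZC) (h : ℝ) (N : ℕ) : Den h N =
    ∑ n ∈ Finset.Icc 1 N, ∑ m ∈ Finset.Icc 1 N, aa n * aa m * Pr h (Real.log n - Real.log m) := by
  have hR := fun ρ hρ => (hZ.1 ρ hρ).1
  have h1 : ((Den h N : ℝ) : ℂ) = ∑ n ∈ Finset.Icc 1 N, ∑ m ∈ Finset.Icc 1 N,
      ((aa n * aa m : ℝ) : ℂ) * dd fz h (Real.log n - Real.log m) := by
    unfold Den
    rw [Complex.ofReal_tsum]
    have e1 : ∀ ρ : NT, ((vz h ρ * ‖AA N ρ‖ ^ 2 : ℝ) : ℂ) = ∑ n ∈ Finset.Icc 1 N, ∑ m ∈ Finset.Icc 1 N,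
        ((aa n * aa m : ℝ) : ℂ) * (((vz h ρ : ℝ) : ℂ) * ez ρ (Real.log n - Real.log m)) := by
      intro ρ
      rw [Complex.ofReal_mul, AA_sq (hR ρ ρ.2), Finset.mul_sum]
      refine Finset.sum_congr rfl fun n _ => ?_
      rw [Finset.mul_sum]
      refine Finset.sum_congr rfl fun m _ => ?_
      ring
    simp_rw [e1]
    have hs : ∀ n m : ℕ, Summable fun ρ : NT =>
        ((aa n * aa m : ℝ) : ℂ) * (((vz h ρ : ℝ) : ℂ) * ez ρ (Real.log n - Real.log m)) := fun n m =>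
      (sz_sm hR (vzc_sm h) _).mul_left _
    rw [Summable.tsum_finsetSum fun n _ => summable_sum fun m _ => hs n m]
    refine Finset.sum_congr rfl fun n _ => ?_
    rw [Summable.tsum_finsetSum fun m _ => hs n m]
    refine Finset.sum_congr rfl fun m _ => ?_
    rw [tsum_mul_left, ddfz hZ]
    rfl
  have h2 := congrArg Complex.re h1
  rw [Complex.ofReal_re, Complex.re_sum] at h2
  rw [h2]
  refine Finset.sum_congr rfl fun n _ => ?_
  rw [Complex.re_sum]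
  refine Finset.sum_congr rfl fun m _ => ?_
  rw [Complex.re_ofReal_mul]
  rfl

/-- the correlation -/
noncomputable def Num (h : ℝ) (N : ℕ) : ℂ := ∑ n ∈ Finset.Icc 1 N, (aa n : ℂ) * dd (sz b0) h (Real.log n)

lemma b0_vz (hZ : ZC) (h : ℝ) (ρ : NT) : b0 ρ * ((2 - 2 * Real.cos ((ρ : ℂ).im * h) : ℝ) : ℂ) =
    ((vz h ρ : ℝ) : ℂ) * (1 / deriv riemannZeta ρ) := by
  have h1 := hZ.1 ρ ρ.2
  have h2 := prod_eq h1.1
  have hρ : (ρ : ℂ) ≠ 0 := by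
    intro h; have := congrArg Complex.re h; rw [h1.1, Complex.zero_re] at this; norm_num at this
  have hρ1 : 1 - (ρ : ℂ) ≠ 0 := by
    intro h; have := congrArg Complex.re h
    rw [Complex.sub_re, h1.1, Complex.zero_re, Complex.one_re] at this; norm_num at this
  have hq : ((q0 ρ : ℝ) : ℂ) = 1 / ((ρ : ℂ) * (1 - (ρ : ℂ))) := by
    rw [h2]; unfold q0; push_cast; ring
  have h3 := h1.2
  unfold b0 vz
  rw [Complex.ofReal_mul, hq]
  field_simp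

lemma Num_eq (hZ : ZC) (h : ℝ) (N : ℕ) : Num h N =
    ∑' ρ : NT, ((vz h ρ : ℝ) : ℂ) * (1 / deriv riemannZeta ρ) * AA N ρ := by
  have hR := fun ρ hρ => (hZ.1 ρ hρ).1
  have hs : Summable fun ρ : NT => ‖b0 ρ * ((2 - 2 * Real.cos ((ρ : ℂ).im * h) : ℝ) : ℂ)‖ := by
    refine Summable.of_nonneg_of_le (fun ρ => norm_nonneg _) (fun ρ => ?_) ((b0_sm hZ).mul_right 4)
    rw [norm_mul, Complex.norm_real, Real.norm_eq_abs]
    refine mul_le_mul_of_nonneg_left ?_ (norm_nonneg _)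
    rw [abs_le]
    constructor <;> linarith [Real.cos_le_one ((ρ : ℂ).im * h), Real.neg_one_le_cos ((ρ : ℂ).im * h)]
  unfold Num
  have e1 : ∀ n ∈ Finset.Icc 1 N, (aa n : ℂ) * dd (sz b0) h (Real.log n) =
      ∑' ρ : NT, (aa n : ℂ) * (b0 ρ * ((2 - 2 * Real.cos ((ρ : ℂ).im * h) : ℝ) : ℂ) * ez ρ (Real.log n)) := by
    intro n _
    rw [tsum_mul_left, dd_sz hR (b0_sm hZ)]
    rfl
  rw [Finset.sum_congr rfl e1, ← Summable.tsum_finsetSum fun n _ => (sz_sm hR hs _).mul_left _]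
  refine tsum_congr fun ρ => ?_
  unfold AA
  rw [Finset.mul_sum, b0_vz hZ]
  refine Finset.sum_congr rfl fun n _ => ?_
  ring

open Pool.Agent.Q276.MW (dz tz) in
/-- the inequality of Cauchy and Schwarz -/
theorem cauchy (hZ : ZC) (h : ℝ) (N : ℕ) {l : ℝ} (hl : 0 < l) :
    2 * ‖Num h N‖ ≤ l * Pool.Agent.Q276.MW.TB.GG dz tz h + Den h N / l := by
  have hR := fun ρ hρ => (hZ.1 ρ hρ).1
  have H := Pool.Agent.Q276.MW.HY_of_ZC hZ
  have hG : Pool.Agent.Q276.MW.TB.GG dz tz h = ∑' ρ : NT, vz h ρ * (1 / ‖deriv riemannZeta (ρ : ℂ)‖ ^ 2) := by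
    unfold Pool.Agent.Q276.MW.TB.GG
    refine tsum_congr fun ρ => ?_
    unfold dz tz vz q0
    have : Real.cos (|(ρ : ℂ).im| * h) = Real.cos ((ρ : ℂ).im * h) := by
      rcases abs_cases (ρ : ℂ).im with ⟨h1, _⟩ | ⟨h1, _⟩
      · rw [h1]
      · rw [h1, neg_mul, Real.cos_neg]
    rw [this, sq_abs]
    ring
  have hGs : Summable fun ρ : NT => vz h ρ * (1 / ‖deriv riemannZeta (ρ : ℂ)‖ ^ 2) := by
    refine (Pool.Agent.Q276.MW.TB.GG_sm H h).congr fun ρ => ?_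
    unfold dz tz vz q0
    have : Real.cos (|(ρ : ℂ).im| * h) = Real.cos ((ρ : ℂ).im * h) := by
      rcases abs_cases (ρ : ℂ).im with ⟨h1, _⟩ | ⟨h1, _⟩
      · rw [h1]
      · rw [h1, neg_mul, Real.cos_neg]
    rw [this, sq_abs]
    ring
  have hDs := Den_sm hR h N
  have hb : ∀ ρ : NT, ‖((vz h ρ : ℝ) : ℂ) * (1 / deriv riemannZeta ρ) * AA N ρ‖ ≤
      l / 2 * (vz h ρ * (1 / ‖deriv riemannZeta (ρ : ℂ)‖ ^ 2)) + 1 / (2 * l) * (vz h ρ * ‖AA N ρ‖ ^ 2) := by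
    intro ρ
    rw [norm_mul, norm_mul, Complex.norm_real, Real.norm_eq_abs, abs_of_nonneg (vz_nonneg h ρ), norm_div, norm_one]
    obtain ⟨x, hx⟩ : ∃ x, x = 1 / ‖deriv riemannZeta (ρ : ℂ)‖ := ⟨_, rfl⟩
    obtain ⟨y, hy⟩ : ∃ y, y = ‖AA N ρ‖ := ⟨_, rfl⟩
    have e1 : 1 / ‖deriv riemannZeta (ρ : ℂ)‖ ^ 2 = x ^ 2 := by rw [hx, div_pow, one_pow]
    rw [e1, ← hx, ← hy]
    have h2 : x * y ≤ l / 2 * x ^ 2 + 1 / (2 * l) * y ^ 2 := by
      have h3 : 0 ≤ (l * x - y) ^ 2 / (2 * l) := by positivity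
      have h4 : (l * x - y) ^ 2 / (2 * l) = l / 2 * x ^ 2 + 1 / (2 * l) * y ^ 2 - x * y := by
        field_simp; ring
      linarith
    nlinarith [vz_nonneg h ρ, mul_le_mul_of_nonneg_left h2 (vz_nonneg h ρ)]
  have hsum : HasSum (fun ρ : NT => l / 2 * (vz h ρ * (1 / ‖deriv riemannZeta (ρ : ℂ)‖ ^ 2)) +
      1 / (2 * l) * (vz h ρ * ‖AA N ρ‖ ^ 2))
      (l / 2 * Pool.Agent.Q276.MW.TB.GG dz tz h + 1 / (2 * l) * Den h N) := by
    rw [hG]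
    exact (hGs.hasSum.mul_left _).add (hDs.hasSum.mul_left _)
  have h5 := tsum_of_norm_bounded hsum hb
  rw [← Num_eq hZ] at h5
  have h6 : 2 * (l / 2 * Pool.Agent.Q276.MW.TB.GG dz tz h + 1 / (2 * l) * Den h N) =
      l * Pool.Agent.Q276.MW.TB.GG dz tz h + Den h N / l := by field_simp
  linarith

end Q260.GC
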