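import Pool.Agent.Q260.GC.B3

/-! The bound for small windows. -/

set_option autoImplicit false

open MeasureTheory Filter Topology Set Complex ComplexConjugate

namespace Q260.GC

open Pool.Agent.W120.WM Pool.Agent.W280.WM
open Pool.Agent.Y23 (Zt mu)
open Pool.Agent.Q296.NA (wt wt_summable)
open Pool.Agent.Q276.MW (dz tz sd hd DL DL_GG HY_of_ZC)

lemma sum_sym (f : ℕ → ℕ → ℝ) (hf : ∀ m n, f m n = f n m) (N : ℕ) :
    ∑ n ∈ Finset.Icc 1 N, ∑ m ∈ Finset.Icc 1 N, f n m =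
      ∑ n ∈ Finset.Icc 1 N, f n n + 2 * ∑ n ∈ Finset.Icc 1 N, ∑ m ∈ Finset.Ico 1 n, f n m := by
  induction N with
  | zero => simp
  | succ N ih =>
    have e1 : ∀ n, ∑ m ∈ Finset.Icc 1 (N + 1), f n m = ∑ m ∈ Finset.Icc 1 N, f n m + f n (N + 1) :=
      fun n => Finset.sum_Icc_succ_top (by omega) _
    have e2 : ∑ m ∈ Finset.Ico 1 (N + 1), f (N + 1) m = ∑ m ∈ Finset.Icc 1 N, f (N + 1) m := rfl
    have e4 : ∑ n ∈ Finset.Icc 1 (N + 1), ∑ m ∈ Finset.Icc 1 (N + 1), f n m =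
        ∑ n ∈ Finset.Icc 1 N, ∑ m ∈ Finset.Icc 1 (N + 1), f n m + ∑ m ∈ Finset.Icc 1 (N + 1), f (N + 1) m :=
      Finset.sum_Icc_succ_top (by omega) _
    have e5 : ∑ n ∈ Finset.Icc 1 (N + 1), f n n = ∑ n ∈ Finset.Icc 1 N, f n n + f (N + 1) (N + 1) :=
      Finset.sum_Icc_succ_top (by omega) _
    have e6 : ∑ n ∈ Finset.Icc 1 (N + 1), ∑ m ∈ Finset.Ico 1 n, f n m =
        ∑ n ∈ Finset.Icc 1 N, ∑ m ∈ Finset.Ico 1 n, f n m + ∑ m ∈ Finset.Ico 1 (N + 1), f (N + 1) m :=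
      Finset.sum_Icc_succ_top (by omega) _
    have e3 : ∑ n ∈ Finset.Icc 1 N, ∑ m ∈ Finset.Icc 1 (N + 1), f n m =
        ∑ n ∈ Finset.Icc 1 N, ∑ m ∈ Finset.Icc 1 N, f n m + ∑ n ∈ Finset.Icc 1 N, f (N + 1) n := by
      rw [← Finset.sum_add_distrib]
      exact Finset.sum_congr rfl fun n _ => by rw [e1, hf n (N + 1)]
    rw [e4, e5, e6, e3, e1, ih, e2]
    ring

lemma aa_abs {n : ℕ} (hn : 1 ≤ n) : |aa n| ≤ 1 / Real.sqrt n := by
  have hn0 : (0 : ℝ) < n := by exact_mod_cast hn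
  unfold aa
  rw [abs_div, abs_of_pos (Real.sqrt_pos.mpr hn0)]
  exact div_le_div_of_nonneg_right (mo_abs n) (Real.sqrt_nonneg _)

/-- upper bound for the second moment -/
theorem Den_le (hZ : ZC) : ∃ C : ℝ, 0 < C ∧ ∀ (h : ℝ) (N : ℕ), 0 < h → 1 ≤ N → h * N ≤ 1 / 4 →
    Den h N ≤ h * (SS N * (Real.log (1 / h) + C) + 2 * TT N + C * (1 + Real.log N)) := by
  obtain ⟨C1, hC1, hoff⟩ := P_off
  obtain ⟨C2, hC2, hdiag⟩ := P_diag
  obtain ⟨C3, hC3, hOD⟩ := OD_le
  refine ⟨C2 + 2 * C3 + 2 * C1, by positivity, fun h N h0 hN hhN => ?_⟩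
  have hNr : (1 : ℝ) ≤ N := by exact_mod_cast hN
  have hh : h ≤ 1 / 4 := by nlinarith
  have hlN : 0 ≤ Real.log N := Real.log_nonneg hNr
  have hS0 := SS_nonneg N
  rw [Den_eq hZ, sum_sym (fun n m => aa n * aa m * Pr h (Real.log n - Real.log m)) (fun m n => by
    rw [mul_comm (aa m) (aa n), ← neg_sub (Real.log n) (Real.log m), Pr_neg hZ])]
  -- diagonal
  have hD : ∑ n ∈ Finset.Icc 1 N, aa n * aa n * Pr h (Real.log n - Real.log n) ≤
      SS N * (h * Real.log (1 / h) + C2 * h) := by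
    have h1 : Pr h 0 ≤ h * Real.log (1 / h) + C2 * h := by
      rw [Pr_zero hZ]
      exact (Complex.re_le_norm _).trans (hdiag h h0 (by linarith))
    unfold SS
    rw [Finset.sum_mul]
    refine Finset.sum_le_sum fun n hn => ?_
    rw [Finset.mem_Icc] at hn
    have hn0 : (0 : ℝ) < n := by exact_mod_cast hn.1
    have e1 : aa n * aa n = m2 n / n := by
      unfold aa
      rw [div_mul_div_comm, mo_sq, Real.mul_self_sqrt hn0.le]
    rw [sub_self, e1]
    exact mul_le_mul_of_nonneg_left h1 (div_nonneg (m2_nonneg n) hn0.le)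
  -- off the diagonal
  have hO : ∑ n ∈ Finset.Icc 1 N, ∑ m ∈ Finset.Ico 1 n, aa n * aa m * Pr h (Real.log n - Real.log m) ≤
      h * OD N + C1 * h ^ 2 * (3 * N * (1 + Real.log N)) := by
    have h1 : ∀ n ∈ Finset.Icc 1 N, ∀ m ∈ Finset.Ico 1 n, aa n * aa m * Pr h (Real.log n - Real.log m) ≤
        h * (-(mo m * mo n) * jj m n / n) + C1 * h ^ 2 * (2 / (m : ℝ) + 1 / ((n : ℝ) - m)) := by
      intro n hn m hm
      rw [Finset.mem_Icc] at hn
      rw [Finset.mem_Ico] at hm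
      have hm0 : (0 : ℝ) < m := by exact_mod_cast hm.1
      have hn0 : (0 : ℝ) < n := by exact_mod_cast hn.1
      have hnN : (n : ℝ) ≤ N := by exact_mod_cast hn.2
      obtain ⟨u, hu⟩ : ∃ u, u = Real.log n - Real.log m := ⟨_, rfl⟩
      have hnm : (m : ℝ) + 1 ≤ n := by exact_mod_cast hm.2
      have hul : 2 * h ≤ u := by
        have h2 : (n - m : ℝ) / n ≤ u := by
          rw [hu, ← Real.log_div hn0.ne' hm0.ne']
          have := Real.one_sub_inv_le_log_of_pos (show (0 : ℝ) < n / m by positivity)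
          refine le_trans (le_of_eq ?_) this
          field_simp
        refine le_trans ?_ h2
        rw [le_div_iff₀ hn0]
        nlinarith
      have hu0 : 0 < u := by linarith
      have h3 := hoff h u (Chebyshev.psi ((n / m : ℕ) : ℝ)) (Chebyshev.psi (((n - 1) / m : ℕ) : ℝ)) h0
        (by linarith) hul (fun v hv => psi_right hm.1 hn.1 hn.2 hhN h0 (hu ▸ hv))
        (fun v hv => psi_left hm.1 hn.1 hn.2 hhN h0 (hu ▸ hv))
      rw [psi_jump hn.1] at h3
      have h4 : |Pr h u + h * Real.exp (-(u / 2)) * jj m n| ≤ C1 * h ^ 2 * (Real.exp (u / 2) + 1 / u) := by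
        refine le_trans ?_ h3
        have := Complex.abs_re_le_norm (dd fz h u + ((h * Real.exp (-(u / 2)) * jj m n : ℝ) : ℂ))
        rwa [Complex.add_re, Complex.ofReal_re] at this
      have hsm := Real.sqrt_pos.mpr hm0
      have hsn := Real.sqrt_pos.mpr hn0
      have h5 : |aa n * aa m| ≤ 1 / (Real.sqrt m * Real.sqrt n) := by
        rw [abs_mul]
        refine (mul_le_mul (aa_abs hn.1) (aa_abs hm.1) (abs_nonneg _) (by positivity)).trans (le_of_eq ?_)
        rw [div_mul_div_comm, one_mul, mul_comm (Real.sqrt n)]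
      have h6 : aa n * aa m * Real.exp (-(u / 2)) = mo m * mo n / n := by
        have e1 : Real.exp (-(u / 2)) = Real.sqrt m / Real.sqrt n := by
          rw [Real.exp_neg, hu, ← Real.log_div hn0.ne' hm0.ne', Real.exp_half, Real.exp_log (by positivity),
            Real.sqrt_div hn0.le, inv_div]
        rw [e1]
        unfold aa
        have e2 : mo n / Real.sqrt n * (mo m / Real.sqrt m) * (Real.sqrt m / Real.sqrt n) =
            mo m * mo n / (Real.sqrt n * Real.sqrt n) := by field_simp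
        rw [e2, Real.mul_self_sqrt hn0.le]
      have h7 : aa n * aa m * (Pr h u + h * Real.exp (-(u / 2)) * jj m n) ≤
          C1 * h ^ 2 * (2 / (m : ℝ) + 1 / ((n : ℝ) - m)) := by
        have h8 := err_one hm.1 hm.2
        rw [← hu] at h8
        calc aa n * aa m * (Pr h u + h * Real.exp (-(u / 2)) * jj m n)
            ≤ |aa n * aa m * (Pr h u + h * Real.exp (-(u / 2)) * jj m n)| := le_abs_self _
          _ = |aa n * aa m| * |Pr h u + h * Real.exp (-(u / 2)) * jj m n| := abs_mul _ _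
          _ ≤ 1 / (Real.sqrt m * Real.sqrt n) * (C1 * h ^ 2 * (Real.exp (u / 2) + 1 / u)) :=
              mul_le_mul h5 h4 (abs_nonneg _) (by positivity)
          _ = C1 * h ^ 2 * (1 / (Real.sqrt m * Real.sqrt n) * (Real.exp (u / 2) + 1 / u)) := by ring
          _ ≤ _ := mul_le_mul_of_nonneg_left h8 (by positivity)
      rw [← hu]
      have h9 : aa n * aa m * (Pr h u + h * Real.exp (-(u / 2)) * jj m n) =
          aa n * aa m * Pr h u + h * (aa n * aa m * Real.exp (-(u / 2))) * jj m n := by ring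
      rw [h9, h6] at h7
      have h10 : h * (mo m * mo n / n) * jj m n = -(h * (-(mo m * mo n) * jj m n / n)) := by ring
      rw [h10] at h7
      linarith
    have h2 : ∑ n ∈ Finset.Icc 1 N, ∑ m ∈ Finset.Ico 1 n, aa n * aa m * Pr h (Real.log n - Real.log m) ≤
        h * OD N + C1 * h ^ 2 * ∑ n ∈ Finset.Icc 1 N, ∑ m ∈ Finset.Ico 1 n, (2 / (m : ℝ) + 1 / ((n : ℝ) - m)) := by
      unfold OD
      rw [Finset.mul_sum, Finset.mul_sum, ← Finset.sum_add_distrib]
      refine Finset.sum_le_sum fun n hn => ?_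
      rw [Finset.mul_sum, Finset.mul_sum, ← Finset.sum_add_distrib]
      exact Finset.sum_le_sum fun m hm => h1 n hn m hm
    refine h2.trans ?_
    have h3 := mul_le_mul_of_nonneg_left (err_sum N) (show 0 ≤ C1 * h ^ 2 by positivity)
    linarith
  have h5 := hOD N
  have h6 : C1 * h ^ 2 * (3 * N * (1 + Real.log N)) ≤ h * (C1 * (1 + Real.log N)) := by
    have : C1 * h ^ 2 * (3 * N * (1 + Real.log N)) = h * (C1 * (1 + Real.log N)) * (3 * (h * N)) := by ring
    rw [this]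
    refine mul_le_of_le_one_right (by positivity) (by linarith)
  have h7 := mul_le_mul_of_nonneg_left h5 h0.le
  have h8 : 0 ≤ h * (C1 * SS N) := by positivity
  have h9 : 0 ≤ h * (C2 + 2 * C3) * (1 + Real.log N) := by positivity
  have h10 : 0 ≤ h * (2 * C1 * SS N) := by positivity
  nlinarith

/-- lower bound for the correlation -/
theorem Num_ge (hZ : ZC) : ∃ C : ℝ, 0 < C ∧ ∀ (h : ℝ) (N : ℕ), 0 < h → 1 ≤ N → h * N ≤ 1 / 4 →
    h * (SS N - C) ≤ ‖Num h N‖ := by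
  obtain ⟨C, hC, hM⟩ := M_val hZ
  have hsum : Summable fun n : ℕ => 1 / (n : ℝ) ^ (3 / 2 : ℝ) := Real.summable_one_div_nat_rpow.mpr (by norm_num)
  obtain ⟨K, hK⟩ : ∃ K, K = ∑' n : ℕ, 1 / (n : ℝ) ^ (3 / 2 : ℝ) := ⟨_, rfl⟩
  have hK0 : 0 ≤ K := by rw [hK]; exact tsum_nonneg fun n => by positivity
  refine ⟨C * (K + 1), by positivity, fun h N h0 hN hhN => ?_⟩
  have h1 : ‖Num h N - ((h * SS N : ℝ) : ℂ)‖ ≤ h * (C * (K + 1)) := by
    have e1 : Num h N - ((h * SS N : ℝ) : ℂ) = ∑ n ∈ Finset.Icc 1 N, (aa n : ℂ) * (dd (sz b0) h (Real.log n) -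
        ((h * Real.exp (-(Real.log n / 2)) * mo n : ℝ) : ℂ)) := by
      unfold Num SS
      rw [Finset.mul_sum, Complex.ofReal_sum, ← Finset.sum_sub_distrib]
      refine Finset.sum_congr rfl fun n hn => ?_
      rw [Finset.mem_Icc] at hn
      have hn0 : (0 : ℝ) < n := by exact_mod_cast hn.1
      have e2 : h * (m2 n / n) = aa n * (h * Real.exp (-(Real.log n / 2)) * mo n) := by
        rw [Real.exp_neg, Real.exp_half, Real.exp_log hn0, ← mo_sq]
        unfold aa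
        have hs := Real.sqrt_pos.mpr hn0
        have e2 : mo n / Real.sqrt n * (h * (Real.sqrt n)⁻¹ * mo n) =
            h * (mo n * mo n / (Real.sqrt n * Real.sqrt n)) := by field_simp
        rw [e2, Real.mul_self_sqrt hn0.le]
      rw [e2, Complex.ofReal_mul (aa n), mul_sub]
    rw [e1]
    have h2 : ∀ n ∈ Finset.Icc 1 N, ‖(aa n : ℂ) * (dd (sz b0) h (Real.log n) -
        ((h * Real.exp (-(Real.log n / 2)) * mo n : ℝ) : ℂ))‖ ≤ C * h * (1 / (n : ℝ) ^ (3 / 2 : ℝ)) + C * h ^ 2 := by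
      intro n hn
      rw [Finset.mem_Icc] at hn
      have hn0 : (0 : ℝ) < n := by exact_mod_cast hn.1
      have hnN : (n : ℝ) ≤ N := by exact_mod_cast hn.2
      have h3 := hM h n h0 hn.1 ((mul_le_mul_of_nonneg_left hnN h0.le).trans (hhN.trans (by norm_num)))
      have e3 : Real.exp (-Real.log n) = (n : ℝ)⁻¹ := by rw [Real.exp_neg, Real.exp_log hn0]
      have e4 : Real.exp (Real.log n / 2) = Real.sqrt n := by rw [Real.exp_half, Real.exp_log hn0]
      rw [e3, e4] at h3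
      rw [norm_mul, Complex.norm_real, Real.norm_eq_abs]
      have hs := Real.sqrt_pos.mpr hn0
      have h4 : (n : ℝ) ^ (3 / 2 : ℝ) = n * Real.sqrt n := by
        rw [Real.sqrt_eq_rpow]
        nth_rewrite 2 [← Real.rpow_one (n : ℝ)]
        rw [← Real.rpow_add hn0]; norm_num
      calc |aa n| * ‖dd (sz b0) h (Real.log n) - ((h * Real.exp (-(Real.log n / 2)) * mo n : ℝ) : ℂ)‖
          ≤ 1 / Real.sqrt n * (C * (h * (n : ℝ)⁻¹ + h ^ 2 * Real.sqrt n)) :=
            mul_le_mul (aa_abs hn.1) h3 (norm_nonneg _) (by positivity)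
        _ = _ := by rw [h4]; field_simp
    refine (norm_sum_le_of_le _ h2).trans ?_
    rw [Finset.sum_add_distrib, ← Finset.mul_sum, Finset.sum_const, Nat.card_Icc, nsmul_eq_mul]
    have h3 : ∑ n ∈ Finset.Icc 1 N, 1 / (n : ℝ) ^ (3 / 2 : ℝ) ≤ K := by
      rw [hK]; exact hsum.sum_le_tsum _ fun n _ => by positivity
    have h4 := mul_le_mul_of_nonneg_left h3 (show 0 ≤ C * h by positivity)
    have h5 : ((N + 1 - 1 : ℕ) : ℝ) * (C * h ^ 2) ≤ C * h := by
      rw [Nat.add_sub_cancel]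
      have : (N : ℝ) * (C * h ^ 2) = C * h * (h * N) := by ring
      rw [this]
      exact mul_le_of_le_one_right (by positivity) (by linarith)
    linarith
  have h2 : h * SS N ≤ ‖((h * SS N : ℝ) : ℂ)‖ := by
    rw [Complex.norm_real]; exact le_abs_self _
  have h3 := norm_sub_norm_le ((h * SS N : ℝ) : ℂ) (Num h N)
  rw [norm_sub_rev] at h3
  linarith

/-- the sum over the zeros is large -/
theorem GG_ge (hZ : ZC) : ∃ C h1 : ℝ, 0 < C ∧ 0 < h1 ∧ h1 < 1 ∧ ∀ h : ℝ, 0 < h → h ≤ h1 →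
    3 / Real.pi ^ 2 * h * (1 - C / Real.log (1 / h)) ≤ Pool.Agent.Q276.MW.TB.GG dz tz h := by
  obtain ⟨C1, hC1, hNum⟩ := Num_ge hZ
  obtain ⟨C2, hC2, hDen⟩ := Den_le hZ
  obtain ⟨C3, hC3, hT⟩ := TT_le
  obtain ⟨κ, hκ⟩ : ∃ κ : ℝ, κ = 3 / Real.pi ^ 2 := ⟨_, rfl⟩
  have hκ0 : 0 < κ := by rw [hκ]; positivity
  have hκ1 : 6 / Real.pi ^ 2 = 2 * κ := by rw [hκ]; ring
  -- constants
  obtain ⟨C4, hC4⟩ : ∃ C4 : ℝ, C4 = C2 + (C3 + C2) / κ := ⟨_, rfl⟩
  have hC40 : 0 < C4 := by rw [hC4]; positivity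
  obtain ⟨C5, hC5⟩ : ∃ C5 : ℝ, C5 = Real.log 8 + C1 / κ + C4 := ⟨_, rfl⟩
  have hl8 : 0 < Real.log 8 := Real.log_pos (by norm_num)
  have hC50 : 0 < C5 := by rw [hC5]; positivity
  obtain ⟨L0, hL0⟩ : ∃ L0 : ℝ, L0 = 1 + Real.log 8 + C1 / κ := ⟨_, rfl⟩
  have hL00 : 1 ≤ L0 := by
    rw [hL0]
    have : 0 ≤ C1 / κ := by positivity
    linarith
  refine ⟨C5, Real.exp (-L0 - 3), hC50, Real.exp_pos _, ?_, fun h h0 hh => ?_⟩
  · rw [Real.exp_lt_one_iff]; linarith
  obtain ⟨L, hL⟩ : ∃ L, L = Real.log (1 / h) := ⟨_, rfl⟩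
  have hLh : Real.exp (-L) = h := by
    rw [hL, Real.log_div one_ne_zero h0.ne', Real.log_one, zero_sub, neg_neg, Real.exp_log h0]
  have hLL : L0 + 3 ≤ L := by
    have : Real.exp (-L) ≤ Real.exp (-L0 - 3) := by rw [hLh]; exact hh
    have := Real.exp_le_exp.mp this
    linarith
  have hL1 : 1 ≤ L := by linarith
  have hh16 : h ≤ 1 / 16 := by
    refine hh.trans ?_
    have h1 : Real.exp (-L0 - 3) ≤ Real.exp (-3) := Real.exp_le_exp.mpr (by linarith)
    have h2 : Real.exp (-3) ≤ 1 / 16 := by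
      rw [Real.exp_neg, ← one_div]
      refine one_div_le_one_div_of_le (by norm_num) ?_
      have h3 : Real.exp 3 = Real.exp 1 ^ 3 := by rw [← Real.exp_nat_mul]; norm_num
      rw [h3]
      have := Real.exp_one_gt_d9
      calc (16 : ℝ) ≤ 2.7182818283 ^ 3 := by norm_num
        _ ≤ Real.exp 1 ^ 3 := pow_le_pow_left₀ (by norm_num) this.le 3
    exact h1.trans h2
  obtain ⟨N, hNdef⟩ : ∃ N, N = ⌊1 / (4 * h)⌋₊ := ⟨_, rfl⟩
  have hN4 : 1 ≤ N := by
    rw [hNdef]
    refine Nat.le_floor ?_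
    rw [Nat.cast_one, le_div_iff₀ (by positivity)]
    linarith
  have hNr : (1 : ℝ) ≤ N := by exact_mod_cast hN4
  have hNu : (N : ℝ) ≤ 1 / (4 * h) := by rw [hNdef]; exact Nat.floor_le (by positivity)
  have hNl : 1 / (8 * h) ≤ N := by
    have h1 := Nat.lt_floor_add_one (1 / (4 * h))
    rw [← hNdef] at h1
    have h2 : 1 / (8 * h) = 1 / (4 * h) / 2 := by field_simp; ring
    rw [h2]
    linarith
  have hhN : h * N ≤ 1 / 4 := by
    calc h * N ≤ h * (1 / (4 * h)) := mul_le_mul_of_nonneg_left hNu h0.le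
      _ = 1 / 4 := by field_simp
  obtain ⟨l, hl⟩ : ∃ l, l = Real.log N := ⟨_, rfl⟩
  have hlu : l ≤ L := by
    rw [hl, hL]
    refine Real.log_le_log (by linarith) (hNu.trans ?_)
    exact one_div_le_one_div_of_le h0 (by linarith)
  have hll : L - Real.log 8 ≤ l := by
    have h1 := Real.log_le_log (by positivity) hNl
    rw [← hl] at h1
    have h2 : Real.log (1 / (8 * h)) = L - Real.log 8 := by
      rw [hL, ← Real.log_div (by positivity) (by norm_num)]; congr 1; field_simp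
    linarith
  have hl1 : 1 ≤ l := by
    have : 0 ≤ C1 / κ := by positivity
    linarith
  have hS := SS_ge hN4
  rw [hκ1, ← hl] at hS
  obtain ⟨S, hSd⟩ : ∃ S, S = SS N := ⟨_, rfl⟩
  rw [← hSd] at hS
  have hn := hNum h N h0 hN4 hhN
  have hd := hDen h N h0 hN4 hhN
  have ht := hT N hN4
  rw [← hSd] at hn hd
  rw [← hl, ← hL] at hd
  rw [← hκ, ← hl] at ht
  -- the size of the second moment
  have hS0 : 0 < S := by nlinarith
  have hSC : C1 < S := by
    have h1 : C1 / κ + 1 ≤ l := by linarith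
    have h2 : κ * (C1 / κ) = C1 := by field_simp
    nlinarith
  have hd2 : Den h N ≤ h * (S * (2 * L + 2 * C4)) := by
    refine hd.trans (mul_le_mul_of_nonneg_left ?_ h0.le)
    have h1 : 2 * κ * l * l ≤ S * L := by
      calc 2 * κ * l * l ≤ S * l := mul_le_mul_of_nonneg_right hS (by linarith)
        _ ≤ S * L := mul_le_mul_of_nonneg_left hlu hS0.le
    have h2 : 2 * C3 * l + C2 * (1 + l) ≤ S * ((C3 + C2) / κ) := by
      have h3 : 2 * C3 * l + C2 * (1 + l) ≤ 2 * (C3 + C2) * l := by nlinarith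
      have h4 : 2 * κ * l * ((C3 + C2) / κ) ≤ S * ((C3 + C2) / κ) :=
        mul_le_mul_of_nonneg_right hS (by positivity)
      have h5 : 2 * κ * l * ((C3 + C2) / κ) = 2 * (C3 + C2) * l := by field_simp
      linarith
    rw [hC4]
    have h6 : 0 ≤ S * C2 := by positivity
    have h7 : 0 ≤ S * ((C3 + C2) / κ) := by positivity
    nlinarith
  have hD0 : 0 < h * (S * (2 * L + 2 * C4)) := by positivity
  -- Cauchy and Schwarz
  obtain ⟨x, hx⟩ : ∃ x, x = h * (S - C1) := ⟨_, rfl⟩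
  have hx0 : 0 < x := by rw [hx]; exact mul_pos h0 (by linarith)
  have hcs := cauchy hZ h N (l := h * (S * (2 * L + 2 * C4)) / x) (by positivity)
  have h1 : Den h N / (h * (S * (2 * L + 2 * C4)) / x) ≤ x := by
    rw [div_le_iff₀ (by positivity)]
    have : x * (h * (S * (2 * L + 2 * C4)) / x) = h * (S * (2 * L + 2 * C4)) := by field_simp
    rw [this]
    exact hd2
  have h2 : x ≤ h * (S * (2 * L + 2 * C4)) / x * Pool.Agent.Q276.MW.TB.GG dz tz h := by
    rw [hx] at *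
    linarith
  have h3 : x ^ 2 / (h * (S * (2 * L + 2 * C4))) ≤ Pool.Agent.Q276.MW.TB.GG dz tz h := by
    rw [div_le_iff₀ hD0]
    have h4 := mul_le_mul_of_nonneg_right h2 hx0.le
    have h5 : h * (S * (2 * L + 2 * C4)) / x * Pool.Agent.Q276.MW.TB.GG dz tz h * x =
        Pool.Agent.Q276.MW.TB.GG dz tz h * (h * (S * (2 * L + 2 * C4))) := by field_simp
    rw [h5] at h4
    linarith [sq x]
  refine le_trans ?_ h3
  rw [← hκ, ← hL, hx]
  have h4 : (h * (S - C1)) ^ 2 / (h * (S * (2 * L + 2 * C4))) = h * ((S - C1) ^ 2 / (S * (2 * (L + C4)))) := by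
    field_simp
  rw [h4, mul_comm κ h, mul_assoc]
  refine mul_le_mul_of_nonneg_left ?_ h0.le
  rw [le_div_iff₀ (by positivity)]
  have h5 : S * (2 * (κ * (L - Real.log 8) - C1)) ≤ (S - C1) ^ 2 := by
    have h6 : 2 * κ * (L - Real.log 8) ≤ S := by
      refine le_trans ?_ hS
      exact mul_le_mul_of_nonneg_left hll (by linarith)
    nlinarith [sq_nonneg C1, mul_pos hS0 hC1]
  refine le_trans ?_ h5
  have h6 : κ * (1 - C5 / L) * (S * (2 * (L + C4))) = S * (2 * (κ * ((1 - C5 / L) * (L + C4)))) := by ring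
  rw [h6]
  refine mul_le_mul_of_nonneg_left ?_ hS0.le
  refine mul_le_mul_of_nonneg_left ?_ (by norm_num)
  have h7 : (1 - C5 / L) * (L + C4) ≤ L - Real.log 8 - C1 / κ := by
    have h8 : (1 - C5 / L) * (L + C4) = L + C4 - C5 - C5 * C4 / L := by field_simp; ring
    have h9 : 0 ≤ C5 * C4 / L := by positivity
    rw [h8, hC5]
    rw [hC5] at h9
    linarith
  calc κ * ((1 - C5 / L) * (L + C4)) ≤ κ * (L - Real.log 8 - C1 / κ) := mul_le_mul_of_nonneg_left h7 hκ0.le
    _ = κ * (L - Real.log 8) - C1 := by field_simp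

end Q260.GC
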