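import Pool.Agent.Q260.GC.B4

/-! The limit for small windows. -/

set_option autoImplicit false

open MeasureTheory Filter Topology Set

namespace Q260.GC

open Pool.Agent.W120.WM (ZC NT)
open Pool.Agent.Q276.MW (dz tz sd hd DL DD DL_GG HY_of_ZC sd_nonneg sd_le_one sd_low hd_pos hd_le DD_lim DD_top)

lemma hd_ge {δ : ℝ} (h0 : 0 < δ) (h1 : δ ≤ 1) : δ * (1 - δ / 4) ≤ hd δ := by
  unfold hd
  have e1 := Real.one_sub_inv_le_log_of_pos (show 0 < 1 + δ / 2 by linarith)
  have e2 := Real.log_le_sub_one_of_pos (show 0 < 1 - δ / 2 by linarith)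
  have e3 : (1 + δ / 2)⁻¹ ≤ 1 - δ / 2 + δ ^ 2 / 4 := by
    rw [inv_le_iff_one_le_mul₀ (by linarith)]
    nlinarith [pow_pos h0 3]
  nlinarith

theorem DL_ge (hZ : ZC) {C h1 : ℝ} (hC : 0 < C) (h10 : 0 < h1)
    (hG : ∀ h : ℝ, 0 < h → h ≤ h1 → 3 / Real.pi ^ 2 * h * (1 - C / Real.log (1 / h)) ≤
      Pool.Agent.Q276.MW.TB.GG dz tz h) {δ : ℝ} (hδ : 0 < δ) (hδ1 : δ ≤ h1 / 2) (hδ2 : δ ≤ 1 / 4) :
    3 / Real.pi ^ 2 * δ * (1 - (2 * C + 1) / Real.log (1 / δ)) ≤ DL δ := by
  have H := HY_of_ZC hZ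
  have hκ : 0 < 3 / Real.pi ^ 2 := by positivity
  obtain ⟨l, hl⟩ : ∃ l, l = Real.log (1 / δ) := ⟨_, rfl⟩
  have hl4 : 2 * Real.log 2 ≤ l := by
    have h2 : Real.log 4 ≤ l := by
      rw [hl]
      refine Real.log_le_log (by norm_num) ?_
      rw [le_div_iff₀ hδ]; linarith
    have h3 : Real.log 4 = 2 * Real.log 2 := by
      rw [show (4 : ℝ) = 2 ^ 2 by norm_num, Real.log_pow]; push_cast; ring
    linarith
  have hlog2 : 0 < Real.log 2 := Real.log_pos (by norm_num)
  have hl0 : 0 < l := by linarith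
  rw [← hl]
  rcases le_total (1 - 2 * C / l) 0 with hneg | hpos
  · have h2 : 1 - (2 * C + 1) / l ≤ 0 := by
      have : (2 * C + 1) / l = 2 * C / l + 1 / l := by ring
      have h3 : 0 < 1 / l := by positivity
      linarith
    refine le_trans ?_ (Pool.Agent.Q276.MW.DL_nonneg δ)
    exact mul_nonpos_of_nonneg_of_nonpos (by positivity) h2
  · have hd0 := hd_pos hδ (by linarith)
    have hd2 := hd_le hδ (by linarith)
    have h2 := hG (hd δ) hd0 (by linarith)
    have h3 : l / 2 ≤ Real.log (1 / hd δ) := by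
      have h4 : Real.log (1 / (2 * δ)) ≤ Real.log (1 / hd δ) :=
        Real.log_le_log (by positivity) (one_div_le_one_div_of_le hd0 hd2)
      have h5 : Real.log (1 / (2 * δ)) = l - Real.log 2 := by
        rw [hl, ← Real.log_div (by positivity) (by norm_num)]; congr 1; field_simp
      linarith
    have h4 : 1 - 2 * C / l ≤ 1 - C / Real.log (1 / hd δ) := by
      have h5 : C / Real.log (1 / hd δ) ≤ C / (l / 2) := div_le_div_of_nonneg_left hC.le (by positivity) h3
      have h6 : C / (l / 2) = 2 * C / l := by field_simp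
      linarith
    have h5 := hd_ge hδ (by linarith)
    have h6 : 3 / Real.pi ^ 2 * (δ * (1 - δ / 4)) * (1 - 2 * C / l) ≤ Pool.Agent.Q276.MW.TB.GG dz tz (hd δ) := by
      refine le_trans ?_ h2
      refine mul_le_mul (mul_le_mul_of_nonneg_left h5 hκ.le) h4 hpos (by positivity)
    have h7 := sd_low hδ.le (by linarith)
    have h8 := sd_le_one hδ.le (by linarith)
    have h9 : (1 - δ ^ 2 / 4) * (3 / Real.pi ^ 2 * (δ * (1 - δ / 4)) * (1 - 2 * C / l)) ≤
        sd δ * Pool.Agent.Q276.MW.TB.GG dz tz (hd δ) := by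
      have h12 : 0 ≤ δ * (1 - δ / 4) := by nlinarith
      refine mul_le_mul (by linarith) h6 ?_ (sd_nonneg δ)
      exact mul_nonneg (mul_nonneg hκ.le h12) hpos
    rw [DL_GG hZ hδ (by linarith)]
    have h10 : 0 ≤ (2 - 2 * sd δ) * Pool.Agent.Q276.MW.TB.WW dz tz :=
      mul_nonneg (by linarith) (Pool.Agent.Q276.MW.TB.WW_nonneg H)
    have h11 : 1 - (2 * C + 1) / l ≤ (1 - δ ^ 2 / 4) * ((1 - δ / 4) * (1 - 2 * C / l)) := by
      have h12 : 1 - δ / 2 ≤ (1 - δ ^ 2 / 4) * (1 - δ / 4) := by nlinarith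
      have h13 := mul_le_mul_of_nonneg_right h12 hpos
      have h14 : δ / 2 ≤ 1 / l := by
        rw [le_div_iff₀ hl0]
        have h15 : l ≤ 1 / δ := by
          have := Real.log_le_sub_one_of_pos (show 0 < 1 / δ by positivity)
          rw [← hl] at this
          linarith
        have h16 : δ * l ≤ 1 := by
          calc δ * l ≤ δ * (1 / δ) := mul_le_mul_of_nonneg_left h15 hδ.le
            _ = 1 := by field_simp
        linarith
      have h15 : (2 * C + 1) / l = 2 * C / l + 1 / l := by ring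
      have h16 : 0 ≤ δ / 2 * (2 * C / l) := by positivity
      nlinarith
    have h12 := mul_le_mul_of_nonneg_left h11 (show 0 ≤ 3 / Real.pi ^ 2 * δ by positivity)
    calc 3 / Real.pi ^ 2 * δ * (1 - (2 * C + 1) / l) ≤
          3 / Real.pi ^ 2 * δ * ((1 - δ ^ 2 / 4) * ((1 - δ / 4) * (1 - 2 * C / l))) := h12
      _ = (1 - δ ^ 2 / 4) * (3 / Real.pi ^ 2 * (δ * (1 - δ / 4)) * (1 - 2 * C / l)) := by ring
      _ ≤ sd δ * Pool.Agent.Q276.MW.TB.GG dz tz (hd δ) := h9
      _ ≤ _ := by linarith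

/-- the lower bound for the mean squares -/
theorem DD_ge : ∃ C δ₀ : ℝ, 0 < C ∧ 0 < δ₀ ∧ δ₀ < 1 ∧ ∀ δ : ℝ, 0 < δ → δ < δ₀ →
    ∀ᶠ X in atTop, 3 / Real.pi ^ 2 * δ * (1 - C / Real.log (1 / δ)) ≤ DD δ X := by
  by_cases hZ : ZC
  · obtain ⟨C, h1, hC, h10, h11, hG⟩ := GG_ge hZ
    refine ⟨2 * C + 2, min (h1 / 2) (1 / 4), by positivity, by positivity, ?_, fun δ hδ hδ1 => ?_⟩
    · exact (min_le_right _ _).trans_lt (by norm_num)
    have e1 := (hδ1.trans_le (min_le_left _ _)).le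
    have e2 := (hδ1.trans_le (min_le_right _ _)).le
    have h2 := DL_ge hZ hC h10 hG hδ e1 e2
    have hl : 0 < Real.log (1 / δ) := Real.log_pos (by rw [lt_div_iff₀ hδ]; linarith)
    have h3 : 3 / Real.pi ^ 2 * δ * (1 - (2 * C + 2) / Real.log (1 / δ)) < DL δ := by
      refine lt_of_lt_of_le ?_ h2
      refine mul_lt_mul_of_pos_left ?_ (by positivity)
      have : (2 * C + 1) / Real.log (1 / δ) < (2 * C + 2) / Real.log (1 / δ) :=
        div_lt_div_of_pos_right (by linarith) hl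
      linarith
    exact ((DD_lim hZ hδ (by linarith)).eventually (lt_mem_nhds h3)).mono fun X hX => hX.le
  · refine ⟨1, 1 / 2, one_pos, by norm_num, by norm_num, fun δ hδ hδ1 => ?_⟩
    exact (DD_top hZ hδ (by linarith)).eventually_ge_atTop _

end Q260.GC
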